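import Pool.Agent.Lib.MP_a17b09_nt.LP.WeylBox

/-!
Project MR (parity case of CH), module VC: cancellation of angular characters over Gaussian
integers in annuli and residue classes.  Part a: counting lattice points in annuli.
-/

set_option autoImplicit false

open Finset

namespace Pool.Agent.Lib.MP_a17b09_nt.MR

open Pool.Agent.Lib.MP_a17b09_nt.LP

/-- **StVC**: cancellation of the angular characters over annuli and residue classes -/
def StVC : Prop := ∀ κ : ℝ, 0 < κ → ∃ c : ℝ, 0 < c ∧ ∃ C : ℝ, 0 < C ∧ ∀ T : ℝ, 1 ≤ T →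
  ∀ h : ℤ, h ≠ 0 → |(h : ℝ)| ≤ T → ∀ (q : ℕ) (a : ℤ × ℤ), 0 < q → ∀ Y Y1 Y2 : ℝ,
  (q : ℝ) ^ 2 * T ^ κ ≤ Y → Y ≤ Y1 → Y1 ≤ Y2 → Y2 ≤ 2 * Y → ∀ S : Finset (ℤ × ℤ),
  (∀ v : ℤ × ℤ, v ∈ S ↔ (q : ℤ) ∣ v.1 - a.1 ∧ (q : ℤ) ∣ v.2 - a.2 ∧
    Y1 < (v.1 : ℝ) ^ 2 + (v.2 : ℝ) ^ 2 ∧ (v.1 : ℝ) ^ 2 + (v.2 : ℝ) ^ 2 ≤ Y2) →
  ‖∑ v ∈ S, (zc v / (‖zc v‖ : ℂ)) ^ h‖ ≤ C * (Y / q ^ 2) ^ (1 - c)

namespace VC63

theorem card_diam (S : Finset ℤ) (D : ℝ) (hD : 0 ≤ D)
    (h : ∀ x ∈ S, ∀ y ∈ S, (x : ℝ) - y ≤ D) : (S.card : ℝ) ≤ D + 1 := by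
  rcases S.eq_empty_or_nonempty with h0 | hne
  · rw [h0, Finset.card_empty, Nat.cast_zero]
    linarith
  · set m := S.min' hne with hm
    have hsub : S ⊆ Finset.Icc m (m + ⌊D⌋) := by
      intro x hx
      rw [Finset.mem_Icc]
      refine ⟨S.min'_le x hx, ?_⟩
      have h1 := h x hx m (S.min'_mem hne)
      have h2 : x - m ≤ ⌊D⌋ := Int.le_floor.2 (by push_cast; exact h1)
      linarith
    have hfl : 0 ≤ ⌊D⌋ := Int.floor_nonneg.2 hD
    calc (S.card : ℝ) ≤ ((Finset.Icc m (m + ⌊D⌋)).card : ℝ) := by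
          exact_mod_cast Finset.card_le_card hsub
      _ = (⌊D⌋ : ℝ) + 1 := by
          rw [Int.card_Icc]
          have : ((m + ⌊D⌋ + 1 - m).toNat : ℤ) = ⌊D⌋ + 1 := by
            rw [Int.toNat_of_nonneg (by omega)]
            ring
          exact_mod_cast this
      _ ≤ D + 1 := by
          have := Int.floor_le D
          linarith

theorem card_rows (T : Finset (ℤ × ℤ)) (D1 D2 : ℝ) (h1 : 0 ≤ D1) (h2 : 0 ≤ D2)
    (r : ∀ v ∈ T, ∀ v' ∈ T, v.2 = v'.2 → (v.1 : ℝ) - v'.1 ≤ D1)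
    (c : ∀ v ∈ T, ∀ v' ∈ T, (v.2 : ℝ) - v'.2 ≤ D2) : (T.card : ℝ) ≤ (D2 + 1) * (D1 + 1) := by
  have h3 : (T.card : ℝ) = ∑ y ∈ T.image Prod.snd, ((T.filter (fun v => v.2 = y)).card : ℝ) := by
    rw [Finset.card_eq_sum_card_image Prod.snd T]
    push_cast
    rfl
  have h4 : ∀ y ∈ T.image Prod.snd, ((T.filter (fun v => v.2 = y)).card : ℝ) ≤ D1 + 1 := by
    intro y _
    have e : (T.filter (fun v => v.2 = y)).card =
        ((T.filter (fun v => v.2 = y)).image Prod.fst).card := by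
      rw [Finset.card_image_of_injOn]
      intro v hv v' hv' heq
      rw [Finset.mem_coe, Finset.mem_filter] at hv hv'
      exact Prod.ext heq (hv.2.trans hv'.2.symm)
    rw [e]
    apply card_diam _ _ h1
    intro x hx x' hx'
    obtain ⟨v, hv, rfl⟩ := Finset.mem_image.1 hx
    obtain ⟨v', hv', rfl⟩ := Finset.mem_image.1 hx'
    rw [Finset.mem_filter] at hv hv'
    exact r v hv.1 v' hv'.1 (hv.2.trans hv'.2.symm)
  have h5 : ((T.image Prod.snd).card : ℝ) ≤ D2 + 1 := by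
    apply card_diam _ _ h2
    intro x hx x' hx'
    obtain ⟨v, hv, rfl⟩ := Finset.mem_image.1 hx
    obtain ⟨v', hv', rfl⟩ := Finset.mem_image.1 hx'
    exact c v hv v' hv'
  rw [h3]
  calc ∑ y ∈ T.image Prod.snd, ((T.filter (fun v => v.2 = y)).card : ℝ)
      ≤ ∑ y ∈ T.image Prod.snd, (D1 + 1) := Finset.sum_le_sum h4
    _ = ((T.image Prod.snd).card : ℝ) * (D1 + 1) := by rw [Finset.sum_const, nsmul_eq_mul]
    _ ≤ (D2 + 1) * (D1 + 1) := mul_le_mul_of_nonneg_right h5 (by linarith)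

/-- squared distance -/
noncomputable def N2 (z0 : ℂ) (w : ℤ × ℤ) : ℝ := (w.1 + z0.re) ^ 2 + (w.2 + z0.im) ^ 2

theorem N2_eq (z0 : ℂ) (w : ℤ × ℤ) : N2 z0 w = ‖zc w + z0‖ ^ 2 := by
  rw [← Complex.normSq_eq_norm_sq, Complex.normSq_apply, Complex.add_re, Complex.add_im, zc_re,
    zc_im]
  unfold N2
  ring

theorem diff_le {A B x1 x2 y : ℝ} (hA : 0 < A) (hx1 : |y| ≤ x1) (hx2 : |y| ≤ x2)
    (h1 : A ≤ x1 ^ 2 + y ^ 2) (h2 : x2 ^ 2 + y ^ 2 ≤ B) (hx : x1 ≤ x2) :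
    x2 - x1 ≤ (B - A) / √A := by
  have hs : 0 < √A := Real.sqrt_pos.2 hA
  rw [le_div_iff₀ hs]
  have hy : y ^ 2 ≤ x1 ^ 2 := by
    rw [← sq_abs y]
    exact pow_le_pow_left₀ (abs_nonneg _) hx1 2
  have hx10 : 0 ≤ x1 := (abs_nonneg _).trans hx1
  have h3 : A ≤ (2 * x1) ^ 2 := by nlinarith
  have h4 : √A ≤ 2 * x1 := Real.sqrt_le_iff.2 ⟨by linarith, h3⟩
  have h5 : √A ≤ x1 + x2 := by linarith
  nlinarith [mul_le_mul_of_nonneg_left h5 (sub_nonneg.2 hx)]

theorem card_quad {A B : ℝ} (hA : 0 < A) (hAB : A ≤ B) (α β : ℝ) (T : Finset (ℤ × ℤ))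
    (h : ∀ w ∈ T, A ≤ (w.1 + α) ^ 2 + (w.2 + β) ^ 2 ∧ (w.1 + α) ^ 2 + (w.2 + β) ^ 2 ≤ B ∧
      |(w.2 : ℝ) + β| ≤ w.1 + α) :
    (T.card : ℝ) ≤ (2 * √B + 1) * ((B - A) / √A + 1) := by
  have hs : 0 < √A := Real.sqrt_pos.2 hA
  apply card_rows T _ _ (div_nonneg (by linarith) hs.le) (by positivity)
  · intro v hv v' hv' he
    obtain ⟨a1, a2, a3⟩ := h v hv
    obtain ⟨b1, b2, b3⟩ := h v' hv'
    rcases le_total ((v'.1 : ℝ) + α) (v.1 + α) with hle | hle
    · rw [he] at a2 a3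
      have := diff_le hA b3 a3 b1 a2 hle
      linarith
    · have : (0 : ℝ) ≤ (B - A) / √A := div_nonneg (by linarith) hs.le
      linarith
  · intro v hv v' hv'
    obtain ⟨a1, a2, a3⟩ := h v hv
    obtain ⟨b1, b2, b3⟩ := h v' hv'
    have k1 : |(v.2 : ℝ) + β| ≤ √B := by
      apply Real.abs_le_sqrt
      nlinarith [sq_nonneg ((v.1 : ℝ) + α)]
    have k2 : |(v'.2 : ℝ) + β| ≤ √B := by
      apply Real.abs_le_sqrt
      nlinarith [sq_nonneg ((v'.1 : ℝ) + α)]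
    have := abs_le.1 k1
    have := abs_le.1 k2
    linarith

/-- lattice points in an annulus -/
theorem card_shell {A B : ℝ} (hA : 0 < A) (hAB : A ≤ B) (z0 : ℂ) (T : Finset (ℤ × ℤ))
    (h : ∀ w ∈ T, A ≤ N2 z0 w ∧ N2 z0 w ≤ B) :
    (T.card : ℝ) ≤ 4 * ((2 * √B + 1) * ((B - A) / √A + 1)) := by
  classical
  set x : ℤ × ℤ → ℝ := fun w => (w.1 : ℝ) + z0.re with hx
  set y : ℤ × ℤ → ℝ := fun w => (w.2 : ℝ) + z0.im with hy
  set T1 := T.filter (fun w => |y w| ≤ x w) with hT1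
  set T2 := T.filter (fun w => |y w| ≤ - x w) with hT2
  set T3 := T.filter (fun w => |x w| ≤ y w) with hT3
  set T4 := T.filter (fun w => |x w| ≤ - y w) with hT4
  have hcov : T ⊆ T1 ∪ (T2 ∪ (T3 ∪ T4)) := by
    intro w hw
    simp only [hT1, hT2, hT3, hT4, Finset.mem_union, Finset.mem_filter]
    rcases le_total |y w| |x w| with h1 | h1
    · rcases le_total 0 (x w) with h2 | h2
      · left
        rw [abs_of_nonneg h2] at h1
        exact ⟨hw, h1⟩
      · right; left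
        rw [abs_of_nonpos h2] at h1
        exact ⟨hw, h1⟩
    · rcases le_total 0 (y w) with h2 | h2
      · right; right; left
        rw [abs_of_nonneg h2] at h1
        exact ⟨hw, h1⟩
      · right; right; right
        rw [abs_of_nonpos h2] at h1
        exact ⟨hw, h1⟩
  have b1 : (T1.card : ℝ) ≤ (2 * √B + 1) * ((B - A) / √A + 1) := by
    apply card_quad hA hAB z0.re z0.im
    intro w hw
    rw [hT1, Finset.mem_filter] at hw
    exact ⟨(h w hw.1).1, (h w hw.1).2, hw.2⟩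
  have b2 : (T2.card : ℝ) ≤ (2 * √B + 1) * ((B - A) / √A + 1) := by
    have e : (T2.card : ℝ) = ((T2.image (fun w => (-w.1, w.2))).card : ℝ) := by
      rw [Finset.card_image_of_injective]
      intro u v huv
      simp only [Prod.mk.injEq, neg_inj] at huv
      exact Prod.ext huv.1 huv.2
    rw [e]
    apply card_quad hA hAB (-z0.re) z0.im
    intro w hw
    obtain ⟨u, hu, rfl⟩ := Finset.mem_image.1 hw
    rw [hT2, Finset.mem_filter] at hu
    obtain ⟨h1, h2⟩ := h u hu.1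
    unfold N2 at h1 h2
    have e1 : (((-u.1 : ℤ) : ℝ) + -z0.re) ^ 2 = (u.1 + z0.re) ^ 2 := by push_cast; ring
    simp only
    rw [e1]
    refine ⟨h1, h2, ?_⟩
    have h3 := hu.2
    simp only [hx, hy] at h3
    push_cast
    linarith
  have b3 : (T3.card : ℝ) ≤ (2 * √B + 1) * ((B - A) / √A + 1) := by
    have e : (T3.card : ℝ) = ((T3.image (fun w => (w.2, w.1))).card : ℝ) := by
      rw [Finset.card_image_of_injective]
      intro u v huv
      simp only [Prod.mk.injEq] at huv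
      exact Prod.ext huv.2 huv.1
    rw [e]
    apply card_quad hA hAB z0.im z0.re
    intro w hw
    obtain ⟨u, hu, rfl⟩ := Finset.mem_image.1 hw
    rw [hT3, Finset.mem_filter] at hu
    obtain ⟨h1, h2⟩ := h u hu.1
    unfold N2 at h1 h2
    simp only
    refine ⟨by linarith, by linarith, ?_⟩
    have h3 := hu.2
    simp only [hx, hy] at h3
    exact h3
  have b4 : (T4.card : ℝ) ≤ (2 * √B + 1) * ((B - A) / √A + 1) := by
    have e : (T4.card : ℝ) = ((T4.image (fun w => (-w.2, w.1))).card : ℝ) := by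
      rw [Finset.card_image_of_injective]
      intro u v huv
      simp only [Prod.mk.injEq, neg_inj] at huv
      exact Prod.ext huv.2 huv.1
    rw [e]
    apply card_quad hA hAB (-z0.im) z0.re
    intro w hw
    obtain ⟨u, hu, rfl⟩ := Finset.mem_image.1 hw
    rw [hT4, Finset.mem_filter] at hu
    obtain ⟨h1, h2⟩ := h u hu.1
    unfold N2 at h1 h2
    have e1 : (((-u.2 : ℤ) : ℝ) + -z0.im) ^ 2 = (u.2 + z0.im) ^ 2 := by push_cast; ring
    simp only
    rw [e1]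
    refine ⟨by linarith, by linarith, ?_⟩
    have h3 := hu.2
    simp only [hx, hy] at h3
    push_cast
    linarith
  have hc : T.card ≤ T1.card + (T2.card + (T3.card + T4.card)) := by
    refine (Finset.card_le_card hcov).trans ((Finset.card_union_le _ _).trans ?_)
    apply Nat.add_le_add_left
    refine (Finset.card_union_le _ _).trans ?_
    apply Nat.add_le_add_left
    exact Finset.card_union_le _ _
  have hc' : (T.card : ℝ) ≤ T1.card + (T2.card + (T3.card + T4.card)) := by exact_mod_cast hc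
  linarith

end VC63

end Pool.Agent.Lib.MP_a17b09_nt.MR
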