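import Pool.Agent.Lib.MP_a17b09_nt.LP.WeylBox

/-!
Module VC, part b: the Weyl bound for the angular characters on shifted boxes, all frequencies
between a small and a large power.
-/

set_option autoImplicit false

open Finset

namespace Pool.Agent.Lib.MP_a17b09_nt.MR

open Pool.Agent.Lib.MP_a17b09_nt.LP

namespace VC63

/-- the rotated and shifted logarithm and its derivatives -/
noncomputable def G (M : ℕ) (u z0 : ℂ) (k : ℕ) (z : ℂ) : ℂ := Fch M k (u * (z + z0)) * u ^ k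

theorem G_deriv (M : ℕ) (u z0 : ℂ) (k : ℕ) (z : ℂ) (hz : 0 < (u * (z + z0)).re) :
    HasDerivAt (G M u z0 k) (G M u z0 (k + 1) z) z := by
  have h1 := Fch_deriv M k (u * (z + z0)) hz
  have h2 : HasDerivAt (fun z : ℂ => u * (z + z0)) u z := by
    simpa using ((hasDerivAt_id z).add_const z0).const_mul u
  have h3 := (h1.comp z h2).mul_const (u ^ k)
  have e : G M u z0 (k + 1) z = Fch M (k + 1) (u * (z + z0)) * u * u ^ k := by
    unfold G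
    ring
  rw [e]
  exact h3

theorem G_norm (M : ℕ) (u z0 : ℂ) (hu : ‖u‖ = 1) (k : ℕ) (z : ℂ) :
    ‖G M u z0 (k + 1) z‖ = (M : ℝ) * (k.factorial : ℝ) / ‖z + z0‖ ^ (k + 1) := by
  unfold G
  rw [norm_mul, norm_pow, hu, one_pow, mul_one, Fch_norm, norm_mul, hu, one_mul]

theorem G_phase (M : ℕ) (u z0 : ℂ) (hu : ‖u‖ = 1) (z : ℂ) (hz : z + z0 ≠ 0) :
    ph (G M u z0 0 z).im = u ^ M * ((z + z0) / (‖z + z0‖ : ℂ)) ^ M := by
  have hu0 : u ≠ 0 := by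
    intro h
    rw [h, norm_zero] at hu
    exact zero_ne_one hu
  unfold G
  rw [pow_zero, mul_one, Fch_phase M _ (mul_ne_zero hu0 hz), norm_mul, hu, one_mul, mul_div_assoc,
    mul_pow]

/-- the constants of the box lemma -/
def Kq (q : ℕ) : ℕ := q.factorial * 4 ^ (q + 1) * 2 ^ q + 5 ^ (q + 1) * 2 ^ q +
  4 * (q + 1).factorial * 4 ^ (q + 2) * 2 ^ q + 2 ^ (q + 2) * (q + 1) * 4 ^ (q + 2) * 5 ^ (q + 1)

theorem box63 (q s Z : ℕ) (hZ : Kq q ≤ Z) (M : ℕ) (hM1 : Z ^ (4 * (s + 1) * q + 2 * q + 6) ≤ M)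
    (hM2 : M ≤ Z ^ (4 * (s + 1) * q + 5 * s + 4)) (z0 c : ℂ) (hc1 : (Z : ℝ) ^ (5 * s + 5) ≤ ‖c‖)
    (hc2 : ‖c‖ ≤ 3 * (Z : ℝ) ^ (5 * s + 5)) (x0 x1 y0 y1 : ℤ)
    (hx : x1 ≤ x0 + ((Z ^ (5 * s + 3) : ℕ) : ℤ)) (hy : y1 ≤ y0 + ((Z ^ (5 * s + 3) : ℕ) : ℤ))
    (hR : ∀ w ∈ rect x0 x1 y0 y1, ‖zc w + z0 - c‖ < (Z : ℝ) ^ (5 * s + 5) / 2) :
    (‖∑ w ∈ rect x0 x1 y0 y1, ((zc w + z0) / (‖zc w + z0‖ : ℂ)) ^ M‖
      / ((Z : ℝ) ^ (5 * s + 3)) ^ 2) ^ (2 ^ q) ≤ Cw q / Z := by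
  have hf1n : 1 ≤ q.factorial := q.factorial_pos
  have hf2n : 1 ≤ (q + 1).factorial := (q + 1).factorial_pos
  have hK1 : q.factorial * 4 ^ (q + 1) * 2 ^ q ≤ Z := by unfold Kq at hZ; omega
  have hK2 : 5 ^ (q + 1) * 2 ^ q ≤ Z := by unfold Kq at hZ; omega
  have hK3 : 4 * (q + 1).factorial * 4 ^ (q + 2) * 2 ^ q ≤ Z := by unfold Kq at hZ; omega
  have hK4 : 2 ^ (q + 2) * (q + 1) * 4 ^ (q + 2) * 5 ^ (q + 1) ≤ Z := by unfold Kq at hZ; omega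
  have hZ2n : 2 ≤ Z := by
    refine le_trans ?_ hK2
    have h1 : 1 ≤ 2 ^ q := Nat.one_le_two_pow
    have h2 : 5 ≤ 5 ^ (q + 1) := by
      calc 5 = 5 ^ 1 := by norm_num
        _ ≤ 5 ^ (q + 1) := Nat.pow_le_pow_right (by norm_num) (by omega)
    exact le_trans (by norm_num : 2 ≤ 5 * 1) (Nat.mul_le_mul h2 h1)
  have hZ2 : (2 : ℝ) ≤ Z := by exact_mod_cast hZ2n
  have hZ1 : (1 : ℝ) ≤ Z := by linarith
  have hZ0 : (0 : ℝ) < Z := by linarith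
  have hZn1 : 1 ≤ Z := by omega
  set X : ℝ := (Z : ℝ) ^ (5 * s + 5) with hX
  have hXpos : 0 < X := by rw [hX]; positivity
  have hcne : c ≠ 0 := by
    intro h
    rw [h, norm_zero] at hc1
    linarith
  have hcpos : 0 < ‖c‖ := norm_pos_iff.2 hcne
  -- the rotation
  set u : ℂ := (starRingEnd ℂ) c / (‖c‖ : ℂ) with hu_def
  have hu : ‖u‖ = 1 := by
    rw [hu_def, norm_div, Complex.norm_conj, Complex.norm_real, norm_norm, div_self hcpos.ne']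
  have huc : u * c = (‖c‖ : ℂ) := by
    rw [hu_def, div_mul_eq_mul_div, mul_comm, Complex.mul_conj, Complex.normSq_eq_norm_sq]
    have h2 : (‖c‖ : ℂ) ≠ 0 := by exact_mod_cast hcpos.ne'
    push_cast
    rw [sq, mul_div_assoc, div_self h2, mul_one]
  -- the region
  set Om' : Set ℂ := Metric.ball (c - z0) (X / 2) with hOm'
  have hOmc : Convex ℝ Om' := convex_ball _ _
  have hmem : ∀ z ∈ Om', X / 4 < (u * (z + z0)).re ∧ X / 4 < ‖z + z0‖ ∧ ‖z + z0‖ < 5 * X := by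
    intro z hz
    rw [hOm', mem_ball_iff_norm] at hz
    have e1 : z - (c - z0) = (z + z0) - c := by ring
    rw [e1] at hz
    have h1 : u * (z + z0) = (‖c‖ : ℂ) + u * ((z + z0) - c) := by
      rw [mul_sub, huc]
      ring
    have h2 : ‖u * ((z + z0) - c)‖ < X / 2 := by rw [norm_mul, hu, one_mul]; exact hz
    have h3 : (u * (z + z0)).re = ‖c‖ + (u * ((z + z0) - c)).re := by
      rw [h1, Complex.add_re, Complex.ofReal_re]
    have h4 := (abs_le.1 (Complex.abs_re_le_norm (u * ((z + z0) - c)))).1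
    have h5 : X / 4 < (u * (z + z0)).re := by rw [h3]; linarith
    refine ⟨h5, ?_, ?_⟩
    · refine lt_of_lt_of_le h5 ((Complex.re_le_norm _).trans ?_)
      rw [norm_mul, hu, one_mul]
    · have h6 : ‖z + z0‖ ≤ ‖(z + z0) - c‖ + ‖c‖ := by
        have := norm_add_le ((z + z0) - c) c
        rwa [sub_add_cancel] at this
      linarith
  have hmemR : ∀ w ∈ rect x0 x1 y0 y1, zc w ∈ Om' := by
    intro w hw
    rw [hOm', mem_ball_iff_norm]
    have e1 : zc w - (c - z0) = (zc w + z0) - c := by ring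
    rw [e1]
    exact hR w hw
  have hsum : ∑ w ∈ rect x0 x1 y0 y1, ph (G M u z0 0 (zc w)).im
      = u ^ M * ∑ w ∈ rect x0 x1 y0 y1, ((zc w + z0) / (‖zc w + z0‖ : ℂ)) ^ M := by
    rw [Finset.mul_sum]
    apply Finset.sum_congr rfl
    intro w hw
    apply G_phase M u z0 hu
    intro h
    have h1 := (hmem _ (hmemR w hw)).2.1
    rw [h, norm_zero] at h1
    linarith
  have hnorm : ‖∑ w ∈ rect x0 x1 y0 y1, ((zc w + z0) / (‖zc w + z0‖ : ℂ)) ^ M‖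
      = ‖∑ w ∈ rect x0 x1 y0 y1, ph (G M u z0 0 (zc w)).im‖ := by
    rw [hsum, norm_mul, norm_pow, hu, one_pow, one_mul]
  rw [hnorm]
  -- the parameters
  set l : ℕ := Z ^ (4 * (s + 1) * q + q + 5 * s + 7) / M + 1 with hl
  have hMpos : 0 < M := lt_of_lt_of_le (by positivity) hM1
  have hMr : (0 : ℝ) < M := by exact_mod_cast hMpos
  have hM1r : (Z : ℝ) ^ (4 * (s + 1) * q + 2 * q + 6) ≤ M := by exact_mod_cast hM1
  have hM2r : (M : ℝ) ≤ (Z : ℝ) ^ (4 * (s + 1) * q + 5 * s + 4) := by exact_mod_cast hM2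
  have hlM : (Z : ℝ) ^ (4 * (s + 1) * q + q + 5 * s + 7) ≤ l * M := by
    have h1 := Nat.lt_div_mul_add (a := Z ^ (4 * (s + 1) * q + q + 5 * s + 7)) hMpos
    have h2 : Z ^ (4 * (s + 1) * q + q + 5 * s + 7) ≤ l * M := by
      rw [hl, add_mul, one_mul]
      exact h1.le
    exact_mod_cast h2
  have hlM2 : (l : ℝ) * M ≤ 2 * (Z : ℝ) ^ (4 * (s + 1) * q + q + 5 * s + 7) := by
    have h1 : Z ^ (4 * (s + 1) * q + q + 5 * s + 7) / M * M
        ≤ Z ^ (4 * (s + 1) * q + q + 5 * s + 7) := Nat.div_mul_le_self _ _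
    have h2 : M ≤ Z ^ (4 * (s + 1) * q + q + 5 * s + 7) :=
      le_trans hM2 (Nat.pow_le_pow_right hZn1 (by omega))
    have h3 : l * M ≤ 2 * Z ^ (4 * (s + 1) * q + q + 5 * s + 7) := by
      rw [hl, add_mul, one_mul, two_mul]
      exact Nat.add_le_add h1 h2
    exact_mod_cast h3
  have hlpos : 1 ≤ l := by rw [hl]; exact Nat.le_add_left 1 _
  have hlr : (1 : ℝ) ≤ l := by exact_mod_cast hlpos
  have hlq : (l : ℝ) * (Z : ℝ) ^ q ≤ 2 * (Z : ℝ) ^ (5 * s + 1) := by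
    have hp : (0 : ℝ) < (Z : ℝ) ^ (4 * (s + 1) * q + q + 6) := by positivity
    refine le_of_mul_le_mul_right ?_ hp
    calc (l : ℝ) * (Z : ℝ) ^ q * (Z : ℝ) ^ (4 * (s + 1) * q + q + 6)
        = l * (Z : ℝ) ^ (4 * (s + 1) * q + 2 * q + 6) := by ring
      _ ≤ l * M := mul_le_mul_of_nonneg_left hM1r (by linarith)
      _ ≤ 2 * (Z : ℝ) ^ (4 * (s + 1) * q + q + 5 * s + 7) := hlM2
      _ = 2 * (Z : ℝ) ^ (5 * s + 1) * (Z : ℝ) ^ (4 * (s + 1) * q + q + 6) := by ring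
  have hl2 : (l : ℝ) ≤ 2 * (Z : ℝ) ^ (5 * s + 1) := by
    have h1 : (1 : ℝ) ≤ (Z : ℝ) ^ q := one_le_pow₀ hZ1
    exact (le_mul_of_one_le_right (zero_le_one.trans hlr) h1).trans hlq
  have hlZ : l * Z ≤ Z ^ (5 * s + 3) := by
    have h1 : (l : ℝ) * Z ≤ (Z : ℝ) ^ (5 * s + 3) := by
      calc (l : ℝ) * Z ≤ 2 * (Z : ℝ) ^ (5 * s + 1) * Z := mul_le_mul_of_nonneg_right hl2 hZ0.le
        _ ≤ Z * (Z : ℝ) ^ (5 * s + 1) * Z := by
            apply mul_le_mul_of_nonneg_right _ hZ0.le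
            apply mul_le_mul_of_nonneg_right hZ2
            positivity
        _ = (Z : ℝ) ^ (5 * s + 3) := by ring
    exact_mod_cast h1
  have hZh : Z * Z ^ s ≤ Z ^ (5 * s + 3) := by
    calc Z * Z ^ s = Z ^ (s + 1) := by ring
      _ ≤ Z ^ (5 * s + 3) := Nat.pow_le_pow_right hZn1 (by omega)
  set lam : ℝ := (M : ℝ) * (q.factorial : ℝ) / (5 * X) ^ (q + 1) with hlam
  set Lam : ℝ := (M : ℝ) * (q.factorial : ℝ) / (X / 4) ^ (q + 1) with hLam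
  set mu : ℝ := (M : ℝ) * ((q + 1).factorial : ℝ) / (X / 4) ^ (q + 2) with hmu
  have hfq : (0 : ℝ) < (q.factorial : ℝ) := by exact_mod_cast q.factorial_pos
  have hfq1 : (0 : ℝ) < ((q + 1).factorial : ℝ) := by exact_mod_cast (q + 1).factorial_pos
  have hlampos : 0 < lam := by rw [hlam]; positivity
  have hmunn : 0 ≤ mu := by rw [hmu]; positivity
  have key := weyl_ind Z (Z ^ s) l (Z ^ (5 * s + 3)) hZn1 (Nat.one_le_pow _ _ hZn1) hlpos
    (Nat.one_le_pow _ _ hZn1) hlZ hZh q (G M u z0) Om' lam Lam mu x0 x1 y0 y1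
    hOmc hlampos hmunn ?_ ?_ ?_ ?_ hx hy hmemR ?_ ?_ ?_ ?_
  · have e : (((Z ^ (5 * s + 3) : ℕ) : ℝ)) = (Z : ℝ) ^ (5 * s + 3) := by push_cast; rfl
    rw [e] at key
    exact key
  · intro k z hz
    apply G_deriv
    exact lt_trans (by positivity) (hmem z hz).1
  · intro z hz
    obtain ⟨_, h1, h2⟩ := hmem z hz
    rw [G_norm M u z0 hu, hlam]
    apply div_le_div_of_nonneg_left (by positivity)
    · exact pow_pos (lt_trans (by positivity) h1) _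
    · exact pow_le_pow_left₀ (norm_nonneg _) h2.le _
  · intro z hz
    obtain ⟨_, h1, h2⟩ := hmem z hz
    rw [G_norm M u z0 hu, hLam]
    apply div_le_div_of_nonneg_left (by positivity) (by positivity)
    exact pow_le_pow_left₀ (by positivity) h1.le _
  · intro z hz
    obtain ⟨_, h1, h2⟩ := hmem z hz
    rw [G_norm M u z0 hu, hmu]
    apply div_le_div_of_nonneg_left (by positivity) (by positivity)
    exact pow_le_pow_left₀ (by positivity) h1.le _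
  · -- (a)
    have hA : (q.factorial : ℝ) * 4 ^ (q + 1) * 2 ^ q ≤ Z := by exact_mod_cast hK1
    have e1 : Lam * (2 * ((Z : ℝ) * ((Z ^ s : ℕ) : ℝ))) ^ q
        = (M : ℝ) * ((q.factorial : ℝ) * 4 ^ (q + 1) * 2 ^ q) * (Z : ℝ) ^ ((s + 1) * q)
          / X ^ (q + 1) := by
      rw [hLam]
      push_cast
      have e2 : (2 * ((Z : ℝ) * (Z : ℝ) ^ s)) ^ q = 2 ^ q * (Z : ℝ) ^ ((s + 1) * q) := by
        rw [mul_pow, pow_mul, pow_succ]
        ring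
      rw [div_pow, e2]
      field_simp
    rw [e1, div_le_one (by positivity)]
    calc (M : ℝ) * ((q.factorial : ℝ) * 4 ^ (q + 1) * 2 ^ q) * (Z : ℝ) ^ ((s + 1) * q)
        ≤ (Z : ℝ) ^ (4 * (s + 1) * q + 5 * s + 4) * Z * (Z : ℝ) ^ ((s + 1) * q) := by
          apply mul_le_mul_of_nonneg_right _ (by positivity)
          exact mul_le_mul hM2r hA (by positivity) (by positivity)
      _ = X ^ (q + 1) := by
          rw [hX, ← pow_succ, ← pow_add, ← pow_mul]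
          congr 1
          ring
  · -- (b)
    have hB : (5 : ℝ) ^ (q + 1) * 2 ^ q ≤ Z := by exact_mod_cast hK2
    have e1 : (l : ℝ) * lam * (((Z ^ s : ℕ) : ℝ) / 2) ^ q
        = (l * M) * (q.factorial : ℝ) * (Z : ℝ) ^ (s * q)
          / ((5 : ℝ) ^ (q + 1) * 2 ^ q * X ^ (q + 1)) := by
      rw [hlam]
      push_cast
      have e2 : ((Z : ℝ) ^ s) ^ q = (Z : ℝ) ^ (s * q) := (pow_mul _ _ _).symm
      rw [div_pow, mul_pow 5 X, e2]
      field_simp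
    rw [e1, le_div_iff₀ (by positivity)]
    have hf1 : (1 : ℝ) ≤ (q.factorial : ℝ) := by exact_mod_cast q.factorial_pos
    calc (Z : ℝ) * ((5 : ℝ) ^ (q + 1) * 2 ^ q * X ^ (q + 1))
        ≤ (Z : ℝ) * (Z * X ^ (q + 1)) := by
          apply mul_le_mul_of_nonneg_left _ hZ0.le
          exact mul_le_mul_of_nonneg_right hB (by positivity)
      _ = (Z : ℝ) ^ (4 * (s + 1) * q + q + 5 * s + 7) * 1 * (Z : ℝ) ^ (s * q) := by
          rw [hX, mul_one, ← pow_mul, ← pow_succ', ← pow_succ', ← pow_add]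
          congr 1
          ring
      _ ≤ (l * M) * (q.factorial : ℝ) * (Z : ℝ) ^ (s * q) := by
          apply mul_le_mul_of_nonneg_right _ (by positivity)
          exact mul_le_mul hlM hf1 (by norm_num) (by positivity)
  · -- (c)
    have hC : 4 * ((q + 1).factorial : ℝ) * 4 ^ (q + 2) * 2 ^ q ≤ Z := by exact_mod_cast hK3
    have e1 : mu * (2 * ((Z : ℝ) * ((Z ^ s : ℕ) : ℝ))) ^ q * (l : ℝ) ^ 2 * Z
        = (l * M) * (l * (Z : ℝ) ^ q) * (((q + 1).factorial : ℝ) * 4 ^ (q + 2) * 2 ^ q)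
          * (Z : ℝ) ^ ((s + 1) * q + 1) / (X ^ (q + 2) * (Z : ℝ) ^ q) := by
      rw [hmu]
      push_cast
      have e2 : (2 * ((Z : ℝ) * (Z : ℝ) ^ s)) ^ q = 2 ^ q * (Z : ℝ) ^ ((s + 1) * q) := by
        rw [mul_pow, pow_mul, pow_succ]
        ring
      rw [div_pow, e2, pow_succ (Z : ℝ) ((s + 1) * q)]
      field_simp
    rw [e1, div_le_one (by positivity)]
    calc (l * M) * (l * (Z : ℝ) ^ q) * (((q + 1).factorial : ℝ) * 4 ^ (q + 2) * 2 ^ q)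
          * (Z : ℝ) ^ ((s + 1) * q + 1)
        ≤ (2 * (Z : ℝ) ^ (4 * (s + 1) * q + q + 5 * s + 7)) * (2 * (Z : ℝ) ^ (5 * s + 1))
          * (((q + 1).factorial : ℝ) * 4 ^ (q + 2) * 2 ^ q) * (Z : ℝ) ^ ((s + 1) * q + 1) := by
          apply mul_le_mul_of_nonneg_right _ (by positivity)
          apply mul_le_mul_of_nonneg_right _ (by positivity)
          exact mul_le_mul hlM2 hlq (by positivity) (by positivity)
      _ = (4 * ((q + 1).factorial : ℝ) * 4 ^ (q + 2) * 2 ^ q)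
          * (Z : ℝ) ^ (5 * (s + 1) * q + q + 10 * s + 9) := by
          have e3 : (Z : ℝ) ^ (5 * (s + 1) * q + q + 10 * s + 9)
              = (Z : ℝ) ^ (4 * (s + 1) * q + q + 5 * s + 7) * (Z : ℝ) ^ (5 * s + 1)
                * (Z : ℝ) ^ ((s + 1) * q + 1) := by
            rw [← pow_add, ← pow_add]
            congr 1
            ring
          rw [e3]
          ring
      _ ≤ Z * (Z : ℝ) ^ (5 * (s + 1) * q + q + 10 * s + 9) :=
          mul_le_mul_of_nonneg_right hC (by positivity)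
      _ = X ^ (q + 2) * (Z : ℝ) ^ q := by
          rw [hX, ← pow_mul, ← pow_add, ← pow_succ']
          congr 1
          ring
  · -- (e)
    have hE : (2 : ℝ) ^ (q + 2) * (q + 1) * 4 ^ (q + 2) * 5 ^ (q + 1) ≤ Z := by
      exact_mod_cast hK4
    have e1 : 2 ^ (q + 2) * ((Z : ℝ) * ((Z ^ s : ℕ) : ℝ)) * mu
        = ((2 : ℝ) ^ (q + 2) * (q + 1) * 4 ^ (q + 2) * 5 ^ (q + 1)) * (Z * (Z : ℝ) ^ s)
          * (1 / X) * lam := by
      rw [hmu, hlam, Nat.factorial_succ]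
      push_cast
      rw [div_pow, mul_pow 5 X]
      field_simp
      ring
    rw [e1]
    have h2 : ((2 : ℝ) ^ (q + 2) * (q + 1) * 4 ^ (q + 2) * 5 ^ (q + 1)) * (Z * (Z : ℝ) ^ s)
        * (1 / X) ≤ 1 := by
      rw [mul_one_div, div_le_one hXpos, hX]
      calc ((2 : ℝ) ^ (q + 2) * (q + 1) * 4 ^ (q + 2) * 5 ^ (q + 1)) * (Z * (Z : ℝ) ^ s)
          ≤ Z * (Z * (Z : ℝ) ^ s) := mul_le_mul_of_nonneg_right hE (by positivity)
        _ = (Z : ℝ) ^ (s + 2) := by ring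
        _ ≤ (Z : ℝ) ^ (5 * s + 5) := pow_le_pow_right₀ hZ1 (by omega)
    calc _ ≤ 1 * lam := mul_le_mul_of_nonneg_right h2 hlampos.le
      _ = lam := one_mul _

/-- the choice of the order -/
theorem choose_q (s Z M : ℕ) (hZ : 1 ≤ Z) (hM : Z ^ 6 ≤ M) : ∀ Q : ℕ, 2 * Q + 8 ≤ s →
    M ≤ Z ^ (4 * (s + 1) * Q + 5 * s + 4) →
    ∃ q ≤ Q, Z ^ (4 * (s + 1) * q + 2 * q + 6) ≤ M ∧ M ≤ Z ^ (4 * (s + 1) * q + 5 * s + 4) := by
  intro Q
  induction Q with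
  | zero =>
    intro _ h
    exact ⟨0, le_refl _, by simpa using hM, h⟩
  | succ Q ih =>
    intro hs h
    rcases le_or_gt M (Z ^ (4 * (s + 1) * Q + 5 * s + 4)) with h1 | h1
    · obtain ⟨q, hq, h2⟩ := ih (by omega) h1
      exact ⟨q, by omega, h2⟩
    · refine ⟨Q + 1, le_refl _, le_trans (Nat.pow_le_pow_right hZ ?_) h1.le, h⟩
      have : 4 * (s + 1) * (Q + 1) = 4 * (s + 1) * Q + 4 * s + 4 := by ring
      rw [this]
      omega

/-- the constant for all orders up to `Q` -/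
def KQ (Q : ℕ) : ℕ := ∑ q ∈ range (Q + 1), Kq q

theorem Kq_le_KQ {q Q : ℕ} (h : q ≤ Q) : Kq q ≤ KQ Q :=
  Finset.single_le_sum (f := Kq) (fun _ _ => Nat.zero_le _) (by simpa using Nat.lt_succ_of_le h)

theorem term_norm_le (z : ℂ) (M : ℕ) : ‖(z / (‖z‖ : ℂ)) ^ M‖ ≤ 1 := by
  rw [norm_pow, norm_div, Complex.norm_real, norm_norm]
  apply pow_le_one₀ (div_nonneg (norm_nonneg _) (norm_nonneg _))
  exact div_self_le_one _

/-- the box bound, uniform in the order -/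
theorem boxU (Q s Z : ℕ) (hs : 2 * Q + 8 ≤ s) (hZ : KQ Q ≤ Z) (hZ1 : 1 ≤ Z) (M : ℕ)
    (hM1 : Z ^ 6 ≤ M)
    (hM2 : M ≤ Z ^ (4 * (s + 1) * Q + 5 * s + 4)) (z0 c : ℂ)
    (hc1 : (Z : ℝ) ^ (5 * s + 5) ≤ ‖c‖)
    (hc2 : ‖c‖ ≤ 3 * (Z : ℝ) ^ (5 * s + 5)) (x0 x1 y0 y1 : ℤ)
    (hx : x1 ≤ x0 + ((Z ^ (5 * s + 3) : ℕ) : ℤ)) (hy : y1 ≤ y0 + ((Z ^ (5 * s + 3) : ℕ) : ℤ))
    (hR : ∀ w ∈ rect x0 x1 y0 y1, ‖zc w + z0 - c‖ < (Z : ℝ) ^ (5 * s + 5) / 2) :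
    ‖∑ w ∈ rect x0 x1 y0 y1, ((zc w + z0) / (‖zc w + z0‖ : ℂ)) ^ M‖
      ≤ ((Z : ℝ) ^ (5 * s + 3)) ^ 2 * (Cw Q / Z) ^ ((1 : ℝ) / 2 ^ Q) := by
  have hZr : (1 : ℝ) ≤ Z := by exact_mod_cast hZ1
  have hZ0 : (0 : ℝ) < Z := by linarith
  obtain ⟨q, hq, hq1, hq2⟩ := choose_q s Z M hZ1 hM1 Q hs hM2
  have h := box63 q s Z (le_trans (Kq_le_KQ hq) hZ) M hq1 hq2 z0 c hc1 hc2 x0 x1 y0 y1 hx hy hR
  set T : ℝ := ‖∑ w ∈ rect x0 x1 y0 y1, ((zc w + z0) / (‖zc w + z0‖ : ℂ)) ^ M‖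
    / ((Z : ℝ) ^ (5 * s + 3)) ^ 2 with hT
  have hL : (0 : ℝ) < ((Z : ℝ) ^ (5 * s + 3)) ^ 2 := by positivity
  have hT0 : 0 ≤ T := by rw [hT]; positivity
  have hT1 : T ≤ 1 := by
    rw [hT, div_le_one hL]
    refine (norm_sum_le _ _).trans ?_
    refine (Finset.sum_le_sum (fun w _ => term_norm_le (zc w + z0) M)).trans ?_
    rw [Finset.sum_const, nsmul_eq_mul, mul_one]
    have h := card_rect_le (l0 := Z ^ (5 * s + 3)) hx hy
    exact_mod_cast h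
  have hTQ : T ^ (2 ^ Q) ≤ Cw Q / Z := by
    have e1 : T ^ (2 ^ Q) ≤ T ^ (2 ^ q) :=
      pow_le_pow_of_le_one hT0 hT1 (Nat.pow_le_pow_right (by norm_num) hq)
    have e2 : Cw q / Z ≤ Cw Q / Z := div_le_div_of_nonneg_right (Cw_mono hq) hZ0.le
    linarith
  have hT2 : T ≤ (Cw Q / Z) ^ ((1 : ℝ) / 2 ^ Q) := by
    have h3 := Real.rpow_le_rpow (pow_nonneg hT0 _) hTQ
      (show (0 : ℝ) ≤ (1 : ℝ) / 2 ^ Q by positivity)
    have h4 : (T ^ (2 ^ Q)) ^ ((1 : ℝ) / 2 ^ Q) = T := by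
      rw [← Real.rpow_natCast T (2 ^ Q), ← Real.rpow_mul hT0]
      push_cast
      rw [mul_one_div, div_self (by positivity), Real.rpow_one]
    rwa [h4] at h3
  have h5 : ‖∑ w ∈ rect x0 x1 y0 y1, ((zc w + z0) / (‖zc w + z0‖ : ℂ)) ^ M‖
      = ((Z : ℝ) ^ (5 * s + 3)) ^ 2 * T := by
    rw [hT, mul_div_assoc']
    field_simp
  rw [h5]
  exact mul_le_mul_of_nonneg_left hT2 hL.le

end VC63

end Pool.Agent.Lib.MP_a17b09_nt.MR
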