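import Pool.Agent.Lib.MP_a17b09_nt.MR.VCb63
import Pool.Agent.Lib.MP_a17b09_nt.MR.VCa63

/-!
Module VC, part c: grid decomposition of an annulus and the bound for large frequencies.
-/

set_option autoImplicit false

open Finset

namespace Pool.Agent.Lib.MP_a17b09_nt.MR

open Pool.Agent.Lib.MP_a17b09_nt.LP

namespace VC63

/-- the term -/
noncomputable def ft (M : ℕ) (z0 : ℂ) (w : ℤ × ℤ) : ℂ := ((zc w + z0) / (‖zc w + z0‖ : ℂ)) ^ M

theorem ft_le (M : ℕ) (z0 : ℂ) (w : ℤ × ℤ) : ‖ft M z0 w‖ ≤ 1 := term_norm_le _ _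

theorem ediv_iff (L x k : ℤ) (hL : 0 < L) : x / L = k ↔ k * L ≤ x ∧ x < k * L + L := by
  constructor
  · rintro rfl
    refine ⟨Int.ediv_mul_le x hL.ne', ?_⟩
    have := Int.lt_ediv_add_one_mul_self x hL
    rwa [add_mul, one_mul] at this
  · rintro ⟨h1, h2⟩
    have h := (Int.ediv_emod_unique (a := x) (r := x - k * L) (q := k) hL).2
      ⟨by ring, by linarith, by linarith⟩
    exact h.1

/-- the box with a given index -/
noncomputable def bx (l : ℕ) (k : ℤ × ℤ) : Finset (ℤ × ℤ) :=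
  rect (k.1 * l) (k.1 * l + l) (k.2 * l) (k.2 * l + l)

/-- the index of a point -/
def ka (l : ℕ) (w : ℤ × ℤ) : ℤ × ℤ := (w.1 / l, w.2 / l)

theorem mem_bx {l : ℕ} (hl : 0 < l) (k w : ℤ × ℤ) : w ∈ bx l k ↔ ka l w = k := by
  have hL : (0 : ℤ) < l := by exact_mod_cast hl
  unfold bx ka
  rw [mem_rect, Prod.ext_iff]
  simp only
  rw [ediv_iff _ _ _ hL, ediv_iff _ _ _ hL]

theorem card_bx (l : ℕ) (k : ℤ × ℤ) : (bx l k).card = l ^ 2 := by
  unfold bx rect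
  rw [Finset.card_product, Int.card_Ico, Int.card_Ico, add_sub_cancel_left, add_sub_cancel_left,
    Int.toNat_natCast, sq]

/-- the grid decomposition -/
theorem grid (W : Finset (ℤ × ℤ)) (f : ℤ × ℤ → ℂ) (hf : ∀ w, ‖f w‖ ≤ 1) (l : ℕ) (hl : 0 < l)
    (δ : ℝ) (hδ0 : 0 ≤ δ) (hδ : ∀ k, bx l k ⊆ W → ‖∑ w ∈ bx l k, f w‖ ≤ (l : ℝ) ^ 2 * δ) :
    ‖∑ w ∈ W, f w‖ ≤ W.card * δ + ((W.filter (fun w => ¬ bx l (ka l w) ⊆ W)).card : ℝ) := by
  classical
  set Wg := W.filter (fun w => bx l (ka l w) ⊆ W) with hWg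
  have hfib : ∀ k ∈ Wg.image (ka l), Wg.filter (fun w => ka l w = k) = bx l k := by
    intro k hk
    obtain ⟨w0, hw0, rfl⟩ := Finset.mem_image.1 hk
    rw [hWg, Finset.mem_filter] at hw0
    ext w
    rw [Finset.mem_filter, mem_bx hl, hWg, Finset.mem_filter]
    constructor
    · rintro ⟨_, h⟩
      exact h
    · intro h
      refine ⟨⟨?_, ?_⟩, h⟩
      · apply hw0.2
        rw [mem_bx hl]
        exact h
      · rw [h]
        exact hw0.2
  have hg : ‖∑ w ∈ Wg, f w‖ ≤ W.card * δ := by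
    have e1 : ∑ w ∈ Wg, f w = ∑ k ∈ Wg.image (ka l), ∑ w ∈ bx l k, f w := by
      rw [← Finset.sum_fiberwise_of_maps_to (s := Wg) (t := Wg.image (ka l)) (g := ka l)
        (fun w hw => Finset.mem_image_of_mem _ hw)]
      apply Finset.sum_congr rfl
      intro k hk
      rw [hfib k hk]
    have e2 : (Wg.card : ℝ) = ((Wg.image (ka l)).card : ℝ) * (l : ℝ) ^ 2 := by
      rw [Finset.card_eq_sum_card_image (ka l) Wg]
      have : ∀ k ∈ Wg.image (ka l), (Wg.filter (fun w => ka l w = k)).card = l ^ 2 := by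
        intro k hk
        rw [hfib k hk, card_bx]
      rw [Finset.sum_congr rfl this, Finset.sum_const, smul_eq_mul]
      push_cast
      ring
    rw [e1]
    refine (norm_sum_le _ _).trans ?_
    have e3 : ∀ k ∈ Wg.image (ka l), ‖∑ w ∈ bx l k, f w‖ ≤ (l : ℝ) ^ 2 * δ := by
      intro k hk
      apply hδ
      obtain ⟨w0, hw0, rfl⟩ := Finset.mem_image.1 hk
      rw [hWg, Finset.mem_filter] at hw0
      exact hw0.2
    refine (Finset.sum_le_sum e3).trans ?_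
    rw [Finset.sum_const, nsmul_eq_mul, ← mul_assoc, ← e2]
    apply mul_le_mul_of_nonneg_right _ hδ0
    exact_mod_cast Finset.card_le_card (Finset.filter_subset _ _)
  have hb : ‖∑ w ∈ W.filter (fun w => ¬ bx l (ka l w) ⊆ W), f w‖
      ≤ ((W.filter (fun w => ¬ bx l (ka l w) ⊆ W)).card : ℝ) := by
    refine (norm_sum_le _ _).trans ?_
    refine (Finset.sum_le_sum (fun w _ => hf w)).trans ?_
    rw [Finset.sum_const, nsmul_eq_mul, mul_one]
  rw [← Finset.sum_filter_add_sum_filter_not W (fun w => bx l (ka l w) ⊆ W)]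
  exact (norm_add_le _ _).trans (add_le_add hg hb)

/-- thin shells -/
theorem card_thin {X t A : ℝ} (ht1 : 1 ≤ t) (ht : 4 * t ≤ X) (hA1 : X ^ 2 ≤ A)
    (hA2 : A ≤ 9 * X ^ 2) (z0 : ℂ) (T : Finset (ℤ × ℤ))
    (h : ∀ w ∈ T, |‖zc w + z0‖ - √A| ≤ 2 * t) : (T.card : ℝ) ≤ 544 * X * t := by
  have hX : 0 < X := by linarith
  have hs1 : X ≤ √A := Real.le_sqrt_of_sq_le hA1
  have hs2 : √A ≤ 3 * X := by
    apply Real.sqrt_le_iff.2
    exact ⟨by linarith, by nlinarith⟩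
  have hp : 0 < √A - 2 * t := by linarith
  have h1 := card_shell (A := (√A - 2 * t) ^ 2) (B := (√A + 2 * t) ^ 2) (by positivity)
    (by nlinarith) z0 T (by
      intro w hw
      have h2 := abs_le.1 (h w hw)
      rw [N2_eq]
      exact ⟨pow_le_pow_left₀ hp.le (by linarith) 2,
        pow_le_pow_left₀ (norm_nonneg _) (by linarith) 2⟩)
  refine h1.trans ?_
  rw [Real.sqrt_sq (by linarith), Real.sqrt_sq hp.le]
  have h3 : ((√A + 2 * t) ^ 2 - (√A - 2 * t) ^ 2) / (√A - 2 * t) ≤ 16 * t := by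
    rw [div_le_iff₀ hp]
    nlinarith
  have h4 : 2 * (√A + 2 * t) + 1 ≤ 8 * X := by linarith
  have h5 : ((√A + 2 * t) ^ 2 - (√A - 2 * t) ^ 2) / (√A - 2 * t) + 1 ≤ 17 * t := by linarith
  have h6 : (2 * (√A + 2 * t) + 1) *
      (((√A + 2 * t) ^ 2 - (√A - 2 * t) ^ 2) / (√A - 2 * t) + 1) ≤ (8 * X) * (17 * t) := by
    apply mul_le_mul h4 h5 _ (by linarith)
    have : 0 ≤ ((√A + 2 * t) ^ 2 - (√A - 2 * t) ^ 2) / (√A - 2 * t) :=
      div_nonneg (by nlinarith) hp.le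
    linarith
  linarith

/-- the annulus -/
theorem card_ann {X A B : ℝ} (hX1 : 1 ≤ X) (hA1 : X ^ 2 ≤ A) (hAB : A ≤ B)
    (hB : B ≤ 9 * X ^ 2) (z0 : ℂ) (T : Finset (ℤ × ℤ))
    (h : ∀ w ∈ T, A ≤ N2 z0 w ∧ N2 z0 w ≤ B) : (T.card : ℝ) ≤ 252 * X ^ 2 := by
  have hX : 0 < X := by linarith
  have hs1 : X ≤ √A := Real.le_sqrt_of_sq_le hA1
  have hs2 : √B ≤ 3 * X := by
    apply Real.sqrt_le_iff.2
    exact ⟨by linarith, by nlinarith⟩
  have hp : 0 < √A := by linarith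
  have h1 := card_shell (A := A) (B := B) (by nlinarith) hAB z0 T h
  refine h1.trans ?_
  have h3 : (B - A) / √A ≤ 8 * X := by
    rw [div_le_iff₀ hp]
    nlinarith
  have h4 : 2 * √B + 1 ≤ 7 * X := by linarith
  have h5 : (B - A) / √A + 1 ≤ 9 * X := by linarith
  have h6 : (2 * √B + 1) * ((B - A) / √A + 1) ≤ (7 * X) * (9 * X) := by
    apply mul_le_mul h4 h5 _ (by linarith)
    have : 0 ≤ (B - A) / √A := div_nonneg (by linarith) hp.le
    linarith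
  nlinarith

/-- large frequencies -/
theorem bigM (Q s Z : ℕ) (hs : 2 * Q + 8 ≤ s) (hZ : KQ Q ≤ Z) (hZ3 : 3 ≤ Z) (M : ℕ)
    (hM1 : Z ^ 6 ≤ M) (hM2 : M ≤ Z ^ (4 * (s + 1) * Q + 5 * s + 4)) (z0 : ℂ) (A B : ℝ)
    (hA : ((Z : ℝ) ^ (5 * s + 5)) ^ 2 ≤ A) (hAB : A ≤ B)
    (hB : B ≤ 9 * ((Z : ℝ) ^ (5 * s + 5)) ^ 2)
    (W : Finset (ℤ × ℤ)) (hW : ∀ w, w ∈ W ↔ A < N2 z0 w ∧ N2 z0 w ≤ B) :
    ‖∑ w ∈ W, ft M z0 w‖ ≤ 252 * ((Z : ℝ) ^ (5 * s + 5)) ^ 2 * (Cw Q / Z) ^ ((1 : ℝ) / 2 ^ Q)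
      + 1088 * (Z : ℝ) ^ (5 * s + 5) * (Z : ℝ) ^ (5 * s + 3) := by
  classical
  have hZr : (3 : ℝ) ≤ Z := by exact_mod_cast hZ3
  have hZ1 : (1 : ℝ) ≤ Z := by linarith
  have hZ0 : (0 : ℝ) < Z := by linarith
  set X : ℝ := (Z : ℝ) ^ (5 * s + 5) with hX
  set l : ℕ := Z ^ (5 * s + 3) with hl
  have hlr : (l : ℝ) = (Z : ℝ) ^ (5 * s + 3) := by rw [hl]; push_cast; rfl
  have hlpos : 0 < l := by rw [hl]; positivity
  have hl1 : (1 : ℝ) ≤ l := by exact_mod_cast hlpos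
  have hXl : X = (Z : ℝ) ^ 2 * l := by rw [hX, hlr]; ring
  have hX8 : 8 * (l : ℝ) ≤ X := by
    rw [hXl]
    apply mul_le_mul_of_nonneg_right _ (by linarith)
    nlinarith
  have hX4 : 4 * (l : ℝ) ≤ X := by linarith
  have hXpos : 0 < X := by rw [hX]; positivity
  have hX1 : 1 ≤ X := by rw [hX]; exact one_le_pow₀ hZ1
  have hδ0 : 0 ≤ (Cw Q / Z) ^ ((1 : ℝ) / 2 ^ Q) :=
    Real.rpow_nonneg (div_nonneg (Cw_pos Q).le hZ0.le) _
  have hdist : ∀ k w w' : ℤ × ℤ, w ∈ bx l k → w' ∈ bx l k → ‖zc w - zc w'‖ ≤ 2 * l := by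
    intro k w w' hw hw'
    unfold bx at hw hw'
    rw [mem_rect] at hw hw'
    refine (Complex.norm_le_abs_re_add_abs_im _).trans ?_
    rw [Complex.sub_re, Complex.sub_im, zc_re, zc_re, zc_im, zc_im]
    have a1 : ((k.1 * l : ℤ) : ℝ) ≤ w.1 := by exact_mod_cast hw.1.1
    have a2 : (w.1 : ℝ) ≤ ((k.1 * l + l : ℤ) : ℝ) := by exact_mod_cast hw.1.2.le
    have a3 : ((k.2 * l : ℤ) : ℝ) ≤ w.2 := by exact_mod_cast hw.2.1
    have a4 : (w.2 : ℝ) ≤ ((k.2 * l + l : ℤ) : ℝ) := by exact_mod_cast hw.2.2.le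
    have b1 : ((k.1 * l : ℤ) : ℝ) ≤ w'.1 := by exact_mod_cast hw'.1.1
    have b2 : (w'.1 : ℝ) ≤ ((k.1 * l + l : ℤ) : ℝ) := by exact_mod_cast hw'.1.2.le
    have b3 : ((k.2 * l : ℤ) : ℝ) ≤ w'.2 := by exact_mod_cast hw'.2.1
    have b4 : (w'.2 : ℝ) ≤ ((k.2 * l + l : ℤ) : ℝ) := by exact_mod_cast hw'.2.2.le
    push_cast at a1 a2 a3 a4 b1 b2 b3 b4
    have c1 : |(w.1 : ℝ) - w'.1| ≤ l := by
      rw [abs_le]
      constructor <;> linarith
    have c2 : |(w.2 : ℝ) - w'.2| ≤ l := by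
      rw [abs_le]
      constructor <;> linarith
    linarith
  have hg := grid W (ft M z0) (ft_le M z0) l hlpos _ hδ0 (by
    intro k hk
    have hkm : (k.1 * l, k.2 * l) ∈ bx l k := by
      unfold bx
      rw [mem_rect]
      have : (0 : ℤ) < l := by exact_mod_cast hlpos
      simp only
      constructor
      · constructor <;> linarith
      · constructor <;> linarith
    have hw := (hW _).1 (hk hkm)
    rw [N2_eq] at hw
    set c : ℂ := zc (k.1 * l, k.2 * l) + z0 with hc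
    have hc1 : X ≤ ‖c‖ := by
      apply (pow_le_pow_iff_left₀ hXpos.le (norm_nonneg _) two_ne_zero).1
      linarith [hw.1]
    have hc2 : ‖c‖ ≤ 3 * X := by
      apply (pow_le_pow_iff_left₀ (norm_nonneg _) (by linarith) two_ne_zero).1
      nlinarith [hw.2]
    have h := boxU Q s Z hs hZ (by omega) M hM1 hM2 z0 c hc1 hc2 (k.1 * l) (k.1 * l + l)
      (k.2 * l) (k.2 * l + l) (le_refl _) (le_refl _) (by
        intro w hw'
        have e1 : zc w + z0 - c = zc w - zc (k.1 * l, k.2 * l) := by rw [hc]; ring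
        rw [e1]
        refine lt_of_le_of_lt (hdist k w _ hw' hkm) ?_
        rw [← hX]
        linarith)
    rw [← hlr] at h
    exact h)
  refine hg.trans ?_
  apply add_le_add
  · apply mul_le_mul_of_nonneg_right _ hδ0
    exact card_ann hX1 hA hAB hB z0 W (fun w hw => ⟨((hW w).1 hw).1.le, ((hW w).1 hw).2⟩)
  · set bad := W.filter (fun w => ¬ bx l (ka l w) ⊆ W) with hbad
    have hcov : bad ⊆ bad.filter (fun w => |‖zc w + z0‖ - √A| ≤ 2 * l)
        ∪ bad.filter (fun w => |‖zc w + z0‖ - √B| ≤ 2 * l) := by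
      intro w hw
      have hw0 := hw
      rw [hbad, Finset.mem_filter] at hw
      obtain ⟨hwW, hns⟩ := hw
      obtain ⟨w', hw', hnW⟩ := Finset.not_subset.1 hns
      have hwk : w ∈ bx l (ka l w) := (mem_bx hlpos _ _).2 rfl
      have hd := hdist _ w w' hwk hw'
      have hd2 : |‖zc w + z0‖ - ‖zc w' + z0‖| ≤ 2 * l := by
        refine (abs_norm_sub_norm_le _ _).trans ?_
        have e1 : zc w + z0 - (zc w' + z0) = zc w - zc w' := by ring
        rw [e1]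
        exact hd
      obtain ⟨g1, g2⟩ := (hW w).1 hwW
      rw [N2_eq] at g1 g2
      have g3 : √A ≤ ‖zc w + z0‖ := Real.sqrt_le_iff.2 ⟨norm_nonneg _, g1.le⟩
      have g4 : ‖zc w + z0‖ ≤ √B := Real.le_sqrt_of_sq_le g2
      have hd3 := abs_le.1 hd2
      rw [Finset.mem_union]
      rw [hW, N2_eq] at hnW
      rcases le_or_gt (‖zc w' + z0‖ ^ 2) A with h1 | h1
      · left
        refine Finset.mem_filter.2 ⟨hw0, ?_⟩
        have h2 : ‖zc w' + z0‖ ≤ √A := Real.le_sqrt_of_sq_le h1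
        rw [abs_le]
        constructor <;> linarith
      · right
        refine Finset.mem_filter.2 ⟨hw0, ?_⟩
        have h2 : B < ‖zc w' + z0‖ ^ 2 := by
          by_contra h3
          exact hnW ⟨h1, not_lt.1 h3⟩
        have h3 : √B ≤ ‖zc w' + z0‖ := Real.sqrt_le_iff.2 ⟨norm_nonneg _, h2.le⟩
        rw [abs_le]
        constructor <;> linarith
    have c1 := card_thin hl1 hX4 hA (hAB.trans hB) z0
      (bad.filter (fun w => |‖zc w + z0‖ - √A| ≤ 2 * l)) (fun w hw => (Finset.mem_filter.1 hw).2)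
    have c2 := card_thin hl1 hX4 (hA.trans hAB) hB z0
      (bad.filter (fun w => |‖zc w + z0‖ - √B| ≤ 2 * l)) (fun w hw => (Finset.mem_filter.1 hw).2)
    have c3 : (bad.card : ℝ) ≤ ((bad.filter (fun w => |‖zc w + z0‖ - √A| ≤ 2 * l)).card : ℝ)
        + ((bad.filter (fun w => |‖zc w + z0‖ - √B| ≤ 2 * l)).card : ℝ) := by
      have := (Finset.card_le_card hcov).trans (Finset.card_union_le _ _)
      exact_mod_cast this
    rw [← hlr]
    linarith

end VC63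

end Pool.Agent.Lib.MP_a17b09_nt.MR
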