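import Pool.Agent.Lib.MP_a17b09_nt.MR.VCc63

/-!
Module VC, part d: small frequencies, by comparison with an integral which vanishes by rotation.
-/

set_option autoImplicit false

open Finset MeasureTheory

namespace Pool.Agent.Lib.MP_a17b09_nt.MR

open Pool.Agent.Lib.MP_a17b09_nt.LP

namespace VC63

/-- the function on the plane -/
noncomputable def fu (M : ℕ) (u : ℂ) : ℂ := (u / (‖u‖ : ℂ)) ^ M

theorem fu_meas (M : ℕ) : Measurable (fu M) := by
  unfold fu
  exact (measurable_id.div (Complex.measurable_ofReal.comp measurable_norm)).pow_const M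

theorem fu_le (M : ℕ) (u : ℂ) : ‖fu M u‖ ≤ 1 := term_norm_le u M

/-- the annulus in the plane -/
def Ann (A B : ℝ) : Set ℂ := {u | A < ‖u‖ ^ 2 ∧ ‖u‖ ^ 2 ≤ B}

theorem ann_meas (A B : ℝ) : MeasurableSet (Ann A B) := by
  unfold Ann
  have h : Measurable (fun u : ℂ => ‖u‖ ^ 2) := measurable_norm.pow_const 2
  exact (measurableSet_lt measurable_const h).inter (measurableSet_le h measurable_const)

theorem int_zero (M : ℕ) (hM : 0 < M) (A B : ℝ) : ∫ u in Ann A B, fu M u = 0 := by
  set c : Circle := Circle.exp (Real.pi / M) with hc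
  have hMr : (M : ℂ) ≠ 0 := by exact_mod_cast hM.ne'
  have hcM : (c : ℂ) ^ M = -1 := by
    rw [hc, Circle.coe_exp, ← Complex.exp_nat_mul]
    have e : (M : ℂ) * (((Real.pi / M : ℝ) : ℂ) * Complex.I) = (Real.pi : ℂ) * Complex.I := by
      push_cast
      field_simp
    rw [e, Complex.exp_pi_mul_I]
  have hmp : MeasurePreserving (rotation c) volume volume :=
    LinearIsometryEquiv.measurePreserving (rotation c)
  have hemb : MeasurableEmbedding (rotation c) :=
    (rotation c).toHomeomorph.measurableEmbedding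
  have h := hmp.setIntegral_preimage_emb hemb (fu M) (Ann A B)
  have hpre : (rotation c) ⁻¹' (Ann A B) = Ann A B := by
    ext u
    simp only [Ann, Set.mem_preimage, Set.mem_ofPred_eq, LinearIsometryEquiv.norm_map]
  have hf : ∀ u : ℂ, fu M ((rotation c) u) = - fu M u := by
    intro u
    unfold fu
    rw [LinearIsometryEquiv.norm_map, rotation_apply, mul_div_assoc, mul_pow, hcM]
    ring
  rw [hpre] at h
  simp only [hf] at h
  rw [integral_neg] at h
  have h2 : (2 : ℂ) * ∫ u in Ann A B, fu M u = 0 := by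
    linear_combination (-1 : ℂ) * h
  rcases mul_eq_zero.1 h2 with h3 | h3
  · exact absurd h3 two_ne_zero
  · exact h3

/-- the unit square at a lattice point -/
def Sq (z0 : ℂ) (w : ℤ × ℤ) : Set ℂ :=
  {u | (w.1 + z0.re ≤ u.re ∧ u.re < w.1 + z0.re + 1) ∧
    (w.2 + z0.im ≤ u.im ∧ u.im < w.2 + z0.im + 1)}

theorem sq_meas (z0 : ℂ) (w : ℤ × ℤ) : MeasurableSet (Sq z0 w) := by
  unfold Sq
  refine MeasurableSet.inter ?_ ?_
  · exact (measurableSet_le measurable_const Complex.measurable_re).inter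
      (measurableSet_lt Complex.measurable_re measurable_const)
  · exact (measurableSet_le measurable_const Complex.measurable_im).inter
      (measurableSet_lt Complex.measurable_im measurable_const)

theorem sq_vol (z0 : ℂ) (w : ℤ × ℤ) : volume (Sq z0 w) = 1 := by
  rw [← (Complex.volume_preserving_equiv_real_prod.symm).measure_preimage
    (sq_meas z0 w).nullMeasurableSet]
  have e : (Complex.measurableEquivRealProd.symm ⁻¹' (Sq z0 w) : Set (ℝ × ℝ)) =
      Set.Ico ((w.1 : ℝ) + z0.re) (w.1 + z0.re + 1) ×ˢ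
        Set.Ico ((w.2 : ℝ) + z0.im) (w.2 + z0.im + 1) := by
    ext p
    simp only [Set.mem_preimage, Complex.measurableEquivRealProd_symm_apply, Sq,
      Set.mem_ofPred_eq, Set.mem_prod, Set.mem_Ico]
  rw [e, Measure.volume_eq_prod, Measure.prod_prod, Real.volume_Ico, Real.volume_Ico]
  simp

theorem sq_dist (z0 : ℂ) (w : ℤ × ℤ) (u : ℂ) (hu : u ∈ Sq z0 w) : ‖zc w + z0 - u‖ ≤ 2 := by
  obtain ⟨⟨h1, h2⟩, h3, h4⟩ := hu
  refine (Complex.norm_le_abs_re_add_abs_im _).trans ?_
  rw [Complex.sub_re, Complex.sub_im, Complex.add_re, Complex.add_im, zc_re, zc_im]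
  have e1 : |(w.1 : ℝ) + z0.re - u.re| ≤ 1 := by
    rw [abs_le]
    constructor <;> linarith
  have e2 : |(w.2 : ℝ) + z0.im - u.im| ≤ 1 := by
    rw [abs_le]
    constructor <;> linarith
  linarith

theorem sq_floor (z0 u : ℂ) (w : ℤ × ℤ) :
    u ∈ Sq z0 w ↔ w = (⌊u.re - z0.re⌋, ⌊u.im - z0.im⌋) := by
  unfold Sq
  rw [Prod.ext_iff]
  simp only [Set.mem_ofPred_eq]
  rw [eq_comm (a := w.1), eq_comm (a := w.2), Int.floor_eq_iff, Int.floor_eq_iff]
  constructor
  · rintro ⟨⟨h1, h2⟩, h3, h4⟩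
    exact ⟨⟨by linarith, by linarith⟩, by linarith, by linarith⟩
  · rintro ⟨⟨h1, h2⟩, h3, h4⟩
    exact ⟨⟨by linarith, by linarith⟩, by linarith, by linarith⟩

theorem sq_disj (z0 : ℂ) (w w' : ℤ × ℤ) (h : w ≠ w') : Disjoint (Sq z0 w) (Sq z0 w') := by
  rw [Set.disjoint_left]
  intro u hu hu'
  rw [sq_floor] at hu hu'
  exact h (hu.trans hu'.symm)

theorem pow_lip (a b : ℂ) (ha : ‖a‖ ≤ 1) (hb : ‖b‖ ≤ 1) (M : ℕ) :
    ‖a ^ M - b ^ M‖ ≤ M * ‖a - b‖ := by
  induction M with
  | zero => simp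
  | succ M ih =>
    have e : a ^ (M + 1) - b ^ (M + 1) = (a ^ M - b ^ M) * a + b ^ M * (a - b) := by ring
    rw [e]
    refine (norm_add_le _ _).trans ?_
    rw [norm_mul, norm_mul, norm_pow]
    have h1 : ‖a ^ M - b ^ M‖ * ‖a‖ ≤ M * ‖a - b‖ * 1 :=
      mul_le_mul ih ha (norm_nonneg _) (by positivity)
    have h2 : ‖b‖ ^ M * ‖a - b‖ ≤ 1 * ‖a - b‖ :=
      mul_le_mul_of_nonneg_right (pow_le_one₀ (norm_nonneg _) hb) (norm_nonneg _)
    push_cast
    linarith

theorem dir_lip (x y : ℂ) (hx : 0 < ‖x‖) :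
    ‖x / (‖x‖ : ℂ) - y / (‖y‖ : ℂ)‖ ≤ 2 * ‖x - y‖ / ‖x‖ := by
  by_cases hy : y = 0
  · rw [hy, zero_div, sub_zero, sub_zero, mul_div_assoc, div_self hx.ne', mul_one, norm_div,
      Complex.norm_real, norm_norm, div_self hx.ne']
    norm_num
  · have hy0 : 0 < ‖y‖ := norm_pos_iff.2 hy
    have hxc : (‖x‖ : ℂ) ≠ 0 := by exact_mod_cast hx.ne'
    have hyc : (‖y‖ : ℂ) ≠ 0 := by exact_mod_cast hy0.ne'
    have e : x / (‖x‖ : ℂ) - y / (‖y‖ : ℂ)
        = ((x - y) + (y / (‖y‖ : ℂ)) * ((‖y‖ : ℂ) - (‖x‖ : ℂ))) / (‖x‖ : ℂ) := by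
      field_simp
      ring
    rw [e, norm_div, Complex.norm_real, norm_norm]
    apply div_le_div_of_nonneg_right _ hx.le
    refine (norm_add_le _ _).trans ?_
    rw [norm_mul, norm_div, Complex.norm_real, norm_norm, div_self hy0.ne', one_mul]
    have h1 : ‖(‖y‖ : ℂ) - (‖x‖ : ℂ)‖ ≤ ‖x - y‖ := by
      rw [← Complex.ofReal_sub, Complex.norm_real, Real.norm_eq_abs, abs_sub_comm]
      exact abs_norm_sub_norm_le x y
    linarith

/-- small frequencies -/
theorem smallM (X : ℝ) (hX : 4 ≤ X) (M : ℕ) (hM : 0 < M) (z0 : ℂ) (A B : ℝ)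
    (hA : X ^ 2 ≤ A) (hAB : A ≤ B) (hB : B ≤ 9 * X ^ 2)
    (W : Finset (ℤ × ℤ)) (hW : ∀ w, w ∈ W ↔ A < N2 z0 w ∧ N2 z0 w ≤ B) :
    ‖∑ w ∈ W, ft M z0 w‖ ≤ 3184 * M * X := by
  classical
  have hXp : 0 < X := by linarith
  have hX1 : 1 ≤ X := by linarith
  have hMr : (1 : ℝ) ≤ M := by exact_mod_cast hM
  -- the big rectangle
  obtain ⟨n, hn⟩ := exists_nat_gt (√B + ‖z0‖ + 2)
  set Wa : Finset (ℤ × ℤ) := rect (-n) (n + 1) (-n) (n + 1) with hWa
  have hin : ∀ w : ℤ × ℤ, ‖zc w + z0‖ ≤ √B + 2 → w ∈ Wa := by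
    intro w hw
    have h1 : ‖zc w‖ ≤ √B + ‖z0‖ + 2 := by
      have h2 := norm_sub_le (zc w + z0) z0
      rw [add_sub_cancel_right] at h2
      linarith
    have h3 : |(w.1 : ℝ)| < n := by
      have h4 := Complex.abs_re_le_norm (zc w)
      rw [zc_re] at h4
      linarith
    have h5 : |(w.2 : ℝ)| < n := by
      have h4 := Complex.abs_im_le_norm (zc w)
      rw [zc_im] at h4
      linarith
    have h6 : |w.1| < n := by exact_mod_cast h3
    have h7 : |w.2| < n := by exact_mod_cast h5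
    rw [abs_lt] at h6 h7
    rw [hWa, mem_rect]
    omega
  have hWsub : W ⊆ Wa := by
    intro w hw
    apply hin
    have h1 := ((hW w).1 hw).2
    rw [N2_eq] at h1
    have := Real.le_sqrt_of_sq_le h1
    linarith
  have hcov : Ann A B = ⋃ w ∈ Wa, (Sq z0 w ∩ Ann A B) := by
    ext u
    simp only [Set.mem_iUnion, Set.mem_inter_iff, exists_prop]
    constructor
    · intro hu
      set w : ℤ × ℤ := (⌊u.re - z0.re⌋, ⌊u.im - z0.im⌋) with hw
      have hsq : u ∈ Sq z0 w := (sq_floor z0 u w).2 rfl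
      refine ⟨w, ?_, hsq, hu⟩
      apply hin
      have h1 := sq_dist z0 w u hsq
      have h2 : ‖u‖ ≤ √B := Real.le_sqrt_of_sq_le hu.2
      have h3 := norm_add_le (zc w + z0 - u) u
      rw [sub_add_cancel] at h3
      linarith
    · rintro ⟨_, _, _, h⟩
      exact h
  have hfin : ∀ w, volume (Sq z0 w ∩ Ann A B) ≤ 1 := by
    intro w
    rw [← sq_vol z0 w]
    exact measure_mono Set.inter_subset_left
  have hfin2 : ∀ w, volume (Sq z0 w ∩ Ann A B) < ⊤ := fun w =>
    lt_of_le_of_lt (hfin w) ENNReal.one_lt_top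
  have hreal : ∀ w, volume.real (Sq z0 w ∩ Ann A B) ≤ 1 := by
    intro w
    have := ENNReal.toReal_mono ENNReal.one_ne_top (hfin w)
    simpa [Measure.real] using this
  have hint : ∀ w, IntegrableOn (fu M) (Sq z0 w ∩ Ann A B) := by
    intro w
    apply Measure.integrableOn_of_bounded (hfin2 w).ne (fu_meas M).aestronglyMeasurable (M := 1)
    exact Filter.Eventually.of_forall (fu_le M)
  have hsplit : ∑ w ∈ Wa, ∫ u in Sq z0 w ∩ Ann A B, fu M u = 0 := by
    rw [← integral_biUnion_finset Wa (fun w _ => (sq_meas z0 w).inter (ann_meas A B))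
      (fun w _ w' _ h => (sq_disj z0 w w' h).mono Set.inter_subset_left Set.inter_subset_left)
      (fun w _ => hint w), ← hcov]
    exact int_zero M hM A B
  -- the difference
  set D : ℤ × ℤ → ℂ := fun w => (if w ∈ W then ft M z0 w else 0)
    - ∫ u in Sq z0 w ∩ Ann A B, fu M u with hD
  have hsum : ∑ w ∈ W, ft M z0 w = ∑ w ∈ Wa, D w := by
    simp only [hD]
    rw [Finset.sum_sub_distrib, hsplit, sub_zero, ← Finset.sum_filter,
      Finset.filter_mem_eq_inter, Finset.inter_eq_right.2 hWsub]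
  -- near the boundary
  set P : ℤ × ℤ → Prop := fun w => |‖zc w + z0‖ - √A| ≤ 2 * 1 ∨ |‖zc w + z0‖ - √B| ≤ 2 * 1
    with hP
  have hI1 : ∀ w, ‖∫ u in Sq z0 w ∩ Ann A B, fu M u‖ ≤ 1 := by
    intro w
    have := norm_setIntegral_le_of_norm_le_const (f := fu M) (hfin2 w) (fun u _ => fu_le M u)
    have h2 := hreal w
    linarith
  have hD2 : ∀ w, ‖D w‖ ≤ 2 := by
    intro w
    simp only [hD]
    refine (norm_sub_le _ _).trans ?_
    have h1 := hI1 w
    by_cases hw : w ∈ W
    · rw [if_pos hw]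
      have := ft_le M z0 w
      linarith
    · rw [if_neg hw, norm_zero]
      linarith
  have hfar : ∀ w, ¬ P w → w ∉ W → D w = 0 := by
    intro w hPw hw
    simp only [hD]
    rw [if_neg hw]
    have hemp : Sq z0 w ∩ Ann A B = ∅ := by
      ext u
      simp only [Set.mem_inter_iff, Set.mem_empty_iff_false, iff_false, not_and]
      intro hu hAu
      have h1 := sq_dist z0 w u hu
      have h2 : |‖zc w + z0‖ - ‖u‖| ≤ 2 := (abs_norm_sub_norm_le _ _).trans h1
      have h2' := abs_le.1 h2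
      have h3 : ‖u‖ ≤ √B := Real.le_sqrt_of_sq_le hAu.2
      have h4 : √A ≤ ‖u‖ := Real.sqrt_le_iff.2 ⟨norm_nonneg _, hAu.1.le⟩
      simp only [hP, not_or, not_le] at hPw
      rw [hW, N2_eq] at hw
      rcases le_or_gt (‖zc w + z0‖ ^ 2) A with h5 | h5
      · have h6 : ‖zc w + z0‖ ≤ √A := Real.le_sqrt_of_sq_le h5
        have h7 : |‖zc w + z0‖ - √A| ≤ 2 * 1 := by
          rw [abs_le]
          constructor <;> linarith
        linarith [hPw.1]
      · have h6 : B < ‖zc w + z0‖ ^ 2 := by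
          by_contra h7
          exact hw ⟨h5, not_lt.1 h7⟩
        have h8 : √B ≤ ‖zc w + z0‖ := Real.sqrt_le_iff.2 ⟨norm_nonneg _, h6.le⟩
        have h7 : |‖zc w + z0‖ - √B| ≤ 2 * 1 := by
          rw [abs_le]
          constructor <;> linarith
        linarith [hPw.2]
    rw [hemp, Measure.restrict_empty, integral_zero_measure, sub_zero]
  have hmid : ∀ w, ¬ P w → w ∈ W → ‖D w‖ ≤ 4 * M / X := by
    intro w hPw hw
    simp only [hP, not_or, not_le] at hPw
    have hwW := (hW w).1 hw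
    rw [N2_eq] at hwW
    have g3 : √A ≤ ‖zc w + z0‖ := Real.sqrt_le_iff.2 ⟨norm_nonneg _, hwW.1.le⟩
    have g4 : ‖zc w + z0‖ ≤ √B := Real.le_sqrt_of_sq_le hwW.2
    have g5 : X ≤ √A := Real.le_sqrt_of_sq_le hA
    have g6 : √A + 2 < ‖zc w + z0‖ := by
      have := hPw.1
      rw [abs_of_nonneg (by linarith)] at this
      linarith
    have g7 : ‖zc w + z0‖ + 2 < √B := by
      have := hPw.2
      rw [abs_of_nonpos (by linarith)] at this
      linarith
    have hsub : Sq z0 w ∩ Ann A B = Sq z0 w := by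
      rw [Set.inter_eq_left]
      intro u hu
      have h1 := sq_dist z0 w u hu
      have h2 : |‖zc w + z0‖ - ‖u‖| ≤ 2 := (abs_norm_sub_norm_le _ _).trans h1
      have h2' := abs_le.1 h2
      have h0A : 0 ≤ A := le_trans (by positivity) hA
      constructor
      · have h3 : √A < ‖u‖ := by linarith
        have h4 := pow_lt_pow_left₀ h3 (Real.sqrt_nonneg A) two_ne_zero
        rwa [Real.sq_sqrt h0A] at h4
      · have h3 : ‖u‖ ≤ √B := by linarith
        have h4 := pow_le_pow_left₀ (norm_nonneg u) h3 2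
        rwa [Real.sq_sqrt (h0A.trans hAB)] at h4
    have hvol1 : volume.real (Sq z0 w) = 1 := by
      rw [Measure.real, sq_vol]
      simp
    have e1 : D w = ∫ u in Sq z0 w, (ft M z0 w - fu M u) := by
      simp only [hD]
      rw [if_pos hw, hsub]
      have hi : IntegrableOn (fu M) (Sq z0 w) := by
        have := hint w
        rwa [hsub] at this
      have hc : IntegrableOn (fun _ : ℂ => ft M z0 w) (Sq z0 w) := by
        apply integrableOn_const
        · rw [sq_vol]
          exact ENNReal.one_ne_top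
        · exact enorm_ne_top
      rw [integral_sub hc hi, setIntegral_const, hvol1, one_smul]
    have hsq_fin : volume (Sq z0 w) < ⊤ := by rw [sq_vol]; exact ENNReal.one_lt_top
    rw [e1]
    have h9 := norm_setIntegral_le_of_norm_le_const (f := fun u => ft M z0 w - fu M u)
      (C := 4 * M / X) hsq_fin (by
        intro u hu
        have h1 := sq_dist z0 w u hu
        have hx0 : 0 < ‖zc w + z0‖ := by linarith
        have h2 := dir_lip (zc w + z0) u hx0
        have h3 : ‖ft M z0 w - fu M u‖ ≤ M * ‖(zc w + z0) / (‖zc w + z0‖ : ℂ) - u / (‖u‖ : ℂ)‖ := by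
          apply pow_lip
          · have := term_norm_le (zc w + z0) 1
            rwa [pow_one] at this
          · have := term_norm_le u 1
            rwa [pow_one] at this
        refine h3.trans ?_
        have h4 : 2 * ‖zc w + z0 - u‖ / ‖zc w + z0‖ ≤ 4 / X := by
          rw [div_le_div_iff₀ hx0 hXp]
          nlinarith
        have h5 := mul_le_mul_of_nonneg_left (h2.trans h4) (show (0 : ℝ) ≤ M by linarith)
        refine h5.trans (le_of_eq ?_)
        ring)
    rwa [hvol1, mul_one] at h9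
  -- conclusion
  rw [hsum]
  refine (norm_sum_le _ _).trans ?_
  have hbound : ∀ w ∈ Wa, ‖D w‖ ≤ (if w ∈ W then 4 * M / X else 0) + (if P w then 2 else 0) := by
    intro w _
    have h0 : 0 ≤ 4 * (M : ℝ) / X := by positivity
    by_cases hPw : P w
    · rw [if_pos hPw]
      have := hD2 w
      split_ifs <;> linarith
    · rw [if_neg hPw, add_zero]
      by_cases hw : w ∈ W
      · rw [if_pos hw]
        exact hmid w hPw hw
      · rw [if_neg hw, hfar w hPw hw, norm_zero]
  refine (Finset.sum_le_sum hbound).trans ?_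
  rw [Finset.sum_add_distrib, ← Finset.sum_filter, ← Finset.sum_filter,
    Finset.filter_mem_eq_inter, Finset.inter_eq_right.2 hWsub, Finset.sum_const,
    Finset.sum_const, nsmul_eq_mul, nsmul_eq_mul]
  have c0 : (W.card : ℝ) ≤ 252 * X ^ 2 :=
    card_ann hX1 hA hAB hB z0 W (fun w hw => ⟨((hW w).1 hw).1.le, ((hW w).1 hw).2⟩)
  have c1 := card_thin (t := 1) (le_refl _) (by linarith) hA (hAB.trans hB) z0
    (Wa.filter (fun w => |‖zc w + z0‖ - √A| ≤ 2 * 1)) (fun w hw => (Finset.mem_filter.1 hw).2)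
  have c2 := card_thin (t := 1) (le_refl _) (by linarith) (hA.trans hAB) hB z0
    (Wa.filter (fun w => |‖zc w + z0‖ - √B| ≤ 2 * 1)) (fun w hw => (Finset.mem_filter.1 hw).2)
  have c3 : ((Wa.filter P).card : ℝ)
      ≤ ((Wa.filter (fun w => |‖zc w + z0‖ - √A| ≤ 2 * 1)).card : ℝ)
        + ((Wa.filter (fun w => |‖zc w + z0‖ - √B| ≤ 2 * 1)).card : ℝ) := by
    have h1 : Wa.filter P = Wa.filter (fun w => |‖zc w + z0‖ - √A| ≤ 2 * 1)
        ∪ Wa.filter (fun w => |‖zc w + z0‖ - √B| ≤ 2 * 1) := by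
      rw [← Finset.filter_or]
    rw [h1]
    exact_mod_cast Finset.card_union_le _ _
  have c4 : (W.card : ℝ) * (4 * M / X) ≤ 1008 * M * X := by
    calc (W.card : ℝ) * (4 * M / X) ≤ (252 * X ^ 2) * (4 * M / X) :=
          mul_le_mul_of_nonneg_right c0 (by positivity)
      _ = 1008 * M * X := by
          field_simp
          ring
  have c5 : X ≤ M * X := by nlinarith
  nlinarith

end VC63

end Pool.Agent.Lib.MP_a17b09_nt.MR
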