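import Mathlib

/-!
Module VC, part n: integer powers of either sign.
-/

set_option autoImplicit false

open Finset

namespace Pool.Agent.Lib.MP_a17b09_nt.MR

namespace VC63

/-- integer powers of either sign have the same size -/
theorem norm_zsum (W : Finset (ℤ × ℤ)) (g : ℤ × ℤ → ℂ) (hg : ∀ w ∈ W, ‖g w‖ = 1) (h : ℤ) :
    ‖∑ w ∈ W, g w ^ h‖ = ‖∑ w ∈ W, g w ^ h.natAbs‖ := by
  rcases Int.natAbs_eq h with he | he
  · have e : ∑ w ∈ W, g w ^ h = ∑ w ∈ W, g w ^ h.natAbs := by
      apply Finset.sum_congr rfl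
      intro w _
      conv_lhs => rw [he]
      rw [zpow_natCast]
    rw [e]
  · have e : ∑ w ∈ W, g w ^ h = (starRingEnd ℂ) (∑ w ∈ W, g w ^ h.natAbs) := by
      rw [map_sum]
      apply Finset.sum_congr rfl
      intro w hw
      conv_lhs => rw [he]
      rw [zpow_neg, zpow_natCast]
      apply Complex.inv_eq_conj
      rw [norm_pow, hg w hw, one_pow]
    rw [e, Complex.norm_conj]

end VC63

end Pool.Agent.Lib.MP_a17b09_nt.MR
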