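import Pool.Agent.Lib.MP_a17b09_nt.MR.VCd63
import Pool.Agent.Lib.MP_a17b09_nt.MR.VCn63

/-!
Module VC, part e: the assembly of `StVC`.
-/

set_option autoImplicit false

open Finset

namespace Pool.Agent.Lib.MP_a17b09_nt.MR

open Pool.Agent.Lib.MP_a17b09_nt.LP

namespace VC63

/-- the bound in the shifted coordinates, with everything made explicit -/
theorem core (κ : ℝ) (hκ : 0 < κ) (Q : ℕ) (hQ : 10 / κ ≤ Q) :
    ∃ C : ℝ, 0 < C ∧ ∀ T X : ℝ, 1 ≤ T → 1 ≤ X → T ^ κ ≤ X ^ 2 → ∀ M : ℕ, 0 < M → (M : ℝ) ≤ T →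
    ∀ (z0 : ℂ) (A B : ℝ), X ^ 2 ≤ A → A ≤ B → B ≤ 2 * X ^ 2 → ∀ W : Finset (ℤ × ℤ),
    (∀ w, w ∈ W ↔ A < N2 z0 w ∧ N2 z0 w ≤ B) →
    ‖∑ w ∈ W, ft M z0 w‖
      ≤ C * (X ^ 2) ^ (1 - 1 / (2 * (5 * (2 * (Q : ℝ) + 8) + 5) * 2 ^ Q)) := by
  set s : ℕ := 2 * Q + 8 with hs
  set R : ℕ := 5 * s + 5 with hR
  set e : ℝ := (1 : ℝ) / 2 ^ Q with he
  have he0 : 0 < e := by rw [he]; positivity
  have he1 : e ≤ 1 := by
    rw [he, div_le_one (by positivity)]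
    exact one_le_pow₀ (by norm_num)
  set Z0 : ℕ := KQ Q + 2 * R + 4 with hZ0
  have hCw := Cw_pos Q
  have hRr : (5 * (2 * (Q : ℝ) + 8) + 5) = (R : ℝ) := by
    rw [hR, hs]
    push_cast
    ring
  rw [hRr]
  have hR45 : 45 ≤ R := by rw [hR, hs]; omega
  have hR0 : (0 : ℝ) < R := by exact_mod_cast (by omega : 0 < R)
  have hR45r : (45 : ℝ) ≤ R := by exact_mod_cast hR45
  set c : ℝ := 1 / (2 * (R : ℝ) * 2 ^ Q) with hc
  have hce : 2 * (R : ℝ) * c = e := by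
    rw [hc, he]
    field_simp
  have hc0 : 0 < c := by rw [hc]; positivity
  have hc1 : c ≤ 1 := by
    have h1 : c * 1 ≤ c * (2 * (R : ℝ)) := mul_le_mul_of_nonneg_left (by linarith) hc0.le
    have h2 : c * (2 * (R : ℝ)) = e := by rw [← hce]; ring
    linarith
  have hZ0r : (1 : ℝ) ≤ Z0 := by exact_mod_cast (by omega : 1 ≤ Z0)
  refine ⟨252 * ((Z0 : ℝ) ^ R) ^ 2 + 3184 + 252 * (Cw Q) ^ e + 1088, by positivity, ?_⟩
  intro T X hT hX hTX M hM0 hMT z0 A B hA hAB hB W hW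
  have hX0 : 0 < X := by linarith
  have hX2 : 1 ≤ X ^ 2 := one_le_pow₀ hX
  have hP1 : 1 ≤ (X ^ 2) ^ (1 - c) := Real.one_le_rpow hX2 (by linarith)
  have hCe : 0 ≤ (Cw Q) ^ e := Real.rpow_nonneg hCw.le _
  set Z : ℕ := ⌊X ^ ((1 : ℝ) / R)⌋₊ with hZ
  have hXr1 : 1 ≤ X ^ ((1 : ℝ) / R) := Real.one_le_rpow hX (by positivity)
  have hZ1 : 1 ≤ Z := Nat.le_floor (by exact_mod_cast hXr1)
  have hpow : (X ^ ((1 : ℝ) / R)) ^ R = X := by
    rw [← Real.rpow_natCast, ← Real.rpow_mul hX0.le, one_div, inv_mul_cancel₀ hR0.ne',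
      Real.rpow_one]
  have hZlow : (Z : ℝ) ^ R ≤ X := by
    calc (Z : ℝ) ^ R ≤ (X ^ ((1 : ℝ) / R)) ^ R :=
          pow_le_pow_left₀ (Nat.cast_nonneg _) (Nat.floor_le (by linarith)) R
      _ = X := hpow
  have hZup : X ≤ ((Z : ℝ) + 1) ^ R := by
    calc X = (X ^ ((1 : ℝ) / R)) ^ R := hpow.symm
      _ ≤ ((Z : ℝ) + 1) ^ R :=
          pow_le_pow_left₀ (by linarith) (Nat.lt_floor_add_one _).le R
  rcases lt_or_ge Z Z0 with hsmall | hbig
  · -- bounded X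
    have h1 : X ≤ (Z0 : ℝ) ^ R := by
      refine hZup.trans (pow_le_pow_left₀ (by positivity) ?_ R)
      exact_mod_cast hsmall
    have h2 : ‖∑ w ∈ W, ft M z0 w‖ ≤ (W.card : ℝ) := by
      refine (norm_sum_le _ _).trans ?_
      refine (Finset.sum_le_sum (fun w _ => ft_le M z0 w)).trans ?_
      rw [Finset.sum_const, nsmul_eq_mul, mul_one]
    have h3 : (W.card : ℝ) ≤ 252 * X ^ 2 :=
      card_ann hX hA hAB (by linarith) z0 W
        (fun w hw => ⟨((hW w).1 hw).1.le, ((hW w).1 hw).2⟩)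
    have h4 : X ^ 2 ≤ ((Z0 : ℝ) ^ R) ^ 2 := pow_le_pow_left₀ hX0.le h1 2
    have h5 : 0 ≤ 252 * ((Z0 : ℝ) ^ R) ^ 2 := by positivity
    nlinarith
  · have hZr : (Z0 : ℝ) ≤ Z := by exact_mod_cast hbig
    have hZ2R : 2 * (R : ℝ) ≤ Z := by
      have : 2 * R ≤ Z := by omega
      exact_mod_cast this
    have hZ4 : (4 : ℝ) ≤ Z := by exact_mod_cast (by omega : 4 ≤ Z)
    have hZp : (0 : ℝ) < Z := by linarith
    have hKQ : KQ Q ≤ Z := by omega
    set X0 : ℝ := (Z : ℝ) ^ R with hX0d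
    have hX0p : 0 < X0 := by rw [hX0d]; positivity
    have hX0up : X ≤ 2 * X0 := by
      refine hZup.trans ?_
      have h1 : ((Z : ℝ) + 1) = Z * (1 + 1 / Z) := by field_simp
      rw [h1, mul_pow, ← hX0d, mul_comm]
      apply mul_le_mul_of_nonneg_right _ hX0p.le
      have h2 : 1 + 1 / (Z : ℝ) ≤ Real.exp (1 / Z) := by
        have := Real.add_one_le_exp (1 / (Z : ℝ))
        linarith
      have h3 : (1 + 1 / (Z : ℝ)) ^ R ≤ Real.exp (1 / Z) ^ R :=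
        pow_le_pow_left₀ (by positivity) h2 R
      refine h3.trans ?_
      rw [← Real.exp_nat_mul]
      have h4 : (R : ℝ) * (1 / Z) ≤ 1 / 2 := by
        rw [mul_one_div, div_le_div_iff₀ hZp (by norm_num)]
        linarith
      have h5 : Real.exp ((R : ℝ) * (1 / Z)) ≤ Real.exp (1 / 2) := Real.exp_le_exp.2 h4
      have h6 : Real.exp (1 / 2) ≤ 2 := by
        have h7 : Real.exp (1 / 2) ^ 2 ≤ 4 := by
          rw [← Real.exp_nat_mul]
          have h8 : ((2 : ℕ) : ℝ) * (1 / 2) = 1 := by norm_num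
          rw [h8]
          have := Real.exp_one_lt_d9
          linarith
        have h9 : Real.exp (1 / 2) ^ 2 ≤ 2 ^ 2 := by linarith
        exact (pow_le_pow_iff_left₀ (Real.exp_pos _).le (by norm_num) two_ne_zero).1 h9
      linarith
    have hA0 : X0 ^ 2 ≤ A := (pow_le_pow_left₀ hX0p.le hZlow 2).trans hA
    have hB0 : B ≤ 9 * X0 ^ 2 := by
      have h1 : X ^ 2 ≤ (2 * X0) ^ 2 := pow_le_pow_left₀ hX0.le hX0up 2
      have h2 : (2 * X0) ^ 2 = 4 * X0 ^ 2 := by ring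
      have h3 := sq_nonneg X0
      rw [h2] at h1
      linarith
    have hX04 : 4 ≤ X0 := by
      rw [hX0d]
      calc (4 : ℝ) ≤ Z := hZ4
        _ = (Z : ℝ) ^ 1 := by ring
        _ ≤ (Z : ℝ) ^ R := pow_le_pow_right₀ (by linarith) (by omega)
    -- the quantity we compare with
    have hE : (Z : ℝ) ^ ((2 * R : ℝ) - e) ≤ (X ^ 2) ^ (1 - c) := by
      have h1 : (X0 ^ 2) ^ (1 - c) ≤ (X ^ 2) ^ (1 - c) :=
        Real.rpow_le_rpow (by positivity) (pow_le_pow_left₀ hX0p.le hZlow 2) (by linarith)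
      refine le_trans (le_of_eq ?_) h1
      rw [hX0d, ← pow_mul, ← Real.rpow_natCast, ← Real.rpow_mul hZp.le]
      congr 1
      push_cast
      linarith
    have hE2 : (Z : ℝ) ^ (2 * R - 1 : ℕ) ≤ (Z : ℝ) ^ ((2 * R : ℝ) - e) := by
      rw [← Real.rpow_natCast]
      apply Real.rpow_le_rpow_of_exponent_le (by linarith)
      rw [Nat.cast_sub (by omega)]
      push_cast
      linarith
    rcases lt_or_ge M (Z ^ 6) with hMs | hMb
    · -- small frequency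
      have h1 := smallM X0 hX04 M hM0 z0 A B hA0 hAB hB0 W hW
      refine h1.trans ?_
      have h2 : (M : ℝ) ≤ (Z : ℝ) ^ 6 := by exact_mod_cast hMs.le
      have h3 : (M : ℝ) * X0 ≤ (Z : ℝ) ^ (2 * R - 1 : ℕ) := by
        calc (M : ℝ) * X0 ≤ (Z : ℝ) ^ 6 * X0 := mul_le_mul_of_nonneg_right h2 hX0p.le
          _ = (Z : ℝ) ^ (6 + R) := by
              rw [hX0d]
              exact (pow_add (Z : ℝ) 6 R).symm
          _ ≤ (Z : ℝ) ^ (2 * R - 1 : ℕ) := pow_le_pow_right₀ (by linarith) (by omega)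
      have h4 : (M : ℝ) * X0 ≤ (X ^ 2) ^ (1 - c) := h3.trans (hE2.trans hE)
      have h5 : 0 ≤ ((Z0 : ℝ) ^ R) ^ 2 := by positivity
      nlinarith
    · -- large frequency
      have hMup : M ≤ Z ^ (4 * (s + 1) * Q + 5 * s + 4) := by
        by_contra hcon
        rw [not_le] at hcon
        have h1 : (Z : ℝ) ^ (4 * (s + 1) * Q + 5 * s + 4) ≤ T := by
          have h2 : ((Z ^ (4 * (s + 1) * Q + 5 * s + 4) : ℕ) : ℝ) ≤ M := by exact_mod_cast hcon.le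
          push_cast at h2
          linarith
        have h2 : ((Z : ℝ) ^ (4 * (s + 1) * Q + 5 * s + 4)) ^ κ ≤ X ^ 2 :=
          (Real.rpow_le_rpow (by positivity) h1 hκ.le).trans hTX
        have h3 : X ^ 2 ≤ (2 * X0) ^ 2 := pow_le_pow_left₀ hX0.le hX0up 2
        have h4 : (2 * X0) ^ 2 ≤ (Z : ℝ) ^ (2 * R + 1) := by
          have e1 : (Z : ℝ) ^ (2 * R + 1) = X0 ^ 2 * Z := by
            rw [hX0d, pow_succ, mul_comm 2 R, pow_mul]
          rw [e1, mul_pow]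
          have h40 : X0 ^ 2 * 4 ≤ X0 ^ 2 * Z := mul_le_mul_of_nonneg_left hZ4 (sq_nonneg X0)
          linarith
        have h5 : (Z : ℝ) ^ (2 * R + 1)
            < ((Z : ℝ) ^ (4 * (s + 1) * Q + 5 * s + 4)) ^ κ := by
          rw [← Real.rpow_natCast, ← Real.rpow_natCast, ← Real.rpow_mul hZp.le]
          apply Real.rpow_lt_rpow_of_exponent_lt (by linarith)
          have h6 : 10 ≤ (Q : ℝ) * κ := by
            rwa [div_le_iff₀ hκ] at hQ
          push_cast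
          have h7 : (R : ℝ) = 5 * s + 5 := by rw [hR]; push_cast; ring
          have hs0 : (0 : ℝ) ≤ s := Nat.cast_nonneg _
          have h8 : 4 * ((s : ℝ) + 1) * 10 ≤ 4 * ((s : ℝ) + 1) * (Q * κ) :=
            mul_le_mul_of_nonneg_left h6 (by positivity)
          have h9 : 0 ≤ (5 * (s : ℝ) + 4) * κ := by positivity
          rw [h7]
          linarith
        linarith
      have h1 := bigM Q s Z (le_refl _) hKQ (by omega) M hMb hMup z0 A B hA0 hAB hB0 W hW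
      refine h1.trans ?_
      have h2 : ((Z : ℝ) ^ (5 * s + 5)) ^ 2 * (Cw Q / Z) ^ ((1 : ℝ) / 2 ^ Q)
          = (Cw Q) ^ e * (Z : ℝ) ^ ((2 * R : ℝ) - e) := by
        rw [← he, Real.div_rpow hCw.le hZp.le, ← hR, ← pow_mul,
          Real.rpow_sub hZp]
        have e1 : (Z : ℝ) ^ (R * 2) = (Z : ℝ) ^ (2 * (R : ℝ)) := by
          rw [← Real.rpow_natCast]
          congr 1
          push_cast
          ring
        rw [e1]
        ring
      have h3 : (Z : ℝ) ^ (5 * s + 5) * (Z : ℝ) ^ (5 * s + 3) ≤ (Z : ℝ) ^ (2 * R - 1 : ℕ) := by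
        rw [← pow_add]
        exact pow_le_pow_right₀ (by linarith) (by omega)
      have h4 : (Z : ℝ) ^ (5 * s + 5) * (Z : ℝ) ^ (5 * s + 3) ≤ (X ^ 2) ^ (1 - c) :=
        h3.trans (hE2.trans hE)
      have h5 : (Cw Q) ^ e * (Z : ℝ) ^ ((2 * R : ℝ) - e) ≤ (Cw Q) ^ e * (X ^ 2) ^ (1 - c) :=
        mul_le_mul_of_nonneg_left hE hCe
      have h6 : 0 ≤ ((Z0 : ℝ) ^ R) ^ 2 := by positivity
      have h7 : 0 ≤ ((Z0 : ℝ) ^ R) ^ 2 * (X ^ 2) ^ (1 - c) := by positivity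
      calc 252 * ((Z : ℝ) ^ (5 * s + 5)) ^ 2 * (Cw Q / Z) ^ ((1 : ℝ) / 2 ^ Q)
            + 1088 * (Z : ℝ) ^ (5 * s + 5) * (Z : ℝ) ^ (5 * s + 3)
          = 252 * (((Z : ℝ) ^ (5 * s + 5)) ^ 2 * (Cw Q / Z) ^ ((1 : ℝ) / 2 ^ Q))
            + 1088 * ((Z : ℝ) ^ (5 * s + 5) * (Z : ℝ) ^ (5 * s + 3)) := by ring
        _ ≤ 252 * ((Cw Q) ^ e * (X ^ 2) ^ (1 - c)) + 1088 * (X ^ 2) ^ (1 - c) := by
            rw [h2]
            linarith
        _ ≤ (252 * ((Z0 : ℝ) ^ R) ^ 2 + 3184 + 252 * (Cw Q) ^ e + 1088)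
            * (X ^ 2) ^ (1 - c) := by nlinarith

end VC63

open VC63

/-- **StVC holds** -/
theorem stVC_63 : StVC := by
  intro κ hκ
  obtain ⟨Q, hQ⟩ := exists_nat_ge (10 / κ)
  obtain ⟨C, hC, hcore⟩ := core κ hκ Q hQ
  refine ⟨1 / (2 * (5 * (2 * (Q : ℝ) + 8) + 5) * 2 ^ Q), by positivity, C, hC, ?_⟩
  intro T hT h hh hhT q a hq Y Y1 Y2 hY hY1 hY12 hY2 S hS
  have hqr : (0 : ℝ) < q := by exact_mod_cast hq
  have hqz : (q : ℤ) ≠ 0 := by exact_mod_cast hq.ne'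
  have hqc : (q : ℂ) ≠ 0 := by exact_mod_cast hq.ne'
  have hTκ : 1 ≤ T ^ κ := Real.one_le_rpow hT hκ.le
  have hq2 : (0 : ℝ) < (q : ℝ) ^ 2 := by positivity
  have hYq : T ^ κ ≤ Y / q ^ 2 := by
    rw [le_div_iff₀ hq2]
    linarith
  set X : ℝ := √(Y / q ^ 2) with hX
  have hXsq : X ^ 2 = Y / q ^ 2 := Real.sq_sqrt (by linarith)
  have hX1 : 1 ≤ X := by
    rw [hX]
    apply Real.le_sqrt_of_sq_le
    linarith
  set z0 : ℂ := zc a / (q : ℂ) with hz0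
  set g : ℤ × ℤ → ℤ × ℤ := fun v => ((v.1 - a.1) / q, (v.2 - a.2) / q) with hg
  set p : ℤ × ℤ → ℤ × ℤ := fun w => (a.1 + q * w.1, a.2 + q * w.2) with hp
  have hpg : ∀ v ∈ S, p (g v) = v := by
    intro v hv
    obtain ⟨h1, h2, _⟩ := (hS v).1 hv
    simp only [hp, hg]
    rw [Int.mul_ediv_cancel' h1, Int.mul_ediv_cancel' h2]
    ext <;> simp
  have hgp : ∀ w, g (p w) = w := by
    intro w
    simp only [hp, hg]
    rw [add_sub_cancel_left, add_sub_cancel_left, Int.mul_ediv_cancel_left _ hqz,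
      Int.mul_ediv_cancel_left _ hqz]
  set W : Finset (ℤ × ℤ) := S.image g with hWd
  have hzp : ∀ w, zc (p w) = (q : ℂ) * (zc w + z0) := by
    intro w
    rw [hz0, mul_add, mul_div_cancel₀ _ hqc]
    simp only [zc, hp]
    push_cast
    ring
  have hN : ∀ w, ((p w).1 : ℝ) ^ 2 + ((p w).2 : ℝ) ^ 2 = (q : ℝ) ^ 2 * N2 z0 w := by
    intro w
    have h1 : ((p w).1 : ℝ) ^ 2 + ((p w).2 : ℝ) ^ 2 = ‖zc (p w)‖ ^ 2 := by
      rw [← Complex.normSq_eq_norm_sq, Complex.normSq_apply, zc_re, zc_im]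
      ring
    rw [h1, hzp, norm_mul, mul_pow, N2_eq, Complex.norm_natCast]
  have hW : ∀ w, w ∈ W ↔ Y1 / q ^ 2 < N2 z0 w ∧ N2 z0 w ≤ Y2 / q ^ 2 := by
    intro w
    rw [div_lt_iff₀ hq2, le_div_iff₀ hq2]
    constructor
    · intro hw
      obtain ⟨v, hv, rfl⟩ := Finset.mem_image.1 hw
      obtain ⟨_, _, h3, h4⟩ := (hS v).1 hv
      have h5 := hN (g v)
      rw [hpg v hv] at h5
      constructor <;> linarith
    · rintro ⟨h1, h2⟩
      rw [hWd, Finset.mem_image]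
      refine ⟨p w, ?_, hgp w⟩
      rw [hS, hN w]
      refine ⟨?_, ?_, by linarith, by linarith⟩
      · simp only [hp]
        rw [add_sub_cancel_left]
        exact dvd_mul_right _ _
      · simp only [hp]
        rw [add_sub_cancel_left]
        exact dvd_mul_right _ _
  have hpos : ∀ w ∈ W, 0 < ‖zc w + z0‖ := by
    intro w hw
    have h1 := ((hW w).1 hw).1
    rw [N2_eq] at h1
    have h2 : 0 ≤ Y1 / q ^ 2 := div_nonneg (by
      have : 0 < Y := lt_of_lt_of_le (by positivity) hY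
      linarith) hq2.le
    by_contra h3
    have h4 : ‖zc w + z0‖ = 0 := le_antisymm (not_lt.1 h3) (norm_nonneg _)
    rw [h4] at h1
    norm_num at h1
    linarith
  have hsum : ∑ v ∈ S, (zc v / (‖zc v‖ : ℂ)) ^ h
      = ∑ w ∈ W, ((zc w + z0) / (‖zc w + z0‖ : ℂ)) ^ h := by
    rw [hWd, Finset.sum_image (by
      intro v hv v' hv' hvv
      rw [← hpg v hv, ← hpg v' hv', hvv])]
    apply Finset.sum_congr rfl
    intro v hv
    congr 1
    have h1 : zc v = (q : ℂ) * (zc (g v) + z0) := by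
      rw [← hzp, hpg v hv]
    have h2 := hpos (g v) (Finset.mem_image_of_mem g hv)
    have h3 : (‖zc (g v) + z0‖ : ℂ) ≠ 0 := by exact_mod_cast h2.ne'
    rw [h1, norm_mul, Complex.norm_natCast]
    push_cast
    rw [mul_div_mul_left _ _ hqc]
  rw [hsum, norm_zsum W (fun w => (zc w + z0) / (‖zc w + z0‖ : ℂ)) (by
    intro w hw
    have h2 := hpos w hw
    rw [norm_div, Complex.norm_real, norm_norm, div_self h2.ne']) h]
  rw [← hXsq]
  have hMT : ((h.natAbs : ℕ) : ℝ) ≤ T := by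
    have e : ((h.natAbs : ℕ) : ℝ) = |(h : ℝ)| := by
      rw [Nat.cast_natAbs, Int.cast_abs]
    rw [e]
    exact hhT
  exact hcore T X hT hX1 (by rw [hXsq]; exact hYq) h.natAbs (Int.natAbs_pos.2 hh) hMT z0
    (Y1 / q ^ 2) (Y2 / q ^ 2) (by rw [hXsq]; exact div_le_div_of_nonneg_right hY1 hq2.le)
    (div_le_div_of_nonneg_right hY12 hq2.le)
    (by rw [hXsq, ← mul_div_assoc]; exact div_le_div_of_nonneg_right hY2 hq2.le) W hW

end Pool.Agent.Lib.MP_a17b09_nt.MR
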