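import Pool.Agent.Lib.MP_a17b09_nt.MR.VCc63
import Pool.Agent.Lib.MP_a17b09_nt.LP.WeylForms

/-!
Project MRSG: cancellation of angular characters for every positive form.  Part a: statement and
counting of lattice points of `ℤ + ℤ om` in shells.
-/

set_option autoImplicit false

open Finset

namespace Pool.Agent.Lib.MP_a17b09_nt.MR

open Pool.Agent.Lib.MP_a17b09_nt.LP

/-- **StVG**: cancellation of the angular characters over annuli and residue classes, for the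
lattice `ℤ + ℤ om` -/
def StVG : Prop := ∀ om : ℂ, om.im ≠ 0 → ∀ κ : ℝ, 0 < κ → ∃ c : ℝ, 0 < c ∧ ∃ C : ℝ, 0 < C ∧
  ∀ T : ℝ, 1 ≤ T → ∀ h : ℤ, h ≠ 0 → |(h : ℝ)| ≤ T → ∀ (q : ℕ) (a : ℤ × ℤ), 0 < q →
  ∀ Y Y1 Y2 : ℝ, (q : ℝ) ^ 2 * T ^ κ ≤ Y → Y ≤ Y1 → Y1 ≤ Y2 → Y2 ≤ 2 * Y →
  ∀ S : Finset (ℤ × ℤ), (∀ v : ℤ × ℤ, v ∈ S ↔ (q : ℤ) ∣ v.1 - a.1 ∧ (q : ℤ) ∣ v.2 - a.2 ∧
    Y1 < ‖zw om v‖ ^ 2 ∧ ‖zw om v‖ ^ 2 ≤ Y2) →
  ‖∑ v ∈ S, (zw om v / (‖zw om v‖ : ℂ)) ^ h‖ ≤ C * (Y / q ^ 2) ^ (1 - c)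

namespace VG63

open VC63

/-- the constant of the lattice -/
def GA (om : ℂ) (A : ℝ) : Prop := 120 ≤ A ∧ 1 + ‖om‖ ≤ A ∧
  (∀ G : ℂ, ‖G‖ ≤ A * |G.im| ∨ ‖G‖ ≤ A * |(G * om).im|) ∧
  (∀ s t : ℝ, |s| ≤ A * ‖(s : ℂ) + (t : ℂ) * om‖ ∧ |t| ≤ A * ‖(s : ℂ) + (t : ℂ) * om‖)

theorem exists_GA (om : ℂ) (hom : om.im ≠ 0) : ∃ A, GA om A := by
  obtain ⟨A, h1, h2, _, h3, h4⟩ := exists_A_complex om hom 0
  exact ⟨A, h1, h2, h3, h4⟩

theorem coord_le {om : ℂ} {A : ℝ} (hA : GA om A) (w w' : ℤ × ℤ) :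
    |(w.1 : ℝ) - w'.1| ≤ A * ‖zw om w - zw om w'‖ ∧
      |(w.2 : ℝ) - w'.2| ≤ A * ‖zw om w - zw om w'‖ := by
  have h := hA.2.2.2 ((w.1 : ℝ) - w'.1) ((w.2 : ℝ) - w'.2)
  have e : (((w.1 : ℝ) - w'.1 : ℝ) : ℂ) + (((w.2 : ℝ) - w'.2 : ℝ) : ℂ) * om
      = zw om w - zw om w' := by
    simp only [zw]
    push_cast
    ring
  rwa [e] at h

/-- points in a disc -/
theorem card_disc {om : ℂ} {A : ℝ} (hA : GA om A) (z0 : ℂ) (R : ℝ) (hR : 0 ≤ R)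
    (T : Finset (ℤ × ℤ)) (h : ∀ w ∈ T, ‖zw om w + z0‖ ≤ R) :
    (T.card : ℝ) ≤ (2 * R * A + 1) ^ 2 := by
  have hA0 : 0 < A := by linarith [hA.1]
  have key : ∀ w ∈ T, ∀ w' ∈ T, |(w.1 : ℝ) - w'.1| ≤ 2 * R * A ∧
      |(w.2 : ℝ) - w'.2| ≤ 2 * R * A := by
    intro w hw w' hw'
    have h1 := coord_le hA w w'
    have h2 : ‖zw om w - zw om w'‖ ≤ 2 * R := by
      have e : zw om w - zw om w' = (zw om w + z0) - (zw om w' + z0) := by ring
      rw [e]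
      refine (norm_sub_le _ _).trans ?_
      linarith [h w hw, h w' hw']
    have h3 : A * ‖zw om w - zw om w'‖ ≤ 2 * R * A := by
      have := mul_le_mul_of_nonneg_left h2 hA0.le
      linarith
    exact ⟨h1.1.trans h3, h1.2.trans h3⟩
  have h2 := card_rows T (2 * R * A) (2 * R * A) (by positivity) (by positivity)
    (fun v hv v' hv' _ => (le_abs_self _).trans (key v hv v' hv').1)
    (fun v hv v' hv' => (le_abs_self _).trans (key v hv v' hv').2)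
  rw [sq]
  exact h2

/-- thin shells -/
theorem card_thinG {om : ℂ} {A : ℝ} (hA : GA om A) {X t A' : ℝ} (ht1 : 1 ≤ t)
    (ht : 4 * (t + 1) ≤ X) (hA1 : X ^ 2 ≤ A') (hA2 : A' ≤ 9 * X ^ 2) (z0 : ℂ)
    (T : Finset (ℤ × ℤ)) (h : ∀ w ∈ T, |‖zw om w + z0‖ - √A'| ≤ 2 * t) :
    (T.card : ℝ) ≤ (4 * A + 1) ^ 2 * (1088 * X * t) := by
  classical
  have hA0 : 0 < A := by linarith [hA.1]
  set φ : ℤ × ℤ → ℤ × ℤ := fun w => (⌊(zw om w + z0).re⌋, ⌊(zw om w + z0).im⌋) with hφ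
  have hd : ∀ w, ‖zc (φ w) - (zw om w + z0)‖ ≤ 2 := by
    intro w
    refine (Complex.norm_le_abs_re_add_abs_im _).trans ?_
    rw [Complex.sub_re, Complex.sub_im, zc_re, zc_im]
    simp only [hφ]
    have a1 := Int.floor_le (zw om w + z0).re
    have a2 := Int.lt_floor_add_one (zw om w + z0).re
    have a3 := Int.floor_le (zw om w + z0).im
    have a4 := Int.lt_floor_add_one (zw om w + z0).im
    have b1 : |(⌊(zw om w + z0).re⌋ : ℝ) - (zw om w + z0).re| ≤ 1 := by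
      rw [abs_le]
      constructor <;> linarith
    have b2 : |(⌊(zw om w + z0).im⌋ : ℝ) - (zw om w + z0).im| ≤ 1 := by
      rw [abs_le]
      constructor <;> linarith
    linarith
  have himg : ((T.image φ).card : ℝ) ≤ 544 * X * (t + 1) := by
    apply card_thin (by linarith) ht hA1 hA2 0
    intro ζ hζ
    obtain ⟨w, hw, rfl⟩ := Finset.mem_image.1 hζ
    rw [add_zero]
    have h1 := abs_le.1 (h w hw)
    have h2 := abs_le.1 ((abs_norm_sub_norm_le (zc (φ w)) (zw om w + z0)).trans (hd w))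
    rw [abs_le]
    constructor <;> linarith
  have hfib : ∀ ζ ∈ T.image φ, ((T.filter (fun w => φ w = ζ)).card : ℝ) ≤ (4 * A + 1) ^ 2 := by
    intro ζ _
    have h1 := card_disc hA (z0 - zc ζ) 2 (by norm_num) (T.filter (fun w => φ w = ζ)) (by
      intro w hw
      have h2 := hd w
      rw [(Finset.mem_filter.1 hw).2, norm_sub_rev] at h2
      have e : zw om w + (z0 - zc ζ) = zw om w + z0 - zc ζ := by ring
      rw [e]
      exact h2)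
    refine h1.trans (le_of_eq ?_)
    ring
  have hcard : (T.card : ℝ) = ∑ ζ ∈ T.image φ, ((T.filter (fun w => φ w = ζ)).card : ℝ) := by
    rw [Finset.card_eq_sum_card_image φ T]
    push_cast
    rfl
  have hX : 0 < X := by linarith
  calc (T.card : ℝ) ≤ ∑ ζ ∈ T.image φ, (4 * A + 1) ^ 2 := by
        rw [hcard]
        exact Finset.sum_le_sum hfib
    _ = ((T.image φ).card : ℝ) * (4 * A + 1) ^ 2 := by rw [Finset.sum_const, nsmul_eq_mul]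
    _ ≤ (544 * X * (t + 1)) * (4 * A + 1) ^ 2 :=
        mul_le_mul_of_nonneg_right himg (by positivity)
    _ ≤ (1088 * X * t) * (4 * A + 1) ^ 2 := by
        apply mul_le_mul_of_nonneg_right _ (by positivity)
        nlinarith
    _ = (4 * A + 1) ^ 2 * (1088 * X * t) := by ring

/-- a disc of radius `3 X` -/
theorem card_annG {om : ℂ} {A : ℝ} (hA : GA om A) {X B : ℝ} (hX : 1 ≤ X)
    (hB : B ≤ 9 * X ^ 2) (z0 : ℂ) (T : Finset (ℤ × ℤ))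
    (h : ∀ w ∈ T, ‖zw om w + z0‖ ^ 2 ≤ B) : (T.card : ℝ) ≤ 49 * A ^ 2 * X ^ 2 := by
  have hA0 := hA.1
  have h1 := card_disc hA z0 (3 * X) (by linarith) T (by
    intro w hw
    apply (pow_le_pow_iff_left₀ (norm_nonneg _) (by linarith) two_ne_zero).1
    have := h w hw
    nlinarith)
  refine h1.trans ?_
  have h2 : 2 * (3 * X) * A + 1 ≤ 7 * A * X := by nlinarith
  have h3 : 0 ≤ 2 * (3 * X) * A + 1 := by positivity
  calc (2 * (3 * X) * A + 1) ^ 2 ≤ (7 * A * X) ^ 2 := pow_le_pow_left₀ h3 h2 2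
    _ = 49 * A ^ 2 * X ^ 2 := by ring

end VG63

end Pool.Agent.Lib.MP_a17b09_nt.MR
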