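import Pool.Agent.Lib.MP_a17b09_nt.MR.VGa63

/-!
Project MRSG, module VG, part b: the Weyl bound on shifted boxes of the lattice `ℤ + ℤ om`.
-/

set_option autoImplicit false

open Finset

namespace Pool.Agent.Lib.MP_a17b09_nt.MR

open Pool.Agent.Lib.MP_a17b09_nt.LP

namespace VG63

open VC63

/-- the constants of the box lemma -/
noncomputable def KA (A : ℝ) (q : ℕ) : ℝ := 2 * A ^ (q + 1) * q.factorial * 4 ^ (q + 1) +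
  A ^ (q + 1) * 2 ^ q * 5 ^ (q + 1) + 8 * (q + 1).factorial * 4 ^ (q + 2) * A ^ (q + 2) +
  2 * A ^ (2 * q + 1) * 2 ^ q * (q + 1) * 4 ^ (q + 2) * 5 ^ (q + 1)

theorem KA_nonneg {A : ℝ} (hA : 0 ≤ A) (q : ℕ) : 0 ≤ KA A q := by
  unfold KA
  positivity

private lemma boxk52 {om : ℂ} {A : ℝ} (s Z : ℕ) (hA0 : 0 < A)
    (hA4 : ∀ x y : ℝ, |x| ≤ A * ‖(x : ℂ) + (y : ℂ) * om‖ ∧ |y| ≤ A * ‖(x : ℂ) + (y : ℂ) * om‖)
    (k' : ℤ × ℤ) :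
    ((((Ico (0 : ℤ) ((Z ^ (s + 1) : ℕ) : ℤ) ×ˢ
          Ico (0 : ℤ) ((Z ^ (s + 1) : ℕ) : ℤ)).filter
          (fun k => ‖zw om (k - k')‖ < (Z : ℝ) ^ s / A)).card : ℕ) : ℝ)
      ≤ (((2 * Z ^ s) ^ 2 : ℕ) : ℝ) := by
  have hsub : (Ico (0 : ℤ) ((Z ^ (s + 1) : ℕ) : ℤ) ×ˢ Ico (0 : ℤ) ((Z ^ (s + 1) : ℕ) : ℤ)).filter
      (fun k => ‖zw om (k - k')‖ < (Z : ℝ) ^ s / A)
      ⊆ (Ico (0 : ℤ) ((Z ^ (s + 1) : ℕ) : ℤ) ×ˢ Ico (0 : ℤ) ((Z ^ (s + 1) : ℕ) : ℤ)).filter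
      (fun k => |(k - k').1| < ((Z ^ s : ℕ) : ℤ) ∧ |(k - k').2| < ((Z ^ s : ℕ) : ℤ)) := by
    intro k hk
    rw [Finset.mem_filter] at hk ⊢
    refine ⟨hk.1, ?_⟩
    have h1 := hA4 ((k - k').1 : ℝ) ((k - k').2 : ℝ)
    have e : (((k - k').1 : ℝ) : ℂ) + (((k - k').2 : ℝ) : ℂ) * om = zw om (k - k') := by
      simp only [zw]
      push_cast
      rfl
    rw [e] at h1
    have h2 := hk.2
    rw [lt_div_iff₀ hA0, mul_comm] at h2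
    have h3 : |((k - k').1 : ℝ)| < (Z : ℝ) ^ s := lt_of_le_of_lt h1.1 h2
    have h4 : |((k - k').2 : ℝ)| < (Z : ℝ) ^ s := lt_of_le_of_lt h1.2 h2
    constructor
    · have : ((|(k - k').1| : ℤ) : ℝ) < (((Z ^ s : ℕ) : ℤ) : ℝ) := by
        push_cast
        exact_mod_cast h3
      exact_mod_cast this
    · have : ((|(k - k').2| : ℤ) : ℝ) < (((Z ^ s : ℕ) : ℤ) : ℝ) := by
        push_cast
        exact_mod_cast h4
      exact_mod_cast this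
  have h5 := le_trans (Finset.card_le_card hsub) (card_close (Z ^ (s + 1)) (Z ^ s) k')
  exact_mod_cast h5

private lemma boxk2_52 (s Z : ℕ) (hZ1 : (1 : ℝ) ≤ Z) (hZ0 : (0 : ℝ) < Z) :
    (((2 * Z ^ s) ^ 2 : ℕ) : ℝ) ≤ 4 * (((Z ^ (s + 1) : ℕ) : ℝ)) ^ 2 / Z := by
  rw [le_div_iff₀ hZ0]
  push_cast
  calc (2 * (Z : ℝ) ^ s) ^ 2 * Z = 4 * (Z : ℝ) ^ (2 * s + 1) := by ring
    _ ≤ 4 * (Z : ℝ) ^ (2 * s + 2) := by
        apply mul_le_mul_of_nonneg_left _ (by norm_num)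
        exact pow_le_pow_right₀ hZ1 (by omega)
    _ = 4 * ((Z : ℝ) ^ (s + 1)) ^ 2 := by
        rw [← pow_mul]
        congr 2
        ring

private lemma boxa52 {A X : ℝ} (q s Z M : ℕ) (hA0 : 0 < A) (hZ0 : (0 : ℝ) < Z)
    (hXpos : 0 < X) (hX : X = (Z : ℝ) ^ (5 * s + 5))
    (hM2r : (M : ℝ) ≤ (Z : ℝ) ^ (4 * (s + 1) * q + 5 * s + 4))
    (hK1 : 2 * A ^ (q + 1) * q.factorial * 4 ^ (q + 1) ≤ Z) :
    2 * ((M : ℝ) * (q.factorial : ℝ) / (X / 4) ^ (q + 1))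
      * (A * ((Z ^ (s + 1) : ℕ) : ℝ)) ^ q * A ≤ 1 := by
  have p1 : 0 ≤ 2 * A ^ (q + 1) * q.factorial * 4 ^ (q + 1) := by positivity
  have e1 : 2 * ((M : ℝ) * (q.factorial : ℝ) / (X / 4) ^ (q + 1))
      * (A * ((Z ^ (s + 1) : ℕ) : ℝ)) ^ q * A
      = (M : ℝ) * (2 * A ^ (q + 1) * q.factorial * 4 ^ (q + 1)) * (Z : ℝ) ^ ((s + 1) * q)
        / X ^ (q + 1) := by
    push_cast
    have e2 : (A * (Z : ℝ) ^ (s + 1)) ^ q = A ^ q * (Z : ℝ) ^ ((s + 1) * q) := by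
      rw [mul_pow, pow_mul]
    rw [div_pow, e2]
    field_simp
    ring
  rw [e1, div_le_one (pow_pos hXpos _)]
  calc (M : ℝ) * (2 * A ^ (q + 1) * q.factorial * 4 ^ (q + 1)) * (Z : ℝ) ^ ((s + 1) * q)
      ≤ (Z : ℝ) ^ (4 * (s + 1) * q + 5 * s + 4) * Z * (Z : ℝ) ^ ((s + 1) * q) := by
        apply mul_le_mul_of_nonneg_right _ (pow_pos hZ0 _).le
        exact mul_le_mul hM2r hK1 p1 (pow_pos hZ0 _).le
    _ = X ^ (q + 1) := by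
        rw [hX, ← pow_succ, ← pow_add, ← pow_mul]
        congr 1
        ring

private lemma boxb52 {A X : ℝ} (q s Z M l : ℕ) (hA0 : 0 < A) (hZ0 : (0 : ℝ) < Z)
    (hXpos : 0 < X) (hX : X = (Z : ℝ) ^ (5 * s + 5))
    (hlM : (Z : ℝ) ^ (4 * (s + 1) * q + q + 5 * s + 7) ≤ l * M)
    (hf1 : (1 : ℝ) ≤ (q.factorial : ℝ))
    (hK2 : A ^ (q + 1) * 2 ^ q * 5 ^ (q + 1) ≤ Z) :
    (Z : ℝ) ≤ (l : ℝ) * ((M : ℝ) * (q.factorial : ℝ) / (5 * X) ^ (q + 1)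
      * ((Z : ℝ) ^ s / A / 2) ^ q / A) := by
  have e1 : (l : ℝ) * ((M : ℝ) * (q.factorial : ℝ) / (5 * X) ^ (q + 1)
      * ((Z : ℝ) ^ s / A / 2) ^ q / A)
      = (l * M) * (q.factorial : ℝ) * (Z : ℝ) ^ (s * q)
        / ((A ^ (q + 1) * 2 ^ q * 5 ^ (q + 1)) * X ^ (q + 1)) := by
    have e2 : ((Z : ℝ) ^ s / A / 2) ^ q = (Z : ℝ) ^ (s * q) / (A ^ q * 2 ^ q) := by
      rw [div_div, div_pow, mul_pow, ← pow_mul]
    rw [e2, mul_pow 5 X]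
    field_simp
    ring
  rw [e1, le_div_iff₀ (by positivity)]
  calc (Z : ℝ) * ((A ^ (q + 1) * 2 ^ q * 5 ^ (q + 1)) * X ^ (q + 1))
      ≤ (Z : ℝ) * (Z * X ^ (q + 1)) := by
        apply mul_le_mul_of_nonneg_left _ hZ0.le
        exact mul_le_mul_of_nonneg_right hK2 (pow_pos hXpos _).le
    _ = (Z : ℝ) ^ (4 * (s + 1) * q + q + 5 * s + 7) * 1 * (Z : ℝ) ^ (s * q) := by
        rw [hX, mul_one, ← pow_mul, ← pow_succ', ← pow_succ', ← pow_add]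
        congr 1
        ring
    _ ≤ (l * M) * (q.factorial : ℝ) * (Z : ℝ) ^ (s * q) := by
        apply mul_le_mul_of_nonneg_right _ (pow_pos hZ0 _).le
        exact mul_le_mul hlM hf1 zero_le_one (le_trans (pow_pos hZ0 _).le hlM)

private lemma boxc52 {A X : ℝ} (q s Z M l : ℕ) (hA0 : 0 < A) (hZ0 : (0 : ℝ) < Z)
    (hXpos : 0 < X) (hX : X = (Z : ℝ) ^ (5 * s + 5))
    (hlM2 : (l : ℝ) * M ≤ 2 * (Z : ℝ) ^ (4 * (s + 1) * q + q + 5 * s + 7))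
    (hlq : (l : ℝ) * (Z : ℝ) ^ q ≤ 2 * (Z : ℝ) ^ (5 * s + 1))
    (hK3 : 8 * (q + 1).factorial * 4 ^ (q + 2) * A ^ (q + 2) ≤ Z) :
    2 * ((M : ℝ) * ((q + 1).factorial : ℝ) / (X / 4) ^ (q + 2))
      * (A * ((Z ^ (s + 1) : ℕ) : ℝ)) ^ q * (A * (l : ℝ)) ^ 2 * Z ≤ 1 := by
  have e1 : 2 * ((M : ℝ) * ((q + 1).factorial : ℝ) / (X / 4) ^ (q + 2))
      * (A * ((Z ^ (s + 1) : ℕ) : ℝ)) ^ q * (A * (l : ℝ)) ^ 2 * Z
      = (l * M) * (l * (Z : ℝ) ^ q) * (2 * ((q + 1).factorial : ℝ) * 4 ^ (q + 2) * A ^ (q + 2))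
        * (Z : ℝ) ^ ((s + 1) * q + 1) / (X ^ (q + 2) * (Z : ℝ) ^ q) := by
    push_cast
    have e2 : (A * (Z : ℝ) ^ (s + 1)) ^ q = A ^ q * (Z : ℝ) ^ ((s + 1) * q) := by
      rw [mul_pow, pow_mul]
    rw [div_pow, e2, pow_succ (Z : ℝ) ((s + 1) * q), mul_pow A (l : ℝ), pow_add A q 2]
    field_simp
  rw [e1, div_le_one (mul_pos (pow_pos hXpos _) (pow_pos hZ0 _))]
  calc (l * M) * (l * (Z : ℝ) ^ q) * (2 * ((q + 1).factorial : ℝ) * 4 ^ (q + 2) * A ^ (q + 2))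
        * (Z : ℝ) ^ ((s + 1) * q + 1)
      ≤ (2 * (Z : ℝ) ^ (4 * (s + 1) * q + q + 5 * s + 7)) * (2 * (Z : ℝ) ^ (5 * s + 1))
        * (2 * ((q + 1).factorial : ℝ) * 4 ^ (q + 2) * A ^ (q + 2))
        * (Z : ℝ) ^ ((s + 1) * q + 1) := by
        apply mul_le_mul_of_nonneg_right _ (pow_pos hZ0 _).le
        apply mul_le_mul_of_nonneg_right _ (by positivity)
        exact mul_le_mul hlM2 hlq (by positivity) (by positivity)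
    _ = (8 * ((q + 1).factorial : ℝ) * 4 ^ (q + 2) * A ^ (q + 2))
        * (Z : ℝ) ^ (5 * (s + 1) * q + q + 10 * s + 9) := by
        have e3 : (Z : ℝ) ^ (5 * (s + 1) * q + q + 10 * s + 9)
            = (Z : ℝ) ^ (4 * (s + 1) * q + q + 5 * s + 7) * (Z : ℝ) ^ (5 * s + 1)
              * (Z : ℝ) ^ ((s + 1) * q + 1) := by
          rw [← pow_add, ← pow_add]
          congr 1
          ring
        rw [e3]
        ring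
    _ ≤ Z * (Z : ℝ) ^ (5 * (s + 1) * q + q + 10 * s + 9) :=
        mul_le_mul_of_nonneg_right hK3 (pow_pos hZ0 _).le
    _ = X ^ (q + 2) * (Z : ℝ) ^ q := by
        rw [hX, ← pow_mul, ← pow_add, ← pow_succ']
        congr 1
        ring

private lemma boxd1_52 {A X : ℝ} (q s Z M j : ℕ) (hA0 : 0 < A) (hZ0 : (0 : ℝ) < Z)
    (hXpos : 0 < X) :
    2 * (A * ((Z ^ (s + 1) : ℕ) : ℝ)) ^ (j + 1)
      * ((M : ℝ) * ((q + 1).factorial : ℝ) / (X / 4) ^ (q + 2))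
      = (2 * A ^ (2 * j + 1) * 2 ^ j * (q + 1) * 4 ^ (q + 2) * 5 ^ (q + 1))
        * (Z : ℝ) ^ (s + 1 + j) * (1 / X) * (((Z : ℝ) ^ s / A / 2) ^ j
          * ((M : ℝ) * (q.factorial : ℝ) / (5 * X) ^ (q + 1))) := by
  rw [Nat.factorial_succ]
  push_cast
  have e2 : ((Z : ℝ) ^ s / A / 2) ^ j = (Z : ℝ) ^ (s * j) / (A ^ j * 2 ^ j) := by
    rw [div_div, div_pow, mul_pow, ← pow_mul]
  have e3 : (A * (Z : ℝ) ^ (s + 1)) ^ (j + 1)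
      = A ^ (j + 1) * ((Z : ℝ) ^ (s + 1 + j) * (Z : ℝ) ^ (s * j)) := by
    rw [mul_pow, ← pow_mul, ← pow_add]
    congr 2
    ring
  have e4 : A ^ (2 * j + 1) = A ^ (j + 1) * A ^ j := by
    rw [← pow_add]
    congr 1
    ring
  rw [e2, e3, e4, div_pow X 4, mul_pow 5 X, pow_succ X (q + 1)]
  field_simp

private lemma boxd2_52 {A X : ℝ} (q s Z j : ℕ) (hA0 : 0 < A) (hA1' : 1 ≤ A)
    (hZ1 : (1 : ℝ) ≤ Z) (hZ0 : (0 : ℝ) < Z) (hXpos : 0 < X) (hX : X = (Z : ℝ) ^ (5 * s + 5))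
    (hqs : q ≤ s) (hj : j ≤ q)
    (hK4 : 2 * A ^ (2 * q + 1) * 2 ^ q * (q + 1) * 4 ^ (q + 2) * 5 ^ (q + 1) ≤ Z) :
    (2 * A ^ (2 * j + 1) * 2 ^ j * (q + 1) * 4 ^ (q + 2) * 5 ^ (q + 1))
      * (Z : ℝ) ^ (s + 1 + j) * (1 / X) ≤ 1 := by
  rw [mul_one_div, div_le_one hXpos, hX]
  have hj1 : A ^ (2 * j + 1) ≤ A ^ (2 * q + 1) := pow_le_pow_right₀ hA1' (by omega)
  have hj2 : (2 : ℝ) ^ j ≤ 2 ^ q := pow_le_pow_right₀ (by norm_num) (by omega)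
  have hj3 : 2 * A ^ (2 * j + 1) * 2 ^ j * (q + 1) * 4 ^ (q + 2) * 5 ^ (q + 1)
      ≤ 2 * A ^ (2 * q + 1) * 2 ^ q * (q + 1) * 4 ^ (q + 2) * 5 ^ (q + 1) := by
    apply mul_le_mul_of_nonneg_right _ (by positivity)
    apply mul_le_mul_of_nonneg_right _ (by positivity)
    apply mul_le_mul_of_nonneg_right _ (by positivity)
    apply mul_le_mul _ hj2 (by positivity) (by positivity)
    exact mul_le_mul_of_nonneg_left hj1 two_pos.le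
  calc (2 * A ^ (2 * j + 1) * 2 ^ j * (q + 1) * 4 ^ (q + 2) * 5 ^ (q + 1))
        * (Z : ℝ) ^ (s + 1 + j)
      ≤ Z * (Z : ℝ) ^ (s + 1 + j) :=
        mul_le_mul_of_nonneg_right (hj3.trans hK4) (pow_pos hZ0 _).le
    _ = (Z : ℝ) ^ (s + 2 + j) := by ring
    _ ≤ (Z : ℝ) ^ (5 * s + 5) := pow_le_pow_right₀ hZ1 (by omega)

private lemma boxmem52 {X : ℝ} {u c z0 : ℂ} (hXpos : 0 < X) (hu : ‖u‖ = 1)
    (huc : u * c = (‖c‖ : ℂ)) (hc1 : X ≤ ‖c‖) (hc2 : ‖c‖ ≤ 3 * X) :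
    ∀ z ∈ Metric.ball (c - z0) (X / 2),
      X / 4 < (u * (z + z0)).re ∧ X / 4 < ‖z + z0‖ ∧ ‖z + z0‖ < 5 * X := by
  intro z hz
  rw [mem_ball_iff_norm] at hz
  have e1 : z - (c - z0) = (z + z0) - c := by ring
  rw [e1] at hz
  have h1 : u * (z + z0) = (‖c‖ : ℂ) + u * ((z + z0) - c) := by
    rw [mul_sub, huc]
    ring
  have h2 : ‖u * ((z + z0) - c)‖ < X / 2 := by rw [norm_mul, hu, one_mul]; exact hz
  have h3 : (u * (z + z0)).re = ‖c‖ + (u * ((z + z0) - c)).re := by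
    rw [h1, Complex.add_re, Complex.ofReal_re]
  have h4 := (abs_le.1 (Complex.abs_re_le_norm (u * ((z + z0) - c)))).1
  have h5 : X / 4 < (u * (z + z0)).re := by rw [h3]; linarith
  refine ⟨h5, ?_, ?_⟩
  · refine lt_of_lt_of_le h5 ((Complex.re_le_norm _).trans ?_)
    rw [norm_mul, hu, one_mul]
  · have h6 : ‖z + z0‖ ≤ ‖(z + z0) - c‖ + ‖c‖ := by
      have := norm_add_le ((z + z0) - c) c
      rwa [sub_add_cancel] at this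
    linarith

private lemma boxl52 (q s Z M : ℕ) (hZn1 : 1 ≤ Z) (hMpos : 0 < M)
    (hM2 : M ≤ Z ^ (4 * (s + 1) * q + 5 * s + 4)) :
    (Z : ℝ) ^ (4 * (s + 1) * q + q + 5 * s + 7)
        ≤ ((Z ^ (4 * (s + 1) * q + q + 5 * s + 7) / M + 1 : ℕ) : ℝ) * M ∧
      ((Z ^ (4 * (s + 1) * q + q + 5 * s + 7) / M + 1 : ℕ) : ℝ) * M
        ≤ 2 * (Z : ℝ) ^ (4 * (s + 1) * q + q + 5 * s + 7) := by
  constructor
  · have h1 := Nat.lt_div_mul_add (a := Z ^ (4 * (s + 1) * q + q + 5 * s + 7)) hMpos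
    have h2 : Z ^ (4 * (s + 1) * q + q + 5 * s + 7)
        ≤ (Z ^ (4 * (s + 1) * q + q + 5 * s + 7) / M + 1) * M := by
      rw [add_mul, one_mul]
      exact h1.le
    exact_mod_cast h2
  · have h1 : Z ^ (4 * (s + 1) * q + q + 5 * s + 7) / M * M
        ≤ Z ^ (4 * (s + 1) * q + q + 5 * s + 7) := Nat.div_mul_le_self _ _
    have h2 : M ≤ Z ^ (4 * (s + 1) * q + q + 5 * s + 7) :=
      le_trans hM2 (Nat.pow_le_pow_right hZn1 (by omega))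
    have h3 : (Z ^ (4 * (s + 1) * q + q + 5 * s + 7) / M + 1) * M
        ≤ 2 * Z ^ (4 * (s + 1) * q + q + 5 * s + 7) := by
      rw [add_mul, one_mul, two_mul]
      exact Nat.add_le_add h1 h2
    exact_mod_cast h3

private lemma boxlq52 (q s Z M l : ℕ) (hZ0 : (0 : ℝ) < Z)
    (hM1r : (Z : ℝ) ^ (4 * (s + 1) * q + 2 * q + 6) ≤ M)
    (hlM2 : (l : ℝ) * M ≤ 2 * (Z : ℝ) ^ (4 * (s + 1) * q + q + 5 * s + 7)) :
    (l : ℝ) * (Z : ℝ) ^ q ≤ 2 * (Z : ℝ) ^ (5 * s + 1) := by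
  have hp : (0 : ℝ) < (Z : ℝ) ^ (4 * (s + 1) * q + q + 6) := pow_pos hZ0 _
  refine le_of_mul_le_mul_right ?_ hp
  calc (l : ℝ) * (Z : ℝ) ^ q * (Z : ℝ) ^ (4 * (s + 1) * q + q + 6)
      = l * (Z : ℝ) ^ (4 * (s + 1) * q + 2 * q + 6) := by ring
    _ ≤ l * M := mul_le_mul_of_nonneg_left hM1r (Nat.cast_nonneg _)
    _ ≤ 2 * (Z : ℝ) ^ (4 * (s + 1) * q + q + 5 * s + 7) := hlM2
    _ = 2 * (Z : ℝ) ^ (5 * s + 1) * (Z : ℝ) ^ (4 * (s + 1) * q + q + 6) := by ring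

private lemma boxlZ52 (s Z l : ℕ) (hZ2 : (2 : ℝ) ≤ Z) (hZ0 : (0 : ℝ) < Z)
    (hl2 : (l : ℝ) ≤ 2 * (Z : ℝ) ^ (5 * s + 1)) : (l : ℝ) * Z ≤ (Z : ℝ) ^ (5 * s + 3) := by
  calc (l : ℝ) * Z ≤ 2 * (Z : ℝ) ^ (5 * s + 1) * Z := mul_le_mul_of_nonneg_right hl2 hZ0.le
    _ ≤ Z * (Z : ℝ) ^ (5 * s + 1) * Z := by
        apply mul_le_mul_of_nonneg_right _ hZ0.le
        exact mul_le_mul_of_nonneg_right hZ2 (pow_pos hZ0 _).le
    _ = (Z : ℝ) ^ (5 * s + 3) := by ring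

private lemma boxK52 {A : ℝ} (q Z : ℕ) (hA0 : 0 < A) (hZ : KA A q ≤ Z) :
    2 * A ^ (q + 1) * q.factorial * 4 ^ (q + 1) ≤ Z ∧
    A ^ (q + 1) * 2 ^ q * 5 ^ (q + 1) ≤ Z ∧
    8 * (q + 1).factorial * 4 ^ (q + 2) * A ^ (q + 2) ≤ Z ∧
    2 * A ^ (2 * q + 1) * 2 ^ q * (q + 1) * 4 ^ (q + 2) * 5 ^ (q + 1) ≤ Z := by
  have p1 : 0 ≤ 2 * A ^ (q + 1) * q.factorial * 4 ^ (q + 1) := by positivity
  have p2 : 0 ≤ A ^ (q + 1) * 2 ^ q * 5 ^ (q + 1) := by positivity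
  have p3 : 0 ≤ 8 * (q + 1).factorial * 4 ^ (q + 2) * A ^ (q + 2) := by positivity
  have p4 : 0 ≤ 2 * A ^ (2 * q + 1) * 2 ^ q * (q + 1) * 4 ^ (q + 2) * 5 ^ (q + 1) := by
    positivity
  unfold KA at hZ
  exact ⟨le_trans (le_trans (le_trans (le_add_of_nonneg_right p2) (le_add_of_nonneg_right p3))
      (le_add_of_nonneg_right p4)) hZ,
    le_trans (le_trans (le_trans (le_add_of_nonneg_left p1) (le_add_of_nonneg_right p3))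
      (le_add_of_nonneg_right p4)) hZ,
    le_trans (le_trans (le_add_of_nonneg_left (add_nonneg p1 p2))
      (le_add_of_nonneg_right p4)) hZ,
    le_trans (le_add_of_nonneg_left (add_nonneg (add_nonneg p1 p2) p3)) hZ⟩

private lemma boxZ2_52 {A : ℝ} (q Z : ℕ) (hA1' : 1 ≤ A)
    (hK2 : A ^ (q + 1) * 2 ^ q * 5 ^ (q + 1) ≤ Z) : (2 : ℝ) ≤ Z := by
  refine le_trans ?_ hK2
  have h1 : (1 : ℝ) ≤ 2 ^ q := one_le_pow₀ (by norm_num)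
  have h2 : (1 : ℝ) ≤ A ^ (q + 1) := one_le_pow₀ hA1'
  have h3 : (5 : ℝ) ≤ 5 ^ (q + 1) := by
    calc (5 : ℝ) = 5 ^ 1 := by norm_num
      _ ≤ 5 ^ (q + 1) := pow_le_pow_right₀ (by norm_num) (by omega)
  have h4 : (1 : ℝ) ≤ A ^ (q + 1) * 2 ^ q := one_le_mul_of_one_le_of_one_le h2 h1
  have h5 : (1 : ℝ) * 5 ≤ (A ^ (q + 1) * 2 ^ q) * 5 ^ (q + 1) :=
    mul_le_mul h4 h3 (by norm_num) (le_trans zero_le_one h4)
  linarith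

theorem boxG {om : ℂ} {A : ℝ} (hGA : GA om A) (q s Z : ℕ) (hqs : q ≤ s) (hZ : KA A q ≤ Z)
    (M : ℕ) (hM1 : Z ^ (4 * (s + 1) * q + 2 * q + 6) ≤ M)
    (hM2 : M ≤ Z ^ (4 * (s + 1) * q + 5 * s + 4)) (z0 c : ℂ) (hc1 : (Z : ℝ) ^ (5 * s + 5) ≤ ‖c‖)
    (hc2 : ‖c‖ ≤ 3 * (Z : ℝ) ^ (5 * s + 5)) (x0 x1 y0 y1 : ℤ)
    (hx : x1 ≤ x0 + ((Z ^ (5 * s + 3) : ℕ) : ℤ)) (hy : y1 ≤ y0 + ((Z ^ (5 * s + 3) : ℕ) : ℤ))
    (hR : ∀ w ∈ rect x0 x1 y0 y1, ‖zw om w + z0 - c‖ < (Z : ℝ) ^ (5 * s + 5) / 2) :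
    (‖∑ w ∈ rect x0 x1 y0 y1, ((zw om w + z0) / (‖zw om w + z0‖ : ℂ)) ^ M‖
      / ((Z : ℝ) ^ (5 * s + 3)) ^ 2) ^ (2 ^ q) ≤ Dw 4 7 q / Z := by
  obtain ⟨hA120, hA1, hA3, hA4⟩ := hGA
  have hA1' : 1 ≤ A := le_trans (by norm_num) hA120
  have hA0 : 0 < A := lt_of_lt_of_le one_pos hA1'
  have hfq : (0 : ℝ) < (q.factorial : ℝ) := by exact_mod_cast q.factorial_pos
  have hfq1 : (0 : ℝ) < ((q + 1).factorial : ℝ) := by exact_mod_cast (q + 1).factorial_pos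
  have hf1 : (1 : ℝ) ≤ (q.factorial : ℝ) := by exact_mod_cast q.factorial_pos
  obtain ⟨hK1, hK2, hK3, hK4⟩ := boxK52 q Z hA0 hZ
  have hZ2 : (2 : ℝ) ≤ Z := boxZ2_52 q Z hA1' hK2
  have hZ1 : (1 : ℝ) ≤ Z := le_trans one_le_two hZ2
  have hZ0 : (0 : ℝ) < Z := lt_of_lt_of_le two_pos hZ2
  have hZn1 : 1 ≤ Z := by exact_mod_cast hZ1
  set X : ℝ := (Z : ℝ) ^ (5 * s + 5) with hX
  have hXpos : 0 < X := by rw [hX]; exact pow_pos hZ0 _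
  have hcpos : 0 < ‖c‖ := lt_of_lt_of_le hXpos hc1
  -- the rotation
  set u : ℂ := (starRingEnd ℂ) c / (‖c‖ : ℂ) with hu_def
  have hu : ‖u‖ = 1 := by
    rw [hu_def, norm_div, Complex.norm_conj, Complex.norm_real, norm_norm, div_self hcpos.ne']
  have huc : u * c = (‖c‖ : ℂ) := by
    rw [hu_def, div_mul_eq_mul_div, mul_comm, Complex.mul_conj, Complex.normSq_eq_norm_sq]
    have h2 : (‖c‖ : ℂ) ≠ 0 := by exact_mod_cast hcpos.ne'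
    push_cast
    rw [sq, mul_div_assoc, div_self h2, mul_one]
  -- the region
  set Om' : Set ℂ := Metric.ball (c - z0) (X / 2) with hOm'
  have hOmc : Convex ℝ Om' := convex_ball _ _
  have hmem : ∀ z ∈ Om', X / 4 < (u * (z + z0)).re ∧ X / 4 < ‖z + z0‖ ∧ ‖z + z0‖ < 5 * X :=
    boxmem52 hXpos hu huc hc1 hc2
  have hX4 : 0 < X / 4 := div_pos hXpos four_pos
  have hmemR : ∀ w ∈ rect x0 x1 y0 y1, zw om w ∈ Om' := by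
    intro w hw
    rw [hOm', mem_ball_iff_norm]
    have e1 : zw om w - (c - z0) = (zw om w + z0) - c := by ring
    rw [e1]
    exact hR w hw
  have hsum : ∑ w ∈ rect x0 x1 y0 y1, ph (G M u z0 0 (zw om w)).im
      = u ^ M * ∑ w ∈ rect x0 x1 y0 y1, ((zw om w + z0) / (‖zw om w + z0‖ : ℂ)) ^ M := by
    rw [Finset.mul_sum]
    apply Finset.sum_congr rfl
    intro w hw
    apply G_phase M u z0 hu
    intro h
    have h1 := (hmem _ (hmemR w hw)).2.1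
    rw [h, norm_zero] at h1
    exact lt_asymm hX4 h1
  have hnorm : ‖∑ w ∈ rect x0 x1 y0 y1, ((zw om w + z0) / (‖zw om w + z0‖ : ℂ)) ^ M‖
      = ‖∑ w ∈ rect x0 x1 y0 y1, ph (G M u z0 0 (zw om w)).im‖ := by
    rw [hsum, norm_mul, norm_pow, hu, one_pow, one_mul]
  rw [hnorm]
  -- the parameters
  have hMpos : 0 < M := lt_of_lt_of_le (pow_pos hZn1 _) hM1
  obtain ⟨hlM, hlM2⟩ := boxl52 q s Z M hZn1 hMpos hM2
  have hlpos : 1 ≤ Z ^ (4 * (s + 1) * q + q + 5 * s + 7) / M + 1 := Nat.le_add_left 1 _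
  generalize Z ^ (4 * (s + 1) * q + q + 5 * s + 7) / M + 1 = l at hlM hlM2 hlpos
  have hMr : (0 : ℝ) < M := by exact_mod_cast hMpos
  have hM1r : (Z : ℝ) ^ (4 * (s + 1) * q + 2 * q + 6) ≤ M := by exact_mod_cast hM1
  have hM2r : (M : ℝ) ≤ (Z : ℝ) ^ (4 * (s + 1) * q + 5 * s + 4) := by exact_mod_cast hM2
  have hlr : (1 : ℝ) ≤ l := by exact_mod_cast hlpos
  have hlq : (l : ℝ) * (Z : ℝ) ^ q ≤ 2 * (Z : ℝ) ^ (5 * s + 1) :=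
    boxlq52 q s Z M l hZ0 hM1r hlM2
  have hl2 : (l : ℝ) ≤ 2 * (Z : ℝ) ^ (5 * s + 1) :=
    le_trans (le_mul_of_one_le_right (Nat.cast_nonneg _) (one_le_pow₀ hZ1)) hlq
  have hlZ : (l : ℝ) * Z ≤ (Z : ℝ) ^ (5 * s + 3) := boxlZ52 s Z l hZ2 hZ0 hl2
  have hlampos : 0 < (M : ℝ) * (q.factorial : ℝ) / (5 * X) ^ (q + 1) :=
    div_pos (mul_pos hMr hfq) (pow_pos (mul_pos (by norm_num) hXpos) _)
  have hLamnn : 0 ≤ (M : ℝ) * (q.factorial : ℝ) / (X / 4) ^ (q + 1) :=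
    (div_pos (mul_pos hMr hfq) (pow_pos hX4 _)).le
  have hmunn : 0 ≤ (M : ℝ) * ((q + 1).factorial : ℝ) / (X / 4) ^ (q + 2) :=
    (div_pos (mul_pos hMr hfq1) (pow_pos hX4 _)).le
  have hH1 : (0 : ℝ) < (Z : ℝ) ^ s / A := div_pos (pow_pos hZ0 _) hA0
  have hgood := chainC om A hA1' hA1 hA3 Z ((Z : ℝ) ^ s / A) hZ1 hH1 (Z ^ (s + 1)) l
    (Z ^ (5 * s + 3)) hlpos (by push_cast; exact hlZ) q (G M u z0) Om'
    ((M : ℝ) * (q.factorial : ℝ) / (5 * X) ^ (q + 1))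
    ((M : ℝ) * (q.factorial : ℝ) / (X / 4) ^ (q + 1))
    ((M : ℝ) * ((q + 1).factorial : ℝ) / (X / 4) ^ (q + 2)) x0 x1 y0 y1
    hOmc hlampos hLamnn hmunn ?_ ?_ ?_ ?_ hx hy hmemR ?_ ?_ ?_ ?_
  · have hH : Z ^ (s + 1) ≤ Z ^ (5 * s + 3) := Nat.pow_le_pow_right hZn1 (by omega)
    have key := abs_ind (Z : ℝ) hZ1 (Z ^ (s + 1)) (Z ^ (5 * s + 3)) (Nat.one_le_pow _ _ hZn1) hH
      (fun h => ‖zw om h‖ < (Z : ℝ) ^ s / A) 4 7 (by norm_num) (by norm_num) ?_ q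
      (fun w => (G M u z0 0 (zw om w)).im) x0 x1 y0 y1 hx hy hgood
    · have e : (((Z ^ (5 * s + 3) : ℕ) : ℝ)) = (Z : ℝ) ^ (5 * s + 3) := by push_cast; rfl
      rw [e] at key
      exact key
    · intro k'
      refine le_trans (le_of_eq ?_) (le_trans (boxk52 s Z hA0 hA4 k') ?_)
      · congr!
      · exact boxk2_52 s Z hZ1 hZ0
  · intro k z hz
    apply G_deriv
    exact lt_trans hX4 (hmem z hz).1
  · intro z hz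
    obtain ⟨_, h1, h2⟩ := hmem z hz
    rw [G_norm M u z0 hu]
    exact div_le_div_of_nonneg_left (mul_pos hMr hfq).le (pow_pos (lt_trans hX4 h1) _)
      (pow_le_pow_left₀ (norm_nonneg _) h2.le _)
  · intro z hz
    obtain ⟨_, h1, h2⟩ := hmem z hz
    rw [G_norm M u z0 hu]
    exact div_le_div_of_nonneg_left (mul_pos hMr hfq).le (pow_pos hX4 _)
      (pow_le_pow_left₀ hX4.le h1.le _)
  · intro z hz
    obtain ⟨_, h1, h2⟩ := hmem z hz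
    rw [G_norm M u z0 hu]
    exact div_le_div_of_nonneg_left (mul_pos hMr hfq1).le (pow_pos hX4 _)
      (pow_le_pow_left₀ hX4.le h1.le _)
  · -- (a)
    exact boxa52 q s Z M hA0 hZ0 hXpos hX hM2r hK1
  · -- (b)
    exact boxb52 q s Z M l hA0 hZ0 hXpos hX hlM hf1 hK2
  · -- (c)
    exact boxc52 q s Z M l hA0 hZ0 hXpos hX hlM2 hlq hK3
  · -- (d)
    intro j hj
    rw [boxd1_52 q s Z M j hA0 hZ0 hXpos]
    have h2 := boxd2_52 q s Z j hA0 hA1' hZ1 hZ0 hXpos hX hqs (by omega) hK4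
    calc _ ≤ 1 * (((Z : ℝ) ^ s / A / 2) ^ j
            * ((M : ℝ) * (q.factorial : ℝ) / (5 * X) ^ (q + 1))) :=
          mul_le_mul_of_nonneg_right h2 (mul_nonneg (pow_nonneg (div_nonneg hH1.le
            two_pos.le) _) hlampos.le)
      _ = ((Z : ℝ) ^ s / A / 2) ^ j
            * ((M : ℝ) * (q.factorial : ℝ) / (5 * X) ^ (q + 1)) := one_mul _

/-- the constant for all orders up to `Q` -/
noncomputable def KAQ (A : ℝ) (Q : ℕ) : ℝ := ∑ q ∈ range (Q + 1), KA A q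

theorem KA_le_KAQ {A : ℝ} (hA : 0 ≤ A) {q Q : ℕ} (h : q ≤ Q) : KA A q ≤ KAQ A Q :=
  Finset.single_le_sum (f := KA A) (fun i _ => KA_nonneg hA i)
    (by simpa using Nat.lt_succ_of_le h)

/-- the box bound, uniform in the order -/
theorem boxGU {om : ℂ} {A : ℝ} (hGA : GA om A) (Q s Z : ℕ) (hs : 2 * Q + 8 ≤ s)
    (hZ : KAQ A Q ≤ Z) (hZ1 : 1 ≤ Z) (M : ℕ) (hM1 : Z ^ 6 ≤ M)
    (hM2 : M ≤ Z ^ (4 * (s + 1) * Q + 5 * s + 4)) (z0 c : ℂ)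
    (hc1 : (Z : ℝ) ^ (5 * s + 5) ≤ ‖c‖)
    (hc2 : ‖c‖ ≤ 3 * (Z : ℝ) ^ (5 * s + 5)) (x0 x1 y0 y1 : ℤ)
    (hx : x1 ≤ x0 + ((Z ^ (5 * s + 3) : ℕ) : ℤ)) (hy : y1 ≤ y0 + ((Z ^ (5 * s + 3) : ℕ) : ℤ))
    (hR : ∀ w ∈ rect x0 x1 y0 y1, ‖zw om w + z0 - c‖ < (Z : ℝ) ^ (5 * s + 5) / 2) :
    ‖∑ w ∈ rect x0 x1 y0 y1, ((zw om w + z0) / (‖zw om w + z0‖ : ℂ)) ^ M‖
      ≤ ((Z : ℝ) ^ (5 * s + 3)) ^ 2 * (Dw 4 7 Q / Z) ^ ((1 : ℝ) / 2 ^ Q) := by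
  have hA0 : 0 ≤ A := by linarith [hGA.1]
  have hZr : (1 : ℝ) ≤ Z := by exact_mod_cast hZ1
  have hZ0 : (0 : ℝ) < Z := by linarith
  obtain ⟨q, hq, hq1, hq2⟩ := choose_q s Z M hZ1 hM1 Q hs hM2
  have h := boxG hGA q s Z (by omega) (le_trans (KA_le_KAQ hA0 hq) hZ) M hq1 hq2 z0 c hc1 hc2
    x0 x1 y0 y1 hx hy hR
  set T : ℝ := ‖∑ w ∈ rect x0 x1 y0 y1, ((zw om w + z0) / (‖zw om w + z0‖ : ℂ)) ^ M‖
    / ((Z : ℝ) ^ (5 * s + 3)) ^ 2 with hT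
  have hL : (0 : ℝ) < ((Z : ℝ) ^ (5 * s + 3)) ^ 2 := by positivity
  have hT0 : 0 ≤ T := by rw [hT]; positivity
  have hT1 : T ≤ 1 := by
    rw [hT, div_le_one hL]
    refine (norm_sum_le _ _).trans ?_
    refine (Finset.sum_le_sum (fun w _ => term_norm_le (zw om w + z0) M)).trans ?_
    rw [Finset.sum_const, nsmul_eq_mul, mul_one]
    have h := card_rect_le (l0 := Z ^ (5 * s + 3)) hx hy
    exact_mod_cast h
  have hTQ : T ^ (2 ^ Q) ≤ Dw 4 7 Q / Z := by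
    have e1 : T ^ (2 ^ Q) ≤ T ^ (2 ^ q) :=
      pow_le_pow_of_le_one hT0 hT1 (Nat.pow_le_pow_right (by norm_num) hq)
    have e2 : Dw 4 7 q / Z ≤ Dw 4 7 Q / Z :=
      div_le_div_of_nonneg_right (Dw_mono (by norm_num) (by norm_num) hq) hZ0.le
    linarith
  have hT2 : T ≤ (Dw 4 7 Q / Z) ^ ((1 : ℝ) / 2 ^ Q) := by
    have h3 := Real.rpow_le_rpow (pow_nonneg hT0 _) hTQ
      (show (0 : ℝ) ≤ (1 : ℝ) / 2 ^ Q by positivity)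
    have h4 : (T ^ (2 ^ Q)) ^ ((1 : ℝ) / 2 ^ Q) = T := by
      rw [← Real.rpow_natCast T (2 ^ Q), ← Real.rpow_mul hT0]
      push_cast
      rw [mul_one_div, div_self (by positivity), Real.rpow_one]
    rwa [h4] at h3
  have h5 : ‖∑ w ∈ rect x0 x1 y0 y1, ((zw om w + z0) / (‖zw om w + z0‖ : ℂ)) ^ M‖
      = ((Z : ℝ) ^ (5 * s + 3)) ^ 2 * T := by
    rw [hT, mul_div_assoc']
    field_simp
  rw [h5]
  exact mul_le_mul_of_nonneg_left hT2 hL.le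

end VG63

end Pool.Agent.Lib.MP_a17b09_nt.MR
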