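import Pool.Agent.Lib.MP_a17b09_nt.MR.VGa63

/-!
Project MRSG, module VG, part g: the terms of the sums.
-/

set_option autoImplicit false

open Finset

namespace Pool.Agent.Lib.MP_a17b09_nt.MR

open Pool.Agent.Lib.MP_a17b09_nt.LP

namespace VG63

open VC63

/-- the term -/
noncomputable def fg (M : ℕ) (om z0 : ℂ) (w : ℤ × ℤ) : ℂ :=
  ((zw om w + z0) / (‖zw om w + z0‖ : ℂ)) ^ M

theorem fg_le (M : ℕ) (om z0 : ℂ) (w : ℤ × ℤ) : ‖fg M om z0 w‖ ≤ 1 := term_norm_le _ _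

end VG63

end Pool.Agent.Lib.MP_a17b09_nt.MR
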