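import Pool.Agent.Lib.MP_a17b09_nt.MR.VGb63
import Pool.Agent.Lib.MP_a17b09_nt.MR.VGg63

/-!
Project MRSG, module VG, part c: large frequencies on an annulus of the lattice `ℤ + ℤ om`.
-/

set_option autoImplicit false

open Finset

namespace Pool.Agent.Lib.MP_a17b09_nt.MR

open Pool.Agent.Lib.MP_a17b09_nt.LP

namespace VG63

open VC63

theorem bx_dist {om : ℂ} {A : ℝ} (hA : GA om A) (l : ℕ) (k w w' : ℤ × ℤ) (hw : w ∈ bx l k)
    (hw' : w' ∈ bx l k) : ‖zw om w - zw om w'‖ ≤ A * l := by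
  have e : zw om w - zw om w' = zw om (w - w') := by
    simp only [zw, Prod.fst_sub, Prod.snd_sub]
    push_cast
    ring
  unfold bx at hw hw'
  rw [mem_rect] at hw hw'
  have a1 : ((k.1 * l : ℤ) : ℝ) ≤ w.1 := by exact_mod_cast hw.1.1
  have a2 : (w.1 : ℝ) ≤ ((k.1 * l + l : ℤ) : ℝ) := by exact_mod_cast hw.1.2.le
  have a3 : ((k.2 * l : ℤ) : ℝ) ≤ w.2 := by exact_mod_cast hw.2.1
  have a4 : (w.2 : ℝ) ≤ ((k.2 * l + l : ℤ) : ℝ) := by exact_mod_cast hw.2.2.le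
  have b1 : ((k.1 * l : ℤ) : ℝ) ≤ w'.1 := by exact_mod_cast hw'.1.1
  have b2 : (w'.1 : ℝ) ≤ ((k.1 * l + l : ℤ) : ℝ) := by exact_mod_cast hw'.1.2.le
  have b3 : ((k.2 * l : ℤ) : ℝ) ≤ w'.2 := by exact_mod_cast hw'.2.1
  have b4 : (w'.2 : ℝ) ≤ ((k.2 * l + l : ℤ) : ℝ) := by exact_mod_cast hw'.2.2.le
  push_cast at a1 a2 a3 a4 b1 b2 b3 b4
  rw [e]
  apply norm_zw_le om (w - w') A l hA.2.1 (Nat.cast_nonneg _)
  · rw [Prod.fst_sub]
    push_cast
    rw [abs_le]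
    constructor <;> linarith
  · rw [Prod.snd_sub]
    push_cast
    rw [abs_le]
    constructor <;> linarith

/-- large frequencies -/
theorem bigG {om : ℂ} {A : ℝ} (hGA : GA om A) (Q s Z : ℕ) (hs : 2 * Q + 8 ≤ s)
    (hZ : KAQ A Q ≤ Z) (hZA : 8 * A ≤ Z) (M : ℕ)
    (hM1 : Z ^ 6 ≤ M) (hM2 : M ≤ Z ^ (4 * (s + 1) * Q + 5 * s + 4)) (z0 : ℂ) (A' B : ℝ)
    (hA' : ((Z : ℝ) ^ (5 * s + 5)) ^ 2 ≤ A') (hAB : A' ≤ B)
    (hB : B ≤ 9 * ((Z : ℝ) ^ (5 * s + 5)) ^ 2)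
    (W : Finset (ℤ × ℤ))
    (hW : ∀ w, w ∈ W ↔ A' < ‖zw om w + z0‖ ^ 2 ∧ ‖zw om w + z0‖ ^ 2 ≤ B) :
    ‖∑ w ∈ W, fg M om z0 w‖
      ≤ 49 * A ^ 2 * ((Z : ℝ) ^ (5 * s + 5)) ^ 2 * (Dw 4 7 Q / Z) ^ ((1 : ℝ) / 2 ^ Q)
      + 2176 * A * (4 * A + 1) ^ 2 * ((Z : ℝ) ^ (5 * s + 5) * (Z : ℝ) ^ (5 * s + 3)) := by
  classical
  have hA120 := hGA.1
  have hA0 : 0 < A := by linarith
  have hZ1 : (1 : ℝ) ≤ Z := by linarith
  have hZn1 : 1 ≤ Z := by exact_mod_cast hZ1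
  have hZ0 : (0 : ℝ) < Z := by linarith
  set X : ℝ := (Z : ℝ) ^ (5 * s + 5) with hX
  set l : ℕ := Z ^ (5 * s + 3) with hl
  have hlr : (l : ℝ) = (Z : ℝ) ^ (5 * s + 3) := by rw [hl]; push_cast; rfl
  have hlpos : 0 < l := by rw [hl]; positivity
  have hl1 : (1 : ℝ) ≤ l := by exact_mod_cast hlpos
  have hXl : X = (Z : ℝ) ^ 2 * l := by rw [hX, hlr]; ring
  have hX8 : 8 * (A * (l : ℝ)) ≤ X := by
    rw [hXl]
    have h1 : 8 * A ≤ (Z : ℝ) ^ 2 := by nlinarith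
    calc 8 * (A * (l : ℝ)) = 8 * A * l := by ring
      _ ≤ (Z : ℝ) ^ 2 * l := mul_le_mul_of_nonneg_right h1 (by linarith)
  have hAl1 : 1 ≤ A * (l : ℝ) := by nlinarith
  have hX4 : 4 * (A * (l : ℝ) + 1) ≤ X := by linarith
  have hXpos : 0 < X := by rw [hX]; positivity
  have hX1 : 1 ≤ X := by rw [hX]; exact one_le_pow₀ hZ1
  have hδ0 : 0 ≤ (Dw 4 7 Q / Z) ^ ((1 : ℝ) / 2 ^ Q) :=
    Real.rpow_nonneg (div_nonneg (Dw_nonneg (by norm_num) (by norm_num) Q) hZ0.le) _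
  have hg := grid W (fg M om z0) (fg_le M om z0) l hlpos _ hδ0 (by
    intro k hk
    have hkm : (k.1 * l, k.2 * l) ∈ bx l k := by
      unfold bx
      rw [mem_rect]
      have : (0 : ℤ) < l := by exact_mod_cast hlpos
      simp only
      constructor
      · constructor <;> linarith
      · constructor <;> linarith
    have hw := (hW _).1 (hk hkm)
    set c : ℂ := zw om (k.1 * l, k.2 * l) + z0 with hc
    have hc1 : X ≤ ‖c‖ := by
      apply (pow_le_pow_iff_left₀ hXpos.le (norm_nonneg _) two_ne_zero).1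
      linarith [hw.1]
    have hc2 : ‖c‖ ≤ 3 * X := by
      apply (pow_le_pow_iff_left₀ (norm_nonneg _) (by linarith) two_ne_zero).1
      nlinarith [hw.2]
    have h := boxGU hGA Q s Z hs hZ hZn1 M hM1 hM2 z0 c hc1 hc2 (k.1 * l) (k.1 * l + l)
      (k.2 * l) (k.2 * l + l) (le_refl _) (le_refl _) (by
        intro w hw'
        have e1 : zw om w + z0 - c = zw om w - zw om (k.1 * l, k.2 * l) := by rw [hc]; ring
        rw [e1]
        refine lt_of_le_of_lt (bx_dist hGA l k w _ hw' hkm) ?_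
        rw [← hX]
        linarith)
    rw [← hlr] at h
    exact h)
  refine hg.trans ?_
  apply add_le_add
  · apply mul_le_mul_of_nonneg_right _ hδ0
    exact card_annG hGA hX1 hB z0 W (fun w hw => ((hW w).1 hw).2)
  · set bad := W.filter (fun w => ¬ bx l (ka l w) ⊆ W) with hbad
    have hcov : bad ⊆ bad.filter (fun w => |‖zw om w + z0‖ - √A'| ≤ 2 * (A * l))
        ∪ bad.filter (fun w => |‖zw om w + z0‖ - √B| ≤ 2 * (A * l)) := by
      intro w hw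
      have hw0 := hw
      rw [hbad, Finset.mem_filter] at hw
      obtain ⟨hwW, hns⟩ := hw
      obtain ⟨w', hw', hnW⟩ := Finset.not_subset.1 hns
      have hwk : w ∈ bx l (ka l w) := (mem_bx hlpos _ _).2 rfl
      have hd := bx_dist hGA l _ w w' hwk hw'
      have hd2 : |‖zw om w + z0‖ - ‖zw om w' + z0‖| ≤ A * l := by
        refine (abs_norm_sub_norm_le _ _).trans ?_
        have e1 : zw om w + z0 - (zw om w' + z0) = zw om w - zw om w' := by ring
        rw [e1]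
        exact hd
      obtain ⟨g1, g2⟩ := (hW w).1 hwW
      have g3 : √A' ≤ ‖zw om w + z0‖ := Real.sqrt_le_iff.2 ⟨norm_nonneg _, g1.le⟩
      have g4 : ‖zw om w + z0‖ ≤ √B := Real.le_sqrt_of_sq_le g2
      have hd3 := abs_le.1 hd2
      rw [Finset.mem_union]
      rw [hW] at hnW
      rcases le_or_gt (‖zw om w' + z0‖ ^ 2) A' with h1 | h1
      · left
        refine Finset.mem_filter.2 ⟨hw0, ?_⟩
        have h2 : ‖zw om w' + z0‖ ≤ √A' := Real.le_sqrt_of_sq_le h1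
        rw [abs_le]
        constructor <;> linarith
      · right
        refine Finset.mem_filter.2 ⟨hw0, ?_⟩
        have h2 : B < ‖zw om w' + z0‖ ^ 2 := by
          by_contra h3
          exact hnW ⟨h1, not_lt.1 h3⟩
        have h3 : √B ≤ ‖zw om w' + z0‖ := Real.sqrt_le_iff.2 ⟨norm_nonneg _, h2.le⟩
        rw [abs_le]
        constructor <;> linarith
    have c1 := card_thinG hGA hAl1 hX4 hA' (hAB.trans hB) z0
      (bad.filter (fun w => |‖zw om w + z0‖ - √A'| ≤ 2 * (A * l)))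
      (fun w hw => (Finset.mem_filter.1 hw).2)
    have c2 := card_thinG hGA hAl1 hX4 (hA'.trans hAB) hB z0
      (bad.filter (fun w => |‖zw om w + z0‖ - √B| ≤ 2 * (A * l)))
      (fun w hw => (Finset.mem_filter.1 hw).2)
    have c3 : (bad.card : ℝ)
        ≤ ((bad.filter (fun w => |‖zw om w + z0‖ - √A'| ≤ 2 * (A * l))).card : ℝ)
        + ((bad.filter (fun w => |‖zw om w + z0‖ - √B| ≤ 2 * (A * l))).card : ℝ) := by
      have := (Finset.card_le_card hcov).trans (Finset.card_union_le _ _)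
      exact_mod_cast this
    rw [← hlr]
    refine c3.trans ((add_le_add c1 c2).trans (le_of_eq ?_))
    ring

end VG63

end Pool.Agent.Lib.MP_a17b09_nt.MR
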