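import Pool.Agent.Lib.MP_a17b09_nt.MR.VCd63
import Pool.Agent.Lib.MP_a17b09_nt.MR.VGg63

/-!
Project MRSG, module VG, part d: small frequencies on an annulus of the lattice `ℤ + ℤ om`.
-/

set_option autoImplicit false

open Finset MeasureTheory

namespace Pool.Agent.Lib.MP_a17b09_nt.MR

open Pool.Agent.Lib.MP_a17b09_nt.LP

namespace VG63

open VC63

/-- the linear map `x + i y ↦ x + y om` -/
noncomputable def Lin (om : ℂ) : ℂ →ₗ[ℝ] ℂ where
  toFun z := (z.re : ℂ) + (z.im : ℂ) * om
  map_add' x y := by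
    simp only [Complex.add_re, Complex.add_im]
    push_cast
    ring
  map_smul' r x := by
    simp only [RingHom.id_apply, Complex.real_smul, Complex.re_ofReal_mul,
      Complex.im_ofReal_mul]
    push_cast
    ring

theorem Lin_apply (om z : ℂ) : Lin om z = (z.re : ℂ) + (z.im : ℂ) * om := rfl

theorem Lin_zc (om : ℂ) (w : ℤ × ℤ) : Lin om (zc w) = zw om w := by
  rw [Lin_apply, zc_re, zc_im]
  simp only [zw]
  push_cast
  rfl

theorem Lin_norm {om : ℂ} {A : ℝ} (hA : GA om A) (z : ℂ) : ‖Lin om z‖ ≤ A * ‖z‖ := by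
  rw [Lin_apply]
  have h1 := Complex.abs_re_le_norm z
  have h2 := Complex.abs_im_le_norm z
  have h3 := hA.2.1
  calc ‖(z.re : ℂ) + (z.im : ℂ) * om‖ ≤ ‖(z.re : ℂ)‖ + ‖(z.im : ℂ) * om‖ := norm_add_le _ _
    _ = |z.re| + |z.im| * ‖om‖ := by
        rw [norm_mul, Complex.norm_real, Complex.norm_real, Real.norm_eq_abs, Real.norm_eq_abs]
    _ ≤ ‖z‖ + ‖z‖ * ‖om‖ := add_le_add h1 (mul_le_mul_of_nonneg_right h2 (norm_nonneg _))
    _ = (1 + ‖om‖) * ‖z‖ := by ring
    _ ≤ A * ‖z‖ := mul_le_mul_of_nonneg_right h3 (norm_nonneg _)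

theorem Lin_det {om : ℂ} {A : ℝ} (hA : GA om A) : LinearMap.det (Lin om) ≠ 0 := by
  have hinj : Function.Injective (Lin om) := by
    rw [injective_iff_map_eq_zero]
    intro z hz
    rw [Lin_apply] at hz
    have h := hA.2.2.2 z.re z.im
    rw [hz, norm_zero, mul_zero] at h
    have h1 : z.re = 0 := abs_eq_zero.1 (le_antisymm h.1 (abs_nonneg _))
    have h2 : z.im = 0 := abs_eq_zero.1 (le_antisymm h.2 (abs_nonneg _))
    exact Complex.ext h1 h2
  have h := (LinearEquiv.isUnit_det' (LinearEquiv.ofInjectiveEndo (Lin om) hinj)).ne_zero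
  have e : ((LinearEquiv.ofInjectiveEndo (Lin om) hinj : ℂ ≃ₗ[ℝ] ℂ) : ℂ →ₗ[ℝ] ℂ) = Lin om := by
    ext z
    rfl
  rwa [e] at h

theorem Lin_cont (om : ℂ) : Continuous (Lin om) := LinearMap.continuous_of_finiteDimensional _

/-- the preimage of the annulus -/
def En (om z0 : ℂ) (A B : ℝ) : Set ℂ := {z | A < ‖Lin om z + z0‖ ^ 2 ∧ ‖Lin om z + z0‖ ^ 2 ≤ B}

theorem en_meas (om z0 : ℂ) (A B : ℝ) : MeasurableSet (En om z0 A B) := by
  unfold En
  have h : Measurable (fun z : ℂ => ‖Lin om z + z0‖ ^ 2) :=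
    (((Lin_cont om).measurable.add_const z0).norm).pow_const 2
  exact (measurableSet_lt measurable_const h).inter (measurableSet_le h measurable_const)

theorem int_zeroG {om : ℂ} {A : ℝ} (hA : GA om A) (M : ℕ) (hM : 0 < M) (z0 : ℂ) (A' B : ℝ) :
    ∫ z in En om z0 A' B, fu M (Lin om z + z0) = 0 := by
  set g : ℂ → ℂ := (Ann A' B).indicator (fu M) with hg
  have hgm : Measurable g := (fu_meas M).indicator (ann_meas A' B)
  have e1 : ∫ z in En om z0 A' B, fu M (Lin om z + z0) = ∫ z, g (Lin om z + z0) := by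
    rw [← integral_indicator (en_meas om z0 A' B)]
    congr 1
  have e2 : ∫ z, g (Lin om z + z0) = ∫ y, g (y + z0) ∂(Measure.map (Lin om) volume) := by
    rw [integral_map (Lin_cont om).measurable.aemeasurable]
    exact (hgm.comp (measurable_id.add_const z0)).aestronglyMeasurable
  have e3 : ∫ y : ℂ, g (y + z0) = 0 := by
    rw [integral_add_right_eq_self g z0, hg, integral_indicator (ann_meas A' B)]
    exact int_zero M hM A' B
  rw [e1, e2, Measure.map_linearMap_addHaar_eq_smul_addHaar volume (Lin_det hA),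
    integral_smul_measure, e3, smul_zero]

/-- small frequencies -/
theorem smallG {om : ℂ} {A : ℝ} (hGA : GA om A) (X : ℝ) (hX : 4 * (A + 1) ≤ X) (M : ℕ)
    (hM : 0 < M) (z0 : ℂ) (A' B : ℝ)
    (hA' : X ^ 2 ≤ A') (hAB : A' ≤ B) (hB : B ≤ 9 * X ^ 2)
    (W : Finset (ℤ × ℤ))
    (hW : ∀ w, w ∈ W ↔ A' < ‖zw om w + z0‖ ^ 2 ∧ ‖zw om w + z0‖ ^ 2 ≤ B) :
    ‖∑ w ∈ W, fg M om z0 w‖
      ≤ (196 * A ^ 3 + 4352 * A * (4 * A + 1) ^ 2) * (M * X) := by
  classical
  have hA120 := hGA.1
  have hA0 : 0 < A := by linarith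
  have hXp : 0 < X := by linarith
  have hX1 : 1 ≤ X := by linarith
  have hMr : (1 : ℝ) ≤ M := by exact_mod_cast hM
  -- the big rectangle
  obtain ⟨n, hn⟩ := exists_nat_gt (A * (√B + ‖z0‖ + 2 * A))
  set Wa : Finset (ℤ × ℤ) := rect (-n) (n + 1) (-n) (n + 1) with hWa
  have hin : ∀ w : ℤ × ℤ, ‖zw om w + z0‖ ≤ √B + 2 * A → w ∈ Wa := by
    intro w hw
    have h1 : ‖zw om w‖ ≤ √B + ‖z0‖ + 2 * A := by
      have h2 := norm_sub_le (zw om w + z0) z0
      rw [add_sub_cancel_right] at h2
      linarith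
    have h2 := coord_le hGA w 0
    have e0 : zw om 0 = 0 := by simp [zw]
    rw [e0, sub_zero] at h2
    simp only [Prod.fst_zero, Prod.snd_zero, Int.cast_zero, sub_zero] at h2
    have h3 : A * ‖zw om w‖ < n :=
      lt_of_le_of_lt (mul_le_mul_of_nonneg_left h1 hA0.le) hn
    have h4 : |(w.1 : ℝ)| < n := lt_of_le_of_lt h2.1 h3
    have h5 : |(w.2 : ℝ)| < n := lt_of_le_of_lt h2.2 h3
    have h6 : |w.1| < n := by exact_mod_cast h4
    have h7 : |w.2| < n := by exact_mod_cast h5
    rw [abs_lt] at h6 h7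
    rw [hWa, mem_rect]
    omega
  have hWsub : W ⊆ Wa := by
    intro w hw
    apply hin
    have h1 := ((hW w).1 hw).2
    have := Real.le_sqrt_of_sq_le h1
    linarith
  have hdist : ∀ (w : ℤ × ℤ) (u : ℂ), u ∈ Sq 0 w →
      ‖zw om w + z0 - (Lin om u + z0)‖ ≤ 2 * A := by
    intro w u hu
    have h1 := sq_dist 0 w u hu
    rw [add_zero] at h1
    have e : zw om w + z0 - (Lin om u + z0) = Lin om (zc w - u) := by
      rw [map_sub, Lin_zc]
      ring
    rw [e]
    refine (Lin_norm hGA _).trans ?_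
    nlinarith
  have hcov : En om z0 A' B = ⋃ w ∈ Wa, (Sq 0 w ∩ En om z0 A' B) := by
    ext u
    simp only [Set.mem_iUnion, Set.mem_inter_iff, exists_prop]
    constructor
    · intro hu
      set w : ℤ × ℤ := (⌊u.re - (0 : ℂ).re⌋, ⌊u.im - (0 : ℂ).im⌋) with hw
      have hsq : u ∈ Sq 0 w := (sq_floor 0 u w).2 rfl
      refine ⟨w, ?_, hsq, hu⟩
      apply hin
      have h1 := hdist w u hsq
      have h2 : ‖Lin om u + z0‖ ≤ √B := Real.le_sqrt_of_sq_le hu.2
      have h3 := norm_add_le (zw om w + z0 - (Lin om u + z0)) (Lin om u + z0)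
      rw [sub_add_cancel] at h3
      linarith
    · rintro ⟨_, _, _, h⟩
      exact h
  have hfin : ∀ w, volume (Sq 0 w ∩ En om z0 A' B) ≤ 1 := by
    intro w
    rw [← sq_vol 0 w]
    exact measure_mono Set.inter_subset_left
  have hfin2 : ∀ w, volume (Sq 0 w ∩ En om z0 A' B) < ⊤ := fun w =>
    lt_of_le_of_lt (hfin w) ENNReal.one_lt_top
  have hreal : ∀ w, volume.real (Sq 0 w ∩ En om z0 A' B) ≤ 1 := by
    intro w
    have := ENNReal.toReal_mono ENNReal.one_ne_top (hfin w)
    simpa [Measure.real] using this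
  have hmeas : Measurable (fun u : ℂ => fu M (Lin om u + z0)) :=
    (fu_meas M).comp ((Lin_cont om).measurable.add_const z0)
  have hint : ∀ w, IntegrableOn (fun u => fu M (Lin om u + z0)) (Sq 0 w ∩ En om z0 A' B) := by
    intro w
    apply Measure.integrableOn_of_bounded (hfin2 w).ne hmeas.aestronglyMeasurable (M := 1)
    exact Filter.Eventually.of_forall (fun u => fu_le M _)
  have hsplit : ∑ w ∈ Wa, ∫ u in Sq 0 w ∩ En om z0 A' B, fu M (Lin om u + z0) = 0 := by
    rw [← integral_biUnion_finset Wa (fun w _ => (sq_meas 0 w).inter (en_meas om z0 A' B))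
      (fun w _ w' _ h => (sq_disj 0 w w' h).mono Set.inter_subset_left Set.inter_subset_left)
      (fun w _ => hint w), ← hcov]
    exact int_zeroG hGA M hM z0 A' B
  -- the difference
  set D : ℤ × ℤ → ℂ := fun w => (if w ∈ W then fg M om z0 w else 0)
    - ∫ u in Sq 0 w ∩ En om z0 A' B, fu M (Lin om u + z0) with hD
  have hsum : ∑ w ∈ W, fg M om z0 w = ∑ w ∈ Wa, D w := by
    simp only [hD]
    rw [Finset.sum_sub_distrib, hsplit, sub_zero, ← Finset.sum_filter,
      Finset.filter_mem_eq_inter, Finset.inter_eq_right.2 hWsub]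
  -- near the boundary
  set P : ℤ × ℤ → Prop := fun w => |‖zw om w + z0‖ - √A'| ≤ 2 * A ∨
    |‖zw om w + z0‖ - √B| ≤ 2 * A with hP
  have hI1 : ∀ w, ‖∫ u in Sq 0 w ∩ En om z0 A' B, fu M (Lin om u + z0)‖ ≤ 1 := by
    intro w
    have := norm_setIntegral_le_of_norm_le_const (f := fun u => fu M (Lin om u + z0)) (hfin2 w)
      (fun u _ => fu_le M _)
    have h2 := hreal w
    linarith
  have hD2 : ∀ w, ‖D w‖ ≤ 2 := by
    intro w
    simp only [hD]
    refine (norm_sub_le _ _).trans ?_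
    have h1 := hI1 w
    by_cases hw : w ∈ W
    · rw [if_pos hw]
      have := fg_le M om z0 w
      linarith
    · rw [if_neg hw, norm_zero]
      linarith
  have hfar : ∀ w, ¬ P w → w ∉ W → D w = 0 := by
    intro w hPw hw
    simp only [hD]
    rw [if_neg hw]
    have hemp : Sq 0 w ∩ En om z0 A' B = ∅ := by
      ext u
      simp only [Set.mem_inter_iff, Set.mem_empty_iff_false, iff_false, not_and]
      intro hu hAu
      have h1 := hdist w u hu
      have h2 : |‖zw om w + z0‖ - ‖Lin om u + z0‖| ≤ 2 * A :=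
        (abs_norm_sub_norm_le _ _).trans h1
      have h2' := abs_le.1 h2
      have h3 : ‖Lin om u + z0‖ ≤ √B := Real.le_sqrt_of_sq_le hAu.2
      have h4 : √A' ≤ ‖Lin om u + z0‖ := Real.sqrt_le_iff.2 ⟨norm_nonneg _, hAu.1.le⟩
      simp only [hP, not_or, not_le] at hPw
      rw [hW] at hw
      rcases le_or_gt (‖zw om w + z0‖ ^ 2) A' with h5 | h5
      · have h6 : ‖zw om w + z0‖ ≤ √A' := Real.le_sqrt_of_sq_le h5
        have h7 : |‖zw om w + z0‖ - √A'| ≤ 2 * A := by
          rw [abs_le]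
          constructor <;> linarith
        linarith [hPw.1]
      · have h6 : B < ‖zw om w + z0‖ ^ 2 := by
          by_contra h7
          exact hw ⟨h5, not_lt.1 h7⟩
        have h8 : √B ≤ ‖zw om w + z0‖ := Real.sqrt_le_iff.2 ⟨norm_nonneg _, h6.le⟩
        have h7 : |‖zw om w + z0‖ - √B| ≤ 2 * A := by
          rw [abs_le]
          constructor <;> linarith
        linarith [hPw.2]
    rw [hemp, Measure.restrict_empty, integral_zero_measure, sub_zero]
  have hmid : ∀ w, ¬ P w → w ∈ W → ‖D w‖ ≤ 4 * A * M / X := by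
    intro w hPw hw
    simp only [hP, not_or, not_le] at hPw
    have hwW := (hW w).1 hw
    have g3 : √A' ≤ ‖zw om w + z0‖ := Real.sqrt_le_iff.2 ⟨norm_nonneg _, hwW.1.le⟩
    have g4 : ‖zw om w + z0‖ ≤ √B := Real.le_sqrt_of_sq_le hwW.2
    have g5 : X ≤ √A' := Real.le_sqrt_of_sq_le hA'
    have g6 : √A' + 2 * A < ‖zw om w + z0‖ := by
      have := hPw.1
      rw [abs_of_nonneg (by linarith)] at this
      linarith
    have g7 : ‖zw om w + z0‖ + 2 * A < √B := by
      have := hPw.2
      rw [abs_of_nonpos (by linarith)] at this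
      linarith
    have hsub : Sq 0 w ∩ En om z0 A' B = Sq 0 w := by
      rw [Set.inter_eq_left]
      intro u hu
      have h1 := hdist w u hu
      have h2 : |‖zw om w + z0‖ - ‖Lin om u + z0‖| ≤ 2 * A :=
        (abs_norm_sub_norm_le _ _).trans h1
      have h2' := abs_le.1 h2
      have h0A : 0 ≤ A' := le_trans (by positivity) hA'
      constructor
      · have h3 : √A' < ‖Lin om u + z0‖ := by linarith
        have h4 := pow_lt_pow_left₀ h3 (Real.sqrt_nonneg A') two_ne_zero
        rwa [Real.sq_sqrt h0A] at h4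
      · have h3 : ‖Lin om u + z0‖ ≤ √B := by linarith
        have h4 := pow_le_pow_left₀ (norm_nonneg (Lin om u + z0)) h3 2
        rwa [Real.sq_sqrt (h0A.trans hAB)] at h4
    have hvol1 : volume.real (Sq 0 w) = 1 := by
      rw [Measure.real, sq_vol]
      simp
    have e1 : D w = ∫ u in Sq 0 w, (fg M om z0 w - fu M (Lin om u + z0)) := by
      simp only [hD]
      rw [if_pos hw, hsub]
      have hi : IntegrableOn (fun u => fu M (Lin om u + z0)) (Sq 0 w) := by
        have := hint w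
        rwa [hsub] at this
      have hc : IntegrableOn (fun _ : ℂ => fg M om z0 w) (Sq 0 w) := by
        apply integrableOn_const
        · rw [sq_vol]
          exact ENNReal.one_ne_top
        · exact enorm_ne_top
      rw [integral_sub hc hi, setIntegral_const, hvol1, one_smul]
    have hsq_fin : volume (Sq 0 w) < ⊤ := by rw [sq_vol]; exact ENNReal.one_lt_top
    rw [e1]
    have h9 := norm_setIntegral_le_of_norm_le_const
      (f := fun u => fg M om z0 w - fu M (Lin om u + z0))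
      (C := 4 * A * M / X) hsq_fin (by
        intro u hu
        have h1 := hdist w u hu
        have hx0 : 0 < ‖zw om w + z0‖ := by linarith
        have h2 := dir_lip (zw om w + z0) (Lin om u + z0) hx0
        have h3 : ‖fg M om z0 w - fu M (Lin om u + z0)‖
            ≤ M * ‖(zw om w + z0) / (‖zw om w + z0‖ : ℂ)
              - (Lin om u + z0) / (‖Lin om u + z0‖ : ℂ)‖ := by
          apply pow_lip
          · have := term_norm_le (zw om w + z0) 1
            rwa [pow_one] at this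
          · have := term_norm_le (Lin om u + z0) 1
            rwa [pow_one] at this
        refine h3.trans ?_
        have h4 : 2 * ‖zw om w + z0 - (Lin om u + z0)‖ / ‖zw om w + z0‖ ≤ 4 * A / X := by
          rw [div_le_div_iff₀ hx0 hXp]
          have h6 : X ≤ ‖zw om w + z0‖ := by linarith
          have h7 : 2 * ‖zw om w + z0 - (Lin om u + z0)‖ * X ≤ 2 * (2 * A) * X :=
            mul_le_mul_of_nonneg_right (by linarith) hXp.le
          have h8 : 4 * A * X ≤ 4 * A * ‖zw om w + z0‖ :=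
            mul_le_mul_of_nonneg_left h6 (by linarith)
          linarith
        have h5 := mul_le_mul_of_nonneg_left (h2.trans h4) (show (0 : ℝ) ≤ M by linarith)
        refine h5.trans (le_of_eq ?_)
        ring)
    rwa [hvol1, mul_one] at h9
  -- conclusion
  rw [hsum]
  refine (norm_sum_le _ _).trans ?_
  have hbound : ∀ w ∈ Wa, ‖D w‖
      ≤ (if w ∈ W then 4 * A * M / X else 0) + (if P w then 2 else 0) := by
    intro w _
    have h0 : 0 ≤ 4 * A * (M : ℝ) / X := by positivity
    by_cases hPw : P w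
    · rw [if_pos hPw]
      have := hD2 w
      split_ifs <;> linarith
    · rw [if_neg hPw, add_zero]
      by_cases hw : w ∈ W
      · rw [if_pos hw]
        exact hmid w hPw hw
      · rw [if_neg hw, hfar w hPw hw, norm_zero]
  refine (Finset.sum_le_sum hbound).trans ?_
  rw [Finset.sum_add_distrib, ← Finset.sum_filter, ← Finset.sum_filter,
    Finset.filter_mem_eq_inter, Finset.inter_eq_right.2 hWsub, Finset.sum_const,
    Finset.sum_const, nsmul_eq_mul, nsmul_eq_mul]
  have c0 : (W.card : ℝ) ≤ 49 * A ^ 2 * X ^ 2 :=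
    card_annG hGA hX1 hB z0 W (fun w hw => ((hW w).1 hw).2)
  have c1 := card_thinG hGA (t := A) (by linarith) hX hA' (hAB.trans hB) z0
    (Wa.filter (fun w => |‖zw om w + z0‖ - √A'| ≤ 2 * A)) (fun w hw => (Finset.mem_filter.1 hw).2)
  have c2 := card_thinG hGA (t := A) (by linarith) hX (hA'.trans hAB) hB z0
    (Wa.filter (fun w => |‖zw om w + z0‖ - √B| ≤ 2 * A)) (fun w hw => (Finset.mem_filter.1 hw).2)
  have c3 : ((Wa.filter P).card : ℝ)
      ≤ ((Wa.filter (fun w => |‖zw om w + z0‖ - √A'| ≤ 2 * A)).card : ℝ)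
        + ((Wa.filter (fun w => |‖zw om w + z0‖ - √B| ≤ 2 * A)).card : ℝ) := by
    have h1 : Wa.filter P = Wa.filter (fun w => |‖zw om w + z0‖ - √A'| ≤ 2 * A)
        ∪ Wa.filter (fun w => |‖zw om w + z0‖ - √B| ≤ 2 * A) := by
      rw [← Finset.filter_or]
    rw [h1]
    exact_mod_cast Finset.card_union_le _ _
  have c4 : (W.card : ℝ) * (4 * A * M / X) ≤ 196 * A ^ 3 * (M * X) := by
    calc (W.card : ℝ) * (4 * A * M / X) ≤ (49 * A ^ 2 * X ^ 2) * (4 * A * M / X) :=
          mul_le_mul_of_nonneg_right c0 (by positivity)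
      _ = 196 * A ^ 3 * (M * X) := by
          field_simp
          ring
  have c5 : X ≤ M * X := by nlinarith
  have c6 : ((Wa.filter P).card : ℝ) * 2 ≤ 4352 * A * (4 * A + 1) ^ 2 * (M * X) := by
    have h1 : ((Wa.filter P).card : ℝ) * 2 ≤ 4352 * A * (4 * A + 1) ^ 2 * X := by
      have h2 := c3.trans (add_le_add c1 c2)
      refine (mul_le_mul_of_nonneg_right h2 (by norm_num)).trans (le_of_eq ?_)
      ring
    exact h1.trans (mul_le_mul_of_nonneg_left c5 (by positivity))
  calc (W.card : ℝ) * (4 * A * M / X) + ((Wa.filter P).card : ℝ) * 2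
      ≤ 196 * A ^ 3 * (M * X) + 4352 * A * (4 * A + 1) ^ 2 * (M * X) := add_le_add c4 c6
    _ = (196 * A ^ 3 + 4352 * A * (4 * A + 1) ^ 2) * (M * X) := by ring

end VG63

end Pool.Agent.Lib.MP_a17b09_nt.MR
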