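import Pool.Agent.Lib.MP_a17b09_nt.MR.VCn63
import Pool.Agent.Lib.MP_a17b09_nt.MR.VGg63

/-!
Project MRSG, module VG, part t: from a residue class to a shifted lattice.
-/

set_option autoImplicit false

open Finset

namespace Pool.Agent.Lib.MP_a17b09_nt.MR

open Pool.Agent.Lib.MP_a17b09_nt.LP

namespace VG63

open VC63

/-- passage from a residue class to a shifted lattice -/
theorem transfer (om : ℂ) (q : ℕ) (a : ℤ × ℤ) (hq : 0 < q) (Y1 Y2 : ℝ) (hY1 : 0 ≤ Y1)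
    (S : Finset (ℤ × ℤ)) (hS : ∀ v : ℤ × ℤ, v ∈ S ↔ (q : ℤ) ∣ v.1 - a.1 ∧ (q : ℤ) ∣ v.2 - a.2 ∧
      Y1 < ‖zw om v‖ ^ 2 ∧ ‖zw om v‖ ^ 2 ≤ Y2) :
    ∃ (z0 : ℂ) (W : Finset (ℤ × ℤ)),
      (∀ w, w ∈ W ↔ Y1 / q ^ 2 < ‖zw om w + z0‖ ^ 2 ∧ ‖zw om w + z0‖ ^ 2 ≤ Y2 / q ^ 2) ∧
      ∀ h : ℤ, ‖∑ v ∈ S, (zw om v / (‖zw om v‖ : ℂ)) ^ h‖ = ‖∑ w ∈ W, fg h.natAbs om z0 w‖ := by
  have hqr : (0 : ℝ) < q := by exact_mod_cast hq
  have hqz : (q : ℤ) ≠ 0 := by exact_mod_cast hq.ne'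
  have hqc : (q : ℂ) ≠ 0 := by exact_mod_cast hq.ne'
  have hq2 : (0 : ℝ) < (q : ℝ) ^ 2 := by positivity
  set z0 : ℂ := zw om a / (q : ℂ) with hz0
  set g : ℤ × ℤ → ℤ × ℤ := fun v => ((v.1 - a.1) / q, (v.2 - a.2) / q) with hg
  set p : ℤ × ℤ → ℤ × ℤ := fun w => (a.1 + q * w.1, a.2 + q * w.2) with hp
  have hpg : ∀ v ∈ S, p (g v) = v := by
    intro v hv
    obtain ⟨h1, h2, _⟩ := (hS v).1 hv
    simp only [hp, hg]
    rw [Int.mul_ediv_cancel' h1, Int.mul_ediv_cancel' h2]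
    ext <;> simp
  have hgp : ∀ w, g (p w) = w := by
    intro w
    simp only [hp, hg]
    rw [add_sub_cancel_left, add_sub_cancel_left, Int.mul_ediv_cancel_left _ hqz,
      Int.mul_ediv_cancel_left _ hqz]
  set W : Finset (ℤ × ℤ) := S.image g with hWd
  have hzp : ∀ w, zw om (p w) = (q : ℂ) * (zw om w + z0) := by
    intro w
    rw [hz0, mul_add, mul_div_cancel₀ _ hqc]
    simp only [zw, hp]
    push_cast
    ring
  have hN : ∀ w, ‖zw om (p w)‖ ^ 2 = (q : ℝ) ^ 2 * ‖zw om w + z0‖ ^ 2 := by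
    intro w
    rw [hzp, norm_mul, mul_pow, Complex.norm_natCast]
  have hW : ∀ w, w ∈ W ↔ Y1 / q ^ 2 < ‖zw om w + z0‖ ^ 2 ∧ ‖zw om w + z0‖ ^ 2 ≤ Y2 / q ^ 2 := by
    intro w
    rw [div_lt_iff₀ hq2, le_div_iff₀ hq2]
    constructor
    · intro hw
      obtain ⟨v, hv, rfl⟩ := Finset.mem_image.1 hw
      obtain ⟨_, _, h3, h4⟩ := (hS v).1 hv
      have h5 := hN (g v)
      rw [hpg v hv] at h5
      constructor <;> linarith
    · rintro ⟨h1, h2⟩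
      rw [hWd, Finset.mem_image]
      refine ⟨p w, ?_, hgp w⟩
      rw [hS, hN w]
      refine ⟨?_, ?_, by linarith, by linarith⟩
      · simp only [hp]
        rw [add_sub_cancel_left]
        exact dvd_mul_right _ _
      · simp only [hp]
        rw [add_sub_cancel_left]
        exact dvd_mul_right _ _
  have hpos : ∀ w ∈ W, 0 < ‖zw om w + z0‖ := by
    intro w hw
    have h1 := ((hW w).1 hw).1
    have h2 : 0 ≤ Y1 / q ^ 2 := div_nonneg hY1 hq2.le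
    by_contra h3
    have h4 : ‖zw om w + z0‖ = 0 := le_antisymm (not_lt.1 h3) (norm_nonneg _)
    rw [h4] at h1
    norm_num at h1
    linarith
  refine ⟨z0, W, hW, ?_⟩
  intro h
  have hsum : ∑ v ∈ S, (zw om v / (‖zw om v‖ : ℂ)) ^ h
      = ∑ w ∈ W, ((zw om w + z0) / (‖zw om w + z0‖ : ℂ)) ^ h := by
    rw [hWd, Finset.sum_image (by
      intro v hv v' hv' hvv
      rw [← hpg v hv, ← hpg v' hv', hvv])]
    apply Finset.sum_congr rfl
    intro v hv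
    congr 1
    have h1 : zw om v = (q : ℂ) * (zw om (g v) + z0) := by
      rw [← hzp, hpg v hv]
    have h2 := hpos (g v) (Finset.mem_image_of_mem g hv)
    have h3 : (‖zw om (g v) + z0‖ : ℂ) ≠ 0 := by exact_mod_cast h2.ne'
    rw [h1, norm_mul, Complex.norm_natCast]
    push_cast
    rw [mul_div_mul_left _ _ hqc]
  rw [hsum, norm_zsum W (fun w => (zw om w + z0) / (‖zw om w + z0‖ : ℂ)) (by
    intro w hw
    have h2 := hpos w hw
    rw [norm_div, Complex.norm_real, norm_norm, div_self h2.ne']) h]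
  rfl

end VG63

end Pool.Agent.Lib.MP_a17b09_nt.MR
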