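import Pool.Agent.Lib.MP_a17b09_nt.MR.VGc63
import Pool.Agent.Lib.MP_a17b09_nt.MR.VGd63
import Pool.Agent.Lib.MP_a17b09_nt.MR.VGt63

/-!
Project MRSG, module VG, part e: the assembly of `StVG`.
-/

set_option autoImplicit false

open Finset

namespace Pool.Agent.Lib.MP_a17b09_nt.MR

open Pool.Agent.Lib.MP_a17b09_nt.LP

namespace VG63

open VC63

private lemma vge_pow52 {R : ℕ} {z : ℝ} (hz : 0 < z) (hR : 2 * (R : ℝ) ≤ z) :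
    (z + 1) ^ R ≤ 2 * z ^ R := by
  have h1 : z + 1 = z * (1 + 1 / z) := by field_simp
  rw [h1, mul_pow, mul_comm]
  apply mul_le_mul_of_nonneg_right _ (pow_pos hz R).le
  have h2 : 1 + 1 / z ≤ Real.exp (1 / z) := by
    have := Real.add_one_le_exp (1 / z)
    linarith
  have h3 : (1 + 1 / z) ^ R ≤ Real.exp (1 / z) ^ R :=
    pow_le_pow_left₀ (by positivity) h2 R
  refine h3.trans ?_
  rw [← Real.exp_nat_mul]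
  have h4 : (R : ℝ) * (1 / z) ≤ 1 / 2 := by
    rw [mul_one_div, div_le_div_iff₀ hz (by norm_num)]
    linarith
  have h5 : Real.exp ((R : ℝ) * (1 / z)) ≤ Real.exp (1 / 2) := Real.exp_le_exp.2 h4
  have h6 : Real.exp (1 / 2) ≤ 2 := by
    have h7 : Real.exp (1 / 2) ^ 2 ≤ 4 := by
      rw [← Real.exp_nat_mul]
      have h8 : ((2 : ℕ) : ℝ) * (1 / 2) = 1 := by norm_num
      rw [h8]
      have := Real.exp_one_lt_d9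
      linarith
    have h9 : Real.exp (1 / 2) ^ 2 ≤ 2 ^ 2 := by linarith
    exact (pow_le_pow_iff_left₀ (Real.exp_pos _).le (by norm_num) two_ne_zero).1 h9
  exact h5.trans h6

private lemma vge_small52 {om : ℂ} {A : ℝ} (hGA : GA om A) {S P B X D : ℝ}
    (hX : 1 ≤ X) (hXS : X ≤ S) (hP1 : 1 ≤ P) (hB : B ≤ 2 * X ^ 2)
    (hD : 49 * A ^ 2 * S ^ 2 ≤ D) (z0 : ℂ) (M : ℕ) (W : Finset (ℤ × ℤ))
    (hW : ∀ w ∈ W, ‖zw om w + z0‖ ^ 2 ≤ B) :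
    ‖∑ w ∈ W, fg M om z0 w‖ ≤ D * P := by
  have hX0 : 0 ≤ X := le_trans zero_le_one hX
  have h2 : ‖∑ w ∈ W, fg M om z0 w‖ ≤ (W.card : ℝ) := by
    refine (norm_sum_le _ _).trans ?_
    refine (Finset.sum_le_sum (fun w _ => fg_le M om z0 w)).trans ?_
    rw [Finset.sum_const, nsmul_eq_mul, mul_one]
  have hB9 : B ≤ 9 * X ^ 2 :=
    hB.trans (mul_le_mul_of_nonneg_right (by norm_num) (sq_nonneg X))
  have h3 : (W.card : ℝ) ≤ 49 * A ^ 2 * X ^ 2 := card_annG hGA hX hB9 z0 W hW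
  have h4 : X ^ 2 ≤ S ^ 2 := pow_le_pow_left₀ hX0 hXS 2
  have hA2 : 0 ≤ 49 * A ^ 2 := mul_nonneg (by norm_num) (sq_nonneg A)
  have h5 : 49 * A ^ 2 * X ^ 2 ≤ 49 * A ^ 2 * S ^ 2 := mul_le_mul_of_nonneg_left h4 hA2
  have hD0 : 0 ≤ D := le_trans (mul_nonneg hA2 (sq_nonneg S)) hD
  exact h2.trans (h3.trans (h5.trans (hD.trans (le_mul_of_one_le_right hD0 hP1))))

private lemma vge_E52 {R : ℕ} {z X c e : ℝ} (hz : 0 < z) (hlow : z ^ R ≤ X) (hc1 : c ≤ 1)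
    (hce : 2 * (R : ℝ) * c = e) : z ^ ((2 * R : ℝ) - e) ≤ (X ^ 2) ^ (1 - c) := by
  have h1 : ((z ^ R) ^ 2) ^ (1 - c) ≤ (X ^ 2) ^ (1 - c) :=
    Real.rpow_le_rpow (sq_nonneg _) (pow_le_pow_left₀ (pow_pos hz _).le hlow 2)
      (sub_nonneg.2 hc1)
  refine le_trans (le_of_eq ?_) h1
  rw [← pow_mul, ← Real.rpow_natCast, ← Real.rpow_mul hz.le]
  congr 1
  push_cast
  linarith

private lemma vge_E2_52 {R : ℕ} {z e : ℝ} (hz : 1 ≤ z) (hR : 1 ≤ 2 * R) (he : e ≤ 1) :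
    z ^ (2 * R - 1 : ℕ) ≤ z ^ ((2 * R : ℝ) - e) := by
  rw [← Real.rpow_natCast]
  apply Real.rpow_le_rpow_of_exponent_le hz
  rw [Nat.cast_sub hR]
  push_cast
  linarith

private lemma vge_sf52 {R M Z : ℕ} {P K D : ℝ} (hZ1 : (1 : ℝ) ≤ Z) (hR : 7 ≤ R)
    (hM : M < Z ^ 6) (hE : (Z : ℝ) ^ (2 * R - 1 : ℕ) ≤ P) (hK : 0 ≤ K) (hD : K ≤ D)
    (hP0 : 0 ≤ P) : K * ((M : ℝ) * (Z : ℝ) ^ R) ≤ D * P := by
  have h2 : (M : ℝ) ≤ (Z : ℝ) ^ 6 := by exact_mod_cast hM.le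
  have h3 : (M : ℝ) * (Z : ℝ) ^ R ≤ (Z : ℝ) ^ (2 * R - 1 : ℕ) := by
    calc (M : ℝ) * (Z : ℝ) ^ R ≤ (Z : ℝ) ^ 6 * (Z : ℝ) ^ R :=
          mul_le_mul_of_nonneg_right h2 (pow_nonneg (le_trans zero_le_one hZ1) _)
      _ = (Z : ℝ) ^ (6 + R) := (pow_add (Z : ℝ) 6 R).symm
      _ ≤ (Z : ℝ) ^ (2 * R - 1 : ℕ) := pow_le_pow_right₀ hZ1 (by omega)
  exact (mul_le_mul_of_nonneg_left (h3.trans hE) hK).trans
    (mul_le_mul_of_nonneg_right hD hP0)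

private lemma vge_M52 {κ T X : ℝ} {Q s R Z M : ℕ} (hκ : 0 < κ) (hQ : 10 / κ ≤ Q)
    (hR : R = 5 * s + 5) (hX0 : 0 ≤ X) (hXup : X ≤ 2 * (Z : ℝ) ^ R) (hZ4 : (4 : ℝ) ≤ Z)
    (hMT : (M : ℝ) ≤ T) (hTX : T ^ κ ≤ X ^ 2) : M ≤ Z ^ (4 * (s + 1) * Q + 5 * s + 4) := by
  by_contra hcon
  rw [not_le] at hcon
  have hZ1 : (1 : ℝ) < Z := lt_of_lt_of_le (by norm_num) hZ4
  have hZp : (0 : ℝ) < Z := lt_trans one_pos hZ1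
  have h1 : (Z : ℝ) ^ (4 * (s + 1) * Q + 5 * s + 4) ≤ T := by
    have h2 : ((Z ^ (4 * (s + 1) * Q + 5 * s + 4) : ℕ) : ℝ) ≤ M := by exact_mod_cast hcon.le
    push_cast at h2
    exact h2.trans hMT
  have h2 : ((Z : ℝ) ^ (4 * (s + 1) * Q + 5 * s + 4)) ^ κ ≤ X ^ 2 :=
    (Real.rpow_le_rpow (pow_pos hZp _).le h1 hκ.le).trans hTX
  have h3 : X ^ 2 ≤ (2 * (Z : ℝ) ^ R) ^ 2 := pow_le_pow_left₀ hX0 hXup 2
  have h4 : (2 * (Z : ℝ) ^ R) ^ 2 ≤ (Z : ℝ) ^ (2 * R + 1) := by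
    have e1 : (Z : ℝ) ^ (2 * R + 1) = ((Z : ℝ) ^ R) ^ 2 * Z := by
      rw [pow_succ, mul_comm 2 R, pow_mul]
    rw [e1, mul_pow]
    have h40 : ((Z : ℝ) ^ R) ^ 2 * 4 ≤ ((Z : ℝ) ^ R) ^ 2 * Z :=
      mul_le_mul_of_nonneg_left hZ4 (sq_nonneg _)
    linarith
  have h5 : (Z : ℝ) ^ (2 * R + 1) < ((Z : ℝ) ^ (4 * (s + 1) * Q + 5 * s + 4)) ^ κ := by
    rw [← Real.rpow_natCast, ← Real.rpow_natCast, ← Real.rpow_mul hZp.le]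
    apply Real.rpow_lt_rpow_of_exponent_lt hZ1
    have h6 : 10 ≤ (Q : ℝ) * κ := by
      rwa [div_le_iff₀ hκ] at hQ
    push_cast
    have h7 : (R : ℝ) = 5 * s + 5 := by rw [hR]; push_cast; ring
    have hs0 : (0 : ℝ) ≤ s := Nat.cast_nonneg _
    have h8 : 4 * ((s : ℝ) + 1) * 10 ≤ 4 * ((s : ℝ) + 1) * (Q * κ) :=
      mul_le_mul_of_nonneg_left h6 (by positivity)
    have h9 : 0 ≤ (5 * (s : ℝ) + 4) * κ := by positivity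
    rw [h7]
    linarith
  exact absurd (lt_of_lt_of_le h5 (h2.trans (h3.trans h4))) (lt_irrefl _)

private lemma vge_fin52 {s R Z : ℕ} {Dq e K1 K2 D P : ℝ} (hR : R = 5 * s + 5)
    (hZ1 : (1 : ℝ) ≤ Z) (hDq : 0 ≤ Dq) (hK1 : 0 ≤ K1) (hK2 : 0 ≤ K2)
    (hE : (Z : ℝ) ^ ((2 * R : ℝ) - e) ≤ P) (hE2 : (Z : ℝ) ^ (2 * R - 1 : ℕ) ≤ P)
    (hP0 : 0 ≤ P) (hD : K1 * Dq ^ e + K2 ≤ D) :
    K1 * ((Z : ℝ) ^ (5 * s + 5)) ^ 2 * (Dq / Z) ^ e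
      + K2 * ((Z : ℝ) ^ (5 * s + 5) * (Z : ℝ) ^ (5 * s + 3)) ≤ D * P := by
  have hZp : (0 : ℝ) < Z := lt_of_lt_of_le one_pos hZ1
  have h2 : ((Z : ℝ) ^ (5 * s + 5)) ^ 2 * (Dq / Z) ^ e
      = Dq ^ e * (Z : ℝ) ^ ((2 * R : ℝ) - e) := by
    rw [Real.div_rpow hDq hZp.le, ← hR, ← pow_mul, Real.rpow_sub hZp]
    have e1 : (Z : ℝ) ^ (R * 2) = (Z : ℝ) ^ (2 * (R : ℝ)) := by
      rw [← Real.rpow_natCast]
      congr 1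
      push_cast
      ring
    rw [e1]
    ring
  have h3 : (Z : ℝ) ^ (5 * s + 5) * (Z : ℝ) ^ (5 * s + 3) ≤ (Z : ℝ) ^ (2 * R - 1 : ℕ) := by
    rw [← pow_add]
    exact pow_le_pow_right₀ hZ1 (by omega)
  have h4 := h3.trans hE2
  have h5 : Dq ^ e * (Z : ℝ) ^ ((2 * R : ℝ) - e) ≤ Dq ^ e * P :=
    mul_le_mul_of_nonneg_left hE (Real.rpow_nonneg hDq _)
  rw [mul_assoc K1, h2]
  calc K1 * (Dq ^ e * (Z : ℝ) ^ ((2 * R : ℝ) - e))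
        + K2 * ((Z : ℝ) ^ (5 * s + 5) * (Z : ℝ) ^ (5 * s + 3))
      ≤ K1 * (Dq ^ e * P) + K2 * P :=
        add_le_add (mul_le_mul_of_nonneg_left h5 hK1) (mul_le_mul_of_nonneg_left h4 hK2)
    _ = (K1 * Dq ^ e + K2) * P := by ring
    _ ≤ D * P := mul_le_mul_of_nonneg_right hD hP0

private lemma vge_B52 {X X0 B : ℝ} (hX0 : 0 ≤ X) (hup : X ≤ 2 * X0) (hB : B ≤ 2 * X ^ 2) :
    B ≤ 9 * X0 ^ 2 := by
  have h1 : X ^ 2 ≤ (2 * X0) ^ 2 := pow_le_pow_left₀ hX0 hup 2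
  have h2 : (2 * X0) ^ 2 = 4 * X0 ^ 2 := by ring
  have h3 := sq_nonneg X0
  rw [h2] at h1
  linarith

private lemma vge_A52 {A z : ℝ} {R : ℕ} (hA : 1 ≤ A) (hz : 8 * A ≤ z) (hR : R ≠ 0) :
    4 * (A + 1) ≤ z ^ R :=
  le_trans (by linarith : 4 * (A + 1) ≤ z) (le_self_pow₀ (by linarith) hR)

private lemma vge_c52 {R : ℝ} {Q : ℕ} (hR : 45 ≤ R) :
    2 * R * (1 / (2 * R * 2 ^ Q)) = (1 : ℝ) / 2 ^ Q ∧ 0 < 1 / (2 * R * 2 ^ Q) ∧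
      1 / (2 * R * 2 ^ Q) ≤ 1 ∧ 0 < (1 : ℝ) / 2 ^ Q ∧ (1 : ℝ) / 2 ^ Q ≤ 1 := by
  have hR0 : 0 < R := lt_of_lt_of_le (by norm_num) hR
  have h1 : (1 : ℝ) ≤ 2 ^ Q := one_le_pow₀ one_le_two
  have h0 : (0 : ℝ) < 2 ^ Q := lt_of_lt_of_le one_pos h1
  refine ⟨by field_simp, by positivity, ?_, by positivity, ?_⟩
  · rw [div_le_one (by positivity)]
    exact one_le_mul_of_one_le_of_one_le (by linarith) h1
  · rw [div_le_one h0]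
    exact h1

private lemma vge_D52 {K1 K2 K3 E S : ℝ} (h1 : 0 < K1) (h2 : 0 < K2) (h3 : 0 < K3)
    (hE : 0 ≤ E) :
    0 < K1 * S ^ 2 + K3 + K1 * E + K2 ∧ K1 * S ^ 2 ≤ K1 * S ^ 2 + K3 + K1 * E + K2 ∧
      K3 ≤ K1 * S ^ 2 + K3 + K1 * E + K2 ∧ K1 * E + K2 ≤ K1 * S ^ 2 + K3 + K1 * E + K2 := by
  have a1 : 0 ≤ K1 * S ^ 2 := mul_nonneg h1.le (sq_nonneg S)
  have a2 : 0 ≤ K1 * E := mul_nonneg h1.le hE
  exact ⟨by linarith, by linarith, by linarith, by linarith⟩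

private lemma vge_K52 {A : ℝ} (hA : 0 < A) :
    0 < 49 * A ^ 2 ∧ 0 < 2176 * A * (4 * A + 1) ^ 2 ∧
      0 < 196 * A ^ 3 + 4352 * A * (4 * A + 1) ^ 2 :=
  ⟨by positivity, by positivity, by positivity⟩

private lemma vge_Z52 {X : ℝ} {R : ℕ} (hX : 1 ≤ X) (hR0 : (0 : ℝ) < R) :
    1 ≤ ⌊X ^ ((1 : ℝ) / R)⌋₊ ∧ ((⌊X ^ ((1 : ℝ) / R)⌋₊ : ℕ) : ℝ) ^ R ≤ X ∧
      X ≤ (((⌊X ^ ((1 : ℝ) / R)⌋₊ : ℕ) : ℝ) + 1) ^ R := by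
  have hX0 : 0 < X := lt_of_lt_of_le one_pos hX
  have hXr1 : 1 ≤ X ^ ((1 : ℝ) / R) := Real.one_le_rpow hX (by positivity)
  have hXr0 : 0 ≤ X ^ ((1 : ℝ) / R) := le_trans zero_le_one hXr1
  have hpow : (X ^ ((1 : ℝ) / R)) ^ R = X := by
    rw [← Real.rpow_natCast, ← Real.rpow_mul hX0.le, one_div, inv_mul_cancel₀ hR0.ne',
      Real.rpow_one]
  refine ⟨Nat.le_floor (by exact_mod_cast hXr1), ?_, ?_⟩
  · exact (pow_le_pow_left₀ (Nat.cast_nonneg _) (Nat.floor_le hXr0) R).trans hpow.le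
  · exact hpow.symm.le.trans (pow_le_pow_left₀ hXr0 (Nat.lt_floor_add_one _).le R)

private lemma vge_big52 {A Kq : ℝ} {Z Z0 R : ℕ}
    (h0 : Z0 = ⌈Kq⌉₊ + ⌈8 * A⌉₊ + 2 * R + 4) (hbig : Z0 ≤ Z) :
    2 * (R : ℝ) ≤ Z ∧ 8 * A ≤ Z ∧ Kq ≤ Z ∧ (4 : ℝ) ≤ Z := by
  have h1 : 2 * R ≤ Z := by omega
  have h2 : ⌈8 * A⌉₊ ≤ Z := by omega
  have h3 : ⌈Kq⌉₊ ≤ Z := by omega
  have h4 : 4 ≤ Z := by omega
  exact ⟨by exact_mod_cast h1, (Nat.le_ceil _).trans (by exact_mod_cast h2),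
    (Nat.le_ceil _).trans (by exact_mod_cast h3), by exact_mod_cast h4⟩

/-- the bound in the shifted coordinates, with everything made explicit -/
theorem coreG {om : ℂ} {A : ℝ} (hGA : GA om A) (κ : ℝ) (hκ : 0 < κ) (Q : ℕ)
    (hQ : 10 / κ ≤ Q) :
    ∃ C : ℝ, 0 < C ∧ ∀ T X : ℝ, 1 ≤ T → 1 ≤ X → T ^ κ ≤ X ^ 2 → ∀ M : ℕ, 0 < M → (M : ℝ) ≤ T →
    ∀ (z0 : ℂ) (A' B : ℝ), X ^ 2 ≤ A' → A' ≤ B → B ≤ 2 * X ^ 2 → ∀ W : Finset (ℤ × ℤ),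
    (∀ w, w ∈ W ↔ A' < ‖zw om w + z0‖ ^ 2 ∧ ‖zw om w + z0‖ ^ 2 ≤ B) →
    ‖∑ w ∈ W, fg M om z0 w‖
      ≤ C * (X ^ 2) ^ (1 - 1 / (2 * (5 * (2 * (Q : ℝ) + 8) + 5) * 2 ^ Q)) := by
  have hA120 := hGA.1
  have hA1 : 1 ≤ A := le_trans (by norm_num) hA120
  have hAp : 0 < A := lt_of_lt_of_le one_pos hA1
  obtain ⟨s, hs⟩ : ∃ s : ℕ, s = 2 * Q + 8 := ⟨_, rfl⟩
  obtain ⟨R, hR⟩ : ∃ R : ℕ, R = 5 * s + 5 := ⟨_, rfl⟩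
  have hRr : (5 * (2 * (Q : ℝ) + 8) + 5) = (R : ℝ) := by
    rw [hR, hs]
    push_cast
    ring
  rw [hRr]
  have hR45 : 45 ≤ R := by rw [hR, hs]; omega
  have hR45r : (45 : ℝ) ≤ R := by exact_mod_cast hR45
  have hR0 : (0 : ℝ) < R := lt_of_lt_of_le (by norm_num) hR45r
  have hDw : 0 ≤ Dw 4 7 Q := Dw_nonneg (by norm_num) (by norm_num) Q
  obtain ⟨hce, hc0, hc1, he0, he1⟩ := vge_c52 (Q := Q) hR45r
  generalize 1 / (2 * (R : ℝ) * 2 ^ Q) = c at hce hc0 hc1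
  obtain ⟨Z0, hZ0⟩ : ∃ Z0 : ℕ, Z0 = ⌈KAQ A Q⌉₊ + ⌈8 * A⌉₊ + 2 * R + 4 := ⟨_, rfl⟩
  obtain ⟨hK1p, hK2p, hK3p⟩ := vge_K52 hAp
  have hCe : 0 ≤ (Dw 4 7 Q) ^ ((1 : ℝ) / 2 ^ Q) := Real.rpow_nonneg hDw _
  obtain ⟨hD0, hD1, hD3, hD2⟩ := vge_D52 (S := (Z0 : ℝ) ^ R) hK1p hK2p hK3p hCe
  refine ⟨_, hD0, ?_⟩
  intro T X hT hX hTX M hM0 hMT z0 A' B hA hAB hB W hW
  have hX0 : 0 < X := lt_of_lt_of_le one_pos hX
  have hP1 : 1 ≤ (X ^ 2) ^ (1 - c) := Real.one_le_rpow (one_le_pow₀ hX) (sub_nonneg.2 hc1)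
  have hP0 : 0 ≤ (X ^ 2) ^ (1 - c) := le_trans zero_le_one hP1
  obtain ⟨hZ1, hZlow, hZup⟩ := vge_Z52 hX hR0
  generalize ⌊X ^ ((1 : ℝ) / R)⌋₊ = Z at hZ1 hZlow hZup
  rcases lt_or_ge Z Z0 with hsmall | hbig
  · -- bounded X
    have h1 : X ≤ (Z0 : ℝ) ^ R := by
      refine hZup.trans (pow_le_pow_left₀ (add_nonneg (Nat.cast_nonneg _) zero_le_one) ?_ R)
      exact_mod_cast hsmall
    exact vge_small52 hGA hX h1 hP1 hB hD1 z0 M W (fun w hw => ((hW w).1 hw).2)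
  · obtain ⟨hZ2R, hZ8, hKQ, hZ4⟩ := vge_big52 hZ0 hbig
    have hZr1 : (1 : ℝ) ≤ Z := by exact_mod_cast hZ1
    have hZp : (0 : ℝ) < Z := lt_of_lt_of_le one_pos hZr1
    have hX0up : X ≤ 2 * (Z : ℝ) ^ R := hZup.trans (vge_pow52 hZp hZ2R)
    have hX0p : (0 : ℝ) < (Z : ℝ) ^ R := pow_pos hZp R
    have hA0 : ((Z : ℝ) ^ R) ^ 2 ≤ A' := (pow_le_pow_left₀ hX0p.le hZlow 2).trans hA
    have hB0 : B ≤ 9 * ((Z : ℝ) ^ R) ^ 2 := vge_B52 hX0.le hX0up hB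
    have hX04 : 4 * (A + 1) ≤ (Z : ℝ) ^ R := vge_A52 hA1 hZ8 (by omega)
    -- the quantity we compare with
    have hE : (Z : ℝ) ^ ((2 * R : ℝ) - (1 : ℝ) / 2 ^ Q) ≤ (X ^ 2) ^ (1 - c) :=
      vge_E52 hZp hZlow hc1 hce
    have hE2 : (Z : ℝ) ^ (2 * R - 1 : ℕ) ≤ (X ^ 2) ^ (1 - c) :=
      (vge_E2_52 hZr1 (by omega) he1).trans hE
    rcases lt_or_ge M (Z ^ 6) with hMs | hMb
    · -- small frequency
      exact (smallG hGA ((Z : ℝ) ^ R) hX04 M hM0 z0 A' B hA0 hAB hB0 W hW).trans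
        (vge_sf52 hZr1 (by omega) hMs hE2 hK3p.le hD3 hP0)
    · -- large frequency
      have hMup : M ≤ Z ^ (4 * (s + 1) * Q + 5 * s + 4) :=
        vge_M52 hκ hQ hR hX0.le hX0up hZ4 hMT hTX
      have hA0' : ((Z : ℝ) ^ (5 * s + 5)) ^ 2 ≤ A' := by rw [← hR]; exact hA0
      have hB0' : B ≤ 9 * ((Z : ℝ) ^ (5 * s + 5)) ^ 2 := by rw [← hR]; exact hB0
      exact (bigG hGA Q s Z hs.ge hKQ hZ8 M hMb hMup z0 A' B hA0' hAB hB0' W hW).trans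
        (vge_fin52 hR hZr1 hDw hK1p.le hK2p.le hE hE2 hP0 hD2)

end VG63

open VG63

/-- **StVG holds** -/
theorem stVG_63 : StVG := by
  intro om hom κ hκ
  obtain ⟨A, hGA⟩ := exists_GA om hom
  obtain ⟨Q, hQ⟩ := exists_nat_ge (10 / κ)
  obtain ⟨C, hC, hcore⟩ := coreG hGA κ hκ Q hQ
  refine ⟨1 / (2 * (5 * (2 * (Q : ℝ) + 8) + 5) * 2 ^ Q), by positivity, C, hC, ?_⟩
  intro T hT h hh hhT q a hq Y Y1 Y2 hY hY1 hY12 hY2 S hS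
  have hq2 : (0 : ℝ) < (q : ℝ) ^ 2 := by
    have : (0 : ℝ) < q := by exact_mod_cast hq
    positivity
  have hTκ : 1 ≤ T ^ κ := Real.one_le_rpow hT hκ.le
  have hYpos : 0 < Y := lt_of_lt_of_le (by positivity) hY
  obtain ⟨z0, W, hW, hsum⟩ := transfer om q a hq Y1 Y2 (by linarith) S hS
  have hYq : T ^ κ ≤ Y / q ^ 2 := by
    rw [le_div_iff₀ hq2]
    linarith
  set X : ℝ := √(Y / q ^ 2) with hX
  have hXsq : X ^ 2 = Y / q ^ 2 := Real.sq_sqrt (by linarith)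
  have hX1 : 1 ≤ X := by
    rw [hX]
    apply Real.le_sqrt_of_sq_le
    linarith
  rw [hsum h, ← hXsq]
  have hMT : ((h.natAbs : ℕ) : ℝ) ≤ T := by
    have e : ((h.natAbs : ℕ) : ℝ) = |(h : ℝ)| := by
      rw [Nat.cast_natAbs, Int.cast_abs]
    rw [e]
    exact hhT
  exact hcore T X hT hX1 (by rw [hXsq]; exact hYq) h.natAbs (Int.natAbs_pos.2 hh) hMT z0
    (Y1 / q ^ 2) (Y2 / q ^ 2) (by rw [hXsq]; exact div_le_div_of_nonneg_right hY1 hq2.le)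
    (div_le_div_of_nonneg_right hY12 hq2.le)
    (by rw [hXsq, ← mul_div_assoc]; exact div_le_div_of_nonneg_right hY2 hq2.le) W hW

end Pool.Agent.Lib.MP_a17b09_nt.MR
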