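import Pool.Agent.Lib.MP_a17b09_nt.MR.VGe63
import Pool.Agent.Lib.MP_a17b09_nt.CH.Sim90

/-!
Project MRSG, module VG, part f: cancellation of angular characters for every positive form.
-/

set_option autoImplicit false

open Finset

namespace Pool.Agent.Lib.MP_a17b09_nt.MR

open Pool.Agent.Lib.MP_a17b09_nt.LP Pool.Agent.Lib.MP_a17b09_nt.CH

/-- **StVF**: cancellation of the angular characters of a positive form over annuli and residue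
classes -/
def StVF : Prop := ∀ Q : CH.Form, Q.Pos → ∀ κ : ℝ, 0 < κ → ∃ c : ℝ, 0 < c ∧ ∃ C : ℝ, 0 < C ∧
  ∀ T : ℝ, 1 ≤ T → ∀ h : ℤ, h ≠ 0 → |(h : ℝ)| ≤ T → ∀ (q : ℕ) (a : CH.V), 0 < q →
  ∀ Y Y1 Y2 : ℝ, (q : ℝ) ^ 2 * T ^ κ ≤ Y → Y ≤ Y1 → Y1 ≤ Y2 → Y2 ≤ 2 * Y →
  ∀ S : Finset CH.V, (∀ v : CH.V, v ∈ S ↔ (q : ℤ) ∣ v.1 - a.1 ∧ (q : ℤ) ∣ v.2 - a.2 ∧
    Y1 < (Q.q v : ℝ) ∧ (Q.q v : ℝ) ≤ Y2) →
  ‖∑ v ∈ S, (CH.PE.tq Q v / (‖CH.PE.tq Q v‖ : ℂ)) ^ h‖ ≤ C * (Y / q ^ 2) ^ (1 - c)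

namespace VG63

/-- the root -/
noncomputable def omF (Q : CH.Form) : ℂ :=
  ⟨(Q.b : ℝ) / (2 * Q.a), √(Q.D : ℝ) / (2 * Q.a)⟩

theorem tq_zw (Q : CH.Form) (hQ : Q.Pos) (v : CH.V) :
    CH.PE.tq Q v = ((√(Q.a : ℝ) : ℝ) : ℂ) * zw (omF Q) v := by
  have ha : (0 : ℝ) < Q.a := by exact_mod_cast hQ.1
  have hs : 0 < √(Q.a : ℝ) := Real.sqrt_pos.2 ha
  have hss : √(Q.a : ℝ) * √(Q.a : ℝ) = Q.a := Real.mul_self_sqrt ha.le
  apply Complex.ext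
  · rw [Complex.re_ofReal_mul]
    simp only [CH.PE.tq, zw, omF, Complex.add_re, Complex.intCast_re, Complex.mul_re,
      Complex.intCast_im, zero_mul, sub_zero]
    rw [mul_add]
    congr 1
    have h1 : (Q.b : ℝ) * v.2 / (2 * √(Q.a : ℝ)) = √(Q.a : ℝ) * (v.2 * (Q.b / (2 * (√(Q.a : ℝ) * √(Q.a : ℝ))))) := by
      field_simp
    rw [h1, hss]
  · rw [Complex.im_ofReal_mul]
    simp only [CH.PE.tq, zw, omF, Complex.add_im, Complex.intCast_re, Complex.mul_im,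
      Complex.intCast_im, zero_mul, add_zero, zero_add]
    have h1 : √(Q.D : ℝ) * v.2 / (2 * √(Q.a : ℝ)) = √(Q.a : ℝ) * (v.2 * (√(Q.D : ℝ) / (2 * (√(Q.a : ℝ) * √(Q.a : ℝ))))) := by
      field_simp
    rw [h1, hss]

theorem omF_im (Q : CH.Form) (hQ : Q.Pos) : (omF Q).im ≠ 0 := by
  have ha : (0 : ℝ) < Q.a := by exact_mod_cast hQ.1
  have hD : (0 : ℝ) < Q.D := by exact_mod_cast hQ.2
  have hs : 0 < √(Q.D : ℝ) := Real.sqrt_pos.2 hD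
  show √(Q.D : ℝ) / (2 * Q.a) ≠ 0
  positivity

theorem q_zw (Q : CH.Form) (hQ : Q.Pos) (v : CH.V) :
    (Q.q v : ℝ) = Q.a * ‖zw (omF Q) v‖ ^ 2 := by
  have ha : (0 : ℝ) < Q.a := by exact_mod_cast hQ.1
  rw [← CH.PE.tq_norm90 Q hQ v, Complex.normSq_eq_norm_sq, tq_zw Q hQ v, norm_mul,
    Complex.norm_real, Real.norm_eq_abs, abs_of_pos (Real.sqrt_pos.2 ha), mul_pow,
    Real.sq_sqrt ha.le]

theorem dir_zw (Q : CH.Form) (hQ : Q.Pos) (v : CH.V) :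
    CH.PE.tq Q v / (‖CH.PE.tq Q v‖ : ℂ) = zw (omF Q) v / (‖zw (omF Q) v‖ : ℂ) := by
  have ha : (0 : ℝ) < Q.a := by exact_mod_cast hQ.1
  have hs : 0 < √(Q.a : ℝ) := Real.sqrt_pos.2 ha
  have hsc : ((√(Q.a : ℝ) : ℝ) : ℂ) ≠ 0 := by exact_mod_cast hs.ne'
  rw [tq_zw Q hQ v, norm_mul, Complex.norm_real, Real.norm_eq_abs, abs_of_pos hs]
  push_cast
  rw [mul_div_mul_left _ _ hsc]

end VG63

open VG63 VC63

private lemma vgf_a52 {Y Y2 a q : ℝ} (h1 : Y2 ≤ 2 * Y) (h2 : Y ≤ a ^ 2 * q ^ 2) :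
    Y2 ≤ 2 * a * q ^ 2 * a := by
  have h3 : 2 * a * q ^ 2 * a = 2 * (a ^ 2 * q ^ 2) := by ring
  rw [h3]
  linarith

/-- **StVF holds** -/
theorem stVF_63 : StVF := by
  intro Q hQ κ hκ
  have ha1 : (1 : ℝ) ≤ Q.a := by
    have : (1 : ℤ) ≤ Q.a := hQ.1
    exact_mod_cast this
  have ha : (0 : ℝ) < Q.a := by linarith
  set om := omF Q with hom
  obtain ⟨A, hGA⟩ := exists_GA om (omF_im Q hQ)
  have hA0 : 0 < A := by linarith [hGA.1]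
  obtain ⟨c, hc, C, hC, hV⟩ := stVG_63 om (omF_im Q hQ) (κ / 2) (by linarith)
  set K : ℝ := (2 * √(2 * Q.a) * A + 1) ^ 2 with hK
  have hKp : 0 < K := by positivity
  set c' : ℝ := min c 1 with hc'
  have hc'0 : 0 < c' := lt_min hc one_pos
  refine ⟨c', hc'0, C + K, by positivity, ?_⟩
  intro T hT h hh hhT q a hq Y Y1 Y2 hY hY1 hY12 hY2 S hS
  have hqr : (0 : ℝ) < q := by exact_mod_cast hq
  have hq2 : (0 : ℝ) < (q : ℝ) ^ 2 := by positivity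
  have hTκ : 1 ≤ T ^ κ := Real.one_le_rpow hT hκ.le
  have hTκ2 : 1 ≤ T ^ (κ / 2) := Real.one_le_rpow hT (by linarith)
  have hYpos : 0 < Y := lt_of_lt_of_le (by positivity) hY
  have hYq1 : T ^ κ ≤ Y / q ^ 2 := by
    rw [le_div_iff₀ hq2]
    linarith
  have hYq : 1 ≤ Y / q ^ 2 := by linarith
  have hP : 1 ≤ (Y / (q : ℝ) ^ 2) ^ (1 - c') :=
    Real.one_le_rpow hYq (by linarith [min_le_right c 1])
  have hS' : ∀ v : ℤ × ℤ, v ∈ S ↔ (q : ℤ) ∣ v.1 - a.1 ∧ (q : ℤ) ∣ v.2 - a.2 ∧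
      Y1 / Q.a < ‖zw om v‖ ^ 2 ∧ ‖zw om v‖ ^ 2 ≤ Y2 / Q.a := by
    intro v
    rw [hS v, q_zw Q hQ v, div_lt_iff₀ ha, le_div_iff₀ ha, mul_comm (Q.a : ℝ)]
  have hsum : ∑ v ∈ S, (CH.PE.tq Q v / (‖CH.PE.tq Q v‖ : ℂ)) ^ h
      = ∑ v ∈ S, (zw om v / (‖zw om v‖ : ℂ)) ^ h := by
    apply Finset.sum_congr rfl
    intro v _
    rw [dir_zw Q hQ v]
  rw [hsum]
  by_cases hcase : (q : ℝ) ^ 2 * T ^ (κ / 2) ≤ Y / Q.a
  · have h1 := hV T hT h hh hhT q a hq (Y / Q.a) (Y1 / Q.a) (Y2 / Q.a) hcase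
      (div_le_div_of_nonneg_right hY1 ha.le) (div_le_div_of_nonneg_right hY12 ha.le)
      (by rw [← mul_div_assoc]; exact div_le_div_of_nonneg_right hY2 ha.le) S hS'
    refine h1.trans ?_
    have h2 : 1 ≤ Y / Q.a / (q : ℝ) ^ 2 := by
      rw [le_div_iff₀ hq2, one_mul]
      exact (le_mul_of_one_le_right hq2.le hTκ2).trans hcase
    have h3 : (Y / Q.a / (q : ℝ) ^ 2) ^ (1 - c) ≤ (Y / Q.a / (q : ℝ) ^ 2) ^ (1 - c') :=
      Real.rpow_le_rpow_of_exponent_le h2 (by linarith [min_le_left c 1])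
    have h4 : (Y / Q.a / (q : ℝ) ^ 2) ^ (1 - c') ≤ (Y / (q : ℝ) ^ 2) ^ (1 - c') := by
      apply Real.rpow_le_rpow (by linarith) _ (by linarith [min_le_right c 1])
      apply div_le_div_of_nonneg_right _ hq2.le
      exact div_le_self hYpos.le ha1
    calc C * (Y / Q.a / (q : ℝ) ^ 2) ^ (1 - c) ≤ C * (Y / (q : ℝ) ^ 2) ^ (1 - c') :=
          mul_le_mul_of_nonneg_left (h3.trans h4) hC.le
      _ ≤ (C + K) * (Y / (q : ℝ) ^ 2) ^ (1 - c') :=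
          mul_le_mul_of_nonneg_right (by linarith) (by linarith)
  · rw [not_le] at hcase
    have hTa : T ^ (κ / 2) < Q.a := by
      have h1 : T ^ κ = T ^ (κ / 2) * T ^ (κ / 2) := by
        rw [← Real.rpow_add (by linarith)]
        congr 1
        ring
      rw [div_lt_iff₀ ha] at hcase
      rw [h1] at hY
      have h2 : (q : ℝ) ^ 2 * T ^ (κ / 2) * T ^ (κ / 2) < (q : ℝ) ^ 2 * T ^ (κ / 2) * Q.a := by
        linarith
      exact lt_of_mul_lt_mul_left h2 (by positivity)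
    have hYb : Y / (q : ℝ) ^ 2 ≤ (Q.a : ℝ) ^ 2 := by
      rw [div_lt_iff₀ ha] at hcase
      rw [div_le_iff₀ hq2]
      have h2 : (q : ℝ) ^ 2 * T ^ (κ / 2) * Q.a ≤ (q : ℝ) ^ 2 * Q.a * Q.a := by
        apply mul_le_mul_of_nonneg_right _ ha.le
        exact mul_le_mul_of_nonneg_left hTa.le hq2.le
      linarith
    obtain ⟨z0, W, hW, hWs⟩ := transfer om q a hq (Y1 / Q.a) (Y2 / Q.a)
      (div_nonneg (by linarith) ha.le) S hS'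
    rw [hWs h]
    have h1 : ‖∑ w ∈ W, fg h.natAbs om z0 w‖ ≤ (W.card : ℝ) := by
      refine (norm_sum_le _ _).trans ?_
      refine (Finset.sum_le_sum (fun w _ => fg_le h.natAbs om z0 w)).trans ?_
      rw [Finset.sum_const, nsmul_eq_mul, mul_one]
    have h2 : (W.card : ℝ) ≤ K := by
      rw [hK]
      apply card_disc hGA z0 _ (Real.sqrt_nonneg _) W
      intro w hw
      apply Real.le_sqrt_of_sq_le
      refine ((hW w).1 hw).2.trans ?_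
      rw [div_le_iff₀ hq2, div_le_iff₀ ha]
      rw [div_le_iff₀ hq2] at hYb
      exact vgf_a52 hY2 hYb
    have h3 : K * 1 ≤ (C + K) * (Y / (q : ℝ) ^ 2) ^ (1 - c') :=
      mul_le_mul (by linarith) hP (by norm_num) (by linarith)
    linarith

end Pool.Agent.Lib.MP_a17b09_nt.MR
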